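import Pool.Agent.Lib.MP_d6ddbd_nt.KI.Defs

/-!
A large sieve inequality for quadratic characters of number fields: definitions and the
statements of the blocks.
-/

set_option autoImplicit false

open NumberField Finset
open Pool.Agent.Stark (Pr og hq LSq)
open Pool.Agent.Lib.MP_d6ddbd_nt.K11 Pool.Agent.Lib.MP_d6ddbd_nt.KI

noncomputable section

namespace Pool.Agent.Lib.MP_d6ddbd_nt.GG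

/-- The sign of an element of `ZMod 2`. -/
def sg (x : ZMod 2) : ℝ := if x = 0 then 1 else -1

/-- The bound of the sieve. -/
def bnd (C c Q y Y : ℝ) : ℝ := C * Real.log (Q * y * Y) ^ 3 * y * Y *
  Real.exp (-(c * Real.log y * Real.log Y / Real.log (Q * y * Y)))

/-- The integer points of the cube of side `H`. -/
def box (n H : ℕ) : Finset (Fin n → ℕ) := Fintype.piFinset fun _ => range H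

/-- The bound for the moments. -/
def mom (n a m H R D : ℕ) (Y : ℝ) (j k : ℕ) : ℝ :=
  4 ^ m * ((a : ℝ) ^ a * (R : ℝ) ^ (n + 1) * ((m : ℝ) ^ (2 * m) * (j : ℝ) ^ m * (H : ℝ) ^ n +
    (j : ℝ) ^ (2 * m) * n * (2 * Y) ^ (2 * m) * (H : ℝ) ^ (n - 1)) + (k : ℝ) ^ a * (D : ℝ) ^ (2 * m))

/-- A small basis of an order of small index. -/
structure Od (N : Type) [Field N] [NumberField N] (n W f : ℕ) (ω : Fin n → 𝓞 N) : Prop where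
  rk : Module.finrank ℚ N = n
  ind : ∀ c : Fin n → ℤ, ∑ i, (c i : 𝓞 N) * ω i = 0 → c = 0
  emb : ∀ (φ : N →+* ℂ) i, ‖φ (ω i : N)‖ ≤ W
  mul : ∀ i k, ∃ c : Fin n → ℤ, (∀ j, |c j| ≤ W) ∧ ω i * ω k = ∑ j, (c j : 𝓞 N) * ω j
  pos : 0 < f
  le : f ≤ W
  den : ∀ x : 𝓞 N, ∃ c : Fin n → ℤ, (f : 𝓞 N) * x = ∑ i, (c i : 𝓞 N) * ω i

/-- `γ` has even valuation outside `2 M l` and odd valuation at a prime over `l`. -/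
structure Gm {N : Type} [Field N] [NumberField N] (M l : ℕ) (γ : N) : Prop where
  ne : γ ≠ 0
  ev : ∀ 𝔮 : Pr N, ((2 * M * l : ℕ) : 𝓞 N) ∉ 𝔮.asIdeal → Even (og 𝔮 γ)
  od : ∃ 𝔮 : Pr N, (l : 𝓞 N) ∈ 𝔮.asIdeal ∧ Odd (og 𝔮 γ)

/-- The data of the sieve. -/
structure Dat {N : Type} [Field N] [NumberField N] (M : ℕ) (y Y : ℝ) (J P : Finset ℕ)
    (γ : ℕ → N) (𝔭 : ℕ → Pr N) : Prop where
  ne : M ≠ 0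
  hy : 2 ≤ y
  hY : 2 ≤ Y
  hJ : ∀ l ∈ J, l.Prime ∧ Y < l ∧ (l : ℝ) ≤ 2 * Y ∧ ¬ l ∣ 2 * M ∧ l ∉ P ∧ Gm M l (γ l)
  hP : ∀ p ∈ P, p.Prime ∧ y < p ∧ (p : ℝ) ≤ 2 * y ∧ ¬ p ∣ 2 * M ∧ nm (𝔭 p) = p

/-- Open subgroups. -/
def Opn (U : Subgroup G) : Prop :=
  ∃ J : Finset ℂ, Al J ∧ ∀ σ : G, (∀ x ∈ J, σ x = x) → σ ∈ U

/-- A continuous quadratic character of `U`, unramified outside `2 M l`, ramified over `l`. -/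
structure Chr (U : Subgroup G) (M l : ℕ) (θ : G → ZMod 2) : Prop where
  mul : ∀ σ ∈ U, ∀ τ ∈ U, θ (σ * τ) = θ σ + θ τ
  fin : ∃ J : Finset ℂ, Al J ∧ ∀ σ ∈ U, (∀ x ∈ J, σ x = x) → θ σ = 0
  unr : ∀ (v : ℕ) O (g : G), v.Prime → ¬ v ∣ 2 * M * l → Ov O v → Frob O 1 g → g ∈ U → θ g = 0
  ram : ∃ (O : ValuationSubring ℂ) (g : G), Ov O l ∧ Frob O 1 g ∧ θ g ≠ 0

/-- Two applications of the power mean inequality. -/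
def HoldStmt : Prop := ∀ (a m : ℕ) (J P : Finset ℕ) (θ : ℕ → ℕ → ℝ) (β : ℕ → ℝ) (B : ℝ),
  0 < a → 0 < m → (∀ p ∈ P, |β p| ≤ 1) →
  (∀ b : ℕ → ℝ, (∀ l, |b l| ≤ 1) → ∑ τ ∈ Fintype.piFinset fun _ : Fin a => P,
    (∑ l ∈ J, b l * ∏ i, θ l (τ i)) ^ (2 * m) ≤ B) →
  (∑ l ∈ J, |∑ p ∈ P, β p * θ l p|) ^ (2 * m * a) ≤
    (J.card : ℝ) ^ (2 * m * (a - 1)) * (P.card : ℝ) ^ (a * (2 * m - 1)) * B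

/-- Moments of a sum of periodic functions of mean zero. -/
def BoxStmt : Prop := ∀ (n m H Z : ℕ) (J : Finset ℕ) (g : ℕ → (Fin n → ℕ) → ℝ), 0 < n → 0 < m →
  (∀ l ∈ J, l.Prime ∧ l ≤ Z ∧ (∀ t, |g l t| ≤ 1) ∧
    (∀ t t', (∀ i, t i ≡ t' i [MOD l]) → g l t = g l t') ∧ ∑ t ∈ box n l, g l t = 0) →
  ∑ t ∈ box n H, (∑ l ∈ J, g l t) ^ (2 * m) ≤
    (m : ℝ) ^ (2 * m) * (J.card : ℝ) ^ m * (H : ℝ) ^ n +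
      (J.card : ℝ) ^ (2 * m) * n * (Z : ℝ) ^ (2 * m) * (H : ℝ) ^ (n - 1)

/-- Small orders exist. -/
def OrdStmt : Prop := ∀ n : ℕ, ∃ A : ℕ, ∀ (N : Type) [Field N] [NumberField N] (Q : ℝ),
  Module.finrank ℚ N = n → |(discr N : ℝ)| ≤ Q →
  ∃ (W f : ℕ) (ω : Fin n → 𝓞 N), (W : ℝ) ≤ (2 * Q) ^ A ∧ Od N n W f ω

/-- An ideal has an element in the box. -/
def ElStmt : Prop := ∀ (N : Type) [Field N] [NumberField N] (n W f : ℕ) (ω : Fin n → 𝓞 N)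
  (𝔞 : Ideal (𝓞 N)) (T H K : ℕ) (h : 𝓞 N), Od N n W f ω → 𝔞 ≠ ⊥ →
  Ideal.absNorm 𝔞 < (T + 1) ^ n → IsCoprime 𝔞 (Ideal.span {((K * f : ℕ) : 𝓞 N)}) →
  2 * n ^ 2 * T * W < H → ∃ t ∈ box n H, h + K * ∑ i, (t i : 𝓞 N) * ω i ∈ 𝔞

/-- A crude count of the ideals of bounded norm. -/
def IdStmt : Prop := ∀ (N : Type) [Field N] [NumberField N] (R : ℕ),
  ∃ s : Finset (Ideal (𝓞 N)), s.card ≤ R ^ (Module.finrank ℚ N + 1) ∧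
    ∀ 𝔠 : Ideal (𝓞 N), 𝔠 ≠ ⊥ → Ideal.absNorm 𝔠 ≤ R → 𝔠 ∈ s

/-- Quadratic reciprocity. -/
def RecStmt : Prop := ∀ (N : Type) [Field N] [NumberField N] (M l : ℕ) (γ : N), M ≠ 0 → l.Prime →
  ¬ l ∣ 2 * M → Gm M l γ →
  ∃ (χ : 𝓞 N → ℝ) (ε : Ideal (𝓞 N) → ℝ) (u : 𝓞 N), (∀ x, |χ x| ≤ 1) ∧ (∀ 𝔠, |ε 𝔠| ≤ 1) ∧
    (∀ x z, χ (x + l * z) = χ x) ∧ IsCoprime u (l : 𝓞 N) ∧ (∀ x, χ (u * x) = -χ x) ∧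
    ∀ (a : ℕ) (τ : Fin a → Pr N) (z : 𝓞 N) (𝔠 : Ideal (𝓞 N)),
      (∀ i, ((2 * M * l : ℕ) : 𝓞 N) ∉ (τ i).asIdeal) →
      (∀ φ : N →+* ℝ, 0 < φ ((1 + 8 * M * z : 𝓞 N) : N)) →
      Ideal.span {1 + 8 * M * z} = (∏ i, (τ i).asIdeal) * 𝔠 → 𝔠 ≠ ⊥ → ¬ l ∣ Ideal.absNorm 𝔠 →
      ∏ i, sg (nsq (τ i) γ) = ε 𝔠 * χ (1 + 8 * M * z)

/-- Complete sums vanish. -/
def SumStmt : Prop := ∀ (N : Type) [Field N] [NumberField N] (n W f : ℕ) (ω : Fin n → 𝓞 N)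
  (l K : ℕ) (χ : 𝓞 N → ℝ) (u h : 𝓞 N), Od N n W f ω → l.Prime → ¬ l ∣ K * f →
  (∀ x z, χ (x + l * z) = χ x) → IsCoprime u (l : 𝓞 N) → (∀ x, χ (u * x) = -χ x) →
  ∑ t ∈ box n l, χ (h + K * ∑ i, (t i : 𝓞 N) * ω i) = 0

/-- The moments over products of primes. -/
def MomStmt : Prop := ∀ (N : Type) [Field N] [NumberField N] (n W f : ℕ) (ω : Fin n → 𝓞 N)
  (M : ℕ) (y Y : ℝ) (J P : Finset ℕ) (γ : ℕ → N) (𝔭 : ℕ → Pr N) (a m T H R D : ℕ) (b : ℕ → ℝ),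
  Od N n W f ω → Dat M y Y J P γ 𝔭 → (∀ l ∈ J, ¬ l ∣ f) → (∀ p ∈ P, ¬ p ∣ f) → 0 < m →
  (2 * y) ^ a < ((T : ℝ) + 1) ^ n → 2 * n ^ 2 * T * W < H →
  (24 * M * n * W * H : ℝ) ^ n ≤ R * y ^ a → (R : ℝ) < Y ^ (D + 1) → (∀ l, |b l| ≤ 1) →
  ∑ τ ∈ Fintype.piFinset fun _ : Fin a => P,
    (∑ l ∈ J, b l * ∏ i, sg (nsq (𝔭 (τ i)) (γ l))) ^ (2 * m) ≤ mom n a m H R D Y J.card P.card

/-- The choice of the parameters. -/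
def ParStmt : Prop := ∀ n A : ℕ, 0 < n → ∃ C c : ℝ, 0 < C ∧ 0 < c ∧ ∀ (Q y Y : ℝ) (M W : ℕ),
  2 ≤ y → 2 ≤ Y → 0 < M → (M : ℝ) ≤ Q → 0 < W → (W : ℝ) ≤ (2 * Q) ^ A →
  ∃ a m T H R D : ℕ, 0 < a ∧ 0 < m ∧ (2 * y) ^ a < ((T : ℝ) + 1) ^ n ∧ 2 * n ^ 2 * T * W < H ∧
    (24 * M * n * W * H : ℝ) ^ n ≤ R * y ^ a ∧ (R : ℝ) < Y ^ (D + 1) ∧
    ∀ (S : ℝ) (j k : ℕ), 0 ≤ S → (j : ℝ) ≤ 2 * Y → (k : ℝ) ≤ 2 * y →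
      S ^ (2 * m * a) ≤ (j : ℝ) ^ (2 * m * (a - 1)) * (k : ℝ) ^ (a * (2 * m - 1)) *
        mom n a m H R D Y j k → S ≤ bnd C c Q y Y

/-- The large sieve inequality over a number field. -/
def LsStmt : Prop := ∀ n : ℕ, ∃ C c : ℝ, 0 < C ∧ 0 < c ∧ ∀ (N : Type) [Field N] [NumberField N]
  (Q y Y : ℝ) (M : ℕ) (J P : Finset ℕ) (γ : ℕ → N) (𝔭 : ℕ → Pr N) (β : ℕ → ℝ),
  Module.finrank ℚ N ≤ n → |(discr N : ℝ)| ≤ Q → (M : ℝ) ≤ Q → Dat M y Y J P γ 𝔭 →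
  (∀ p ∈ P, |β p| ≤ 1) → ∑ l ∈ J, |∑ p ∈ P, β p * sg (nsq (𝔭 p) (γ l))| ≤ bnd C c Q y Y

/-- The discriminant of a field that is unramified outside `M`. -/
def DiscStmt : Prop := ∀ (N : Type) [Field N] [NumberField N] (M : ℕ), M ≠ 0 →
  (∀ (p : ℕ) (𝔭 : Pr N), p.Prime → ¬ p ∣ M → (p : 𝓞 N) ∈ 𝔭.asIdeal → og 𝔭 (p : N) = 1) →
  (discr N).natAbs ≤ M ^ (Module.finrank ℚ N ^ 2)

/-- The fixed field of an open subgroup. -/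
def FixStmt : Prop := ∀ U : Subgroup G, Opn U →
  ∃ (N : Type) (_ : Field N) (_ : NumberField N) (e : N →+* ℂ),
    Module.finrank ℚ N = U.index ∧ ∀ σ : G, σ ∈ U ↔ ∀ y, σ (e y) = e y

/-- Inertia and Frobenius elements in terms of valuations and local squares. -/
def DictStmt : Prop := ∀ (N : Type) [Field N] [NumberField N] (e : N →+* ℂ),
  (∀ (v : ℕ) (𝔭 : Pr N), v.Prime → (v : 𝓞 N) ∈ 𝔭.asIdeal →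
    (∀ O (g : G), Ov O v → Frob O 1 g → ∀ y, g (e y) = e y) → og 𝔭 (v : N) = 1) ∧
  (∀ (v : ℕ) (𝔭 : Pr N) (γ : N) (s : ℂ), v.Prime → (v : 𝓞 N) ∈ 𝔭.asIdeal → γ ≠ 0 → s ^ 2 = e γ →
    (∀ O (g : G), Ov O v → Frob O 1 g → (∀ y, g (e y) = e y) → g s = s) → Even (og 𝔭 γ)) ∧
  (∀ (v : ℕ) O (g : G) (γ : N) (s : ℂ), v.Prime → v ≠ 2 → γ ≠ 0 → s ^ 2 = e γ → Ov O v →
    Frob O 1 g → (∀ y, g (e y) = e y) → g s ≠ s →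
    ∃ 𝔭 : Pr N, (v : 𝓞 N) ∈ 𝔭.asIdeal ∧ Odd (og 𝔭 γ)) ∧
  ∀ (p : ℕ) O (σ : G), p.Prime → p ≠ 2 → Ov O p → Frob O p σ → (∀ y, σ (e y) = e y) →
    ∃ 𝔭 : Pr N, nm 𝔭 = p ∧ ∀ (γ : N) (s : ℂ), γ ≠ 0 → s ^ 2 = e γ → Even (og 𝔭 γ) →
      (σ s = s ↔ LSq 𝔭 γ)

/-- The large sieve inequality for characters of an open subgroup. -/
def LsG : Prop := ∀ n : ℕ, ∃ C c : ℝ, 0 < C ∧ 0 < c ∧ ∀ (U : Subgroup G) (M : ℕ) (y Y : ℝ)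
  (J P : Finset ℕ) (θ : ℕ → G → ZMod 2) (σ : ℕ → G) (β : ℕ → ℝ),
  Opn U → U.index ≤ n → M ≠ 0 → 2 ≤ y → 2 ≤ Y →
  (∀ (v : ℕ) O (g : G), v.Prime → ¬ v ∣ M → Ov O v → Frob O 1 g → g ∈ U) →
  (∀ l ∈ J, l.Prime ∧ Y < l ∧ (l : ℝ) ≤ 2 * Y ∧ ¬ l ∣ 2 * M ∧ l ∉ P ∧ Chr U M l (θ l)) →
  (∀ p ∈ P, p.Prime ∧ y < p ∧ (p : ℝ) ≤ 2 * y ∧ ¬ p ∣ 2 * M ∧ σ p ∈ U ∧
    (∃ O, Ov O p ∧ Frob O p (σ p)) ∧ |β p| ≤ 1) →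
  ∑ l ∈ J, |∑ p ∈ P, β p * sg (θ l (σ p))| ≤ bnd C c M y Y

end Pool.Agent.Lib.MP_d6ddbd_nt.GG
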