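import Pool.Agent.Lib.MP_d6ddbd_nt.GG.St
import Pool.Agent.Lib.MP_d6ddbd_nt.K11.Link1
import Pool.Agent.Lib.MP_d6ddbd_nt.K11.Link2

/-!
Inertia and Frobenius elements in terms of valuations and local squares.
-/

set_option autoImplicit false

open NumberField IsDedekindDomain
open Pool.Agent.Stark
open Pool.Agent.Lib.MP_d6ddbd_nt.K11 Pool.Agent.Lib.MP_d6ddbd_nt.K11.Link1

noncomputable section

namespace Pool.Agent.Lib.MP_d6ddbd_nt.GG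

namespace Dict

variable {L : Type} [Field L] [NumberField L] {e : L →+* ℂ} {O : ValuationSubring ℂ} {𝔭 : Pr L}

theorem unif (𝔭 : Pr L) : ∃ π : L, π ≠ 0 ∧ og 𝔭 π = 1 := by
  obtain ⟨t, ht⟩ := 𝔭.valuation_exists_uniformizer L
  have h2 : og 𝔭 t = 1 := by
    rw [og, ord, ht]
    simp
  refine ⟨t, ?_, h2⟩
  rintro rfl
  simp [og] at h2

theorem ogn {v : ℕ} (hv : v.Prime) (hO : Ov O v) (hB : Below e O 𝔭) {n : ℕ} (hn : ¬ v ∣ n) :
    og 𝔭 (n : L) = 0 := by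
  have n0 : n ≠ 0 := by
    rintro rfl
    exact hn (dvd_zero v)
  have h := vint hv hO (n := n) (by exact_mod_cast hn)
  have := (Link2.eq hB (a := (n : L)) (by exact_mod_cast n0) one_ne_zero).1 (by simpa using h)
  simpa [og] using this

theorem rat {l : ℕ} (hl : l.Prime) (hO : Ov O l) (hB : Below e O 𝔭) {c : ℚ} (hc : c ≠ 0) :
    og 𝔭 (l : L) ∣ og 𝔭 (c : L) := by
  have a : ∀ n : ℕ, n ≠ 0 → og 𝔭 (l : L) ∣ og 𝔭 (n : L) := fun n hn => by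
    obtain ⟨k, m, hm, rfl⟩ := Nat.exists_eq_pow_mul_and_not_dvd hn l hl.ne_one
    have m0 := right_ne_zero_of_mul hn
    have : og 𝔭 (m : L) = 0 := ogn hl hO hB hm
    rw [Nat.cast_mul, Nat.cast_pow, og, og, ord_mul (by simp [hl.ne_zero]) (by simpa using m0),
      ord_pow, ← og, ← og, this, add_zero]
    exact dvd_mul_left _ _
  have n0 := Rat.num_ne_zero.2 hc
  have b : og 𝔭 (c.num : L) = og 𝔭 (c.num.natAbs : L) := by
    rcases c.num.natAbs_eq with z | z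
    · conv_lhs => rw [z, Int.cast_natCast]
    · conv_lhs => rw [z, Int.cast_neg, Int.cast_natCast, og, ord_neg]
      rfl
  rw [Rat.cast_def, og, og, ord_div (by simpa using hc) (by simp), ← og, ← og, ← og, b]
  exact (a _ (Int.natAbs_ne_zero.2 n0)).sub (a _ c.den_nz)

theorem p1 (hV : VStmt) {v : ℕ} (hv : v.Prime) (h : (v : 𝓞 L) ∈ 𝔭.asIdeal)
    (H : ∀ O (g : G), Ov O v → Frob O 1 g → ∀ y, g (e y) = e y) : og 𝔭 (v : L) = 1 := by
  obtain ⟨O, hB⟩ := hV.1.2.1 L e 𝔭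
  have hO := ov hV hB hv.ne_zero ((mem_ab' hv.ne_zero).2 h)
  obtain ⟨π, π0, hπ⟩ := unif 𝔭
  obtain ⟨y, y0, hy⟩ := Link2.v3 (F := ℚ) (e := Rat.castHom ℂ) hV hv hO (x := e π)
    ⟨alge e π, fun σ hσ _ => H O σ hO hσ π⟩ ((map_ne_zero e).2 π0)
  have h1 := (Link2.eq hB π0 (b := (y : L)) (by simpa using y0)).1 (by simpa using hy)
  have h2 := rat hv hO hB y0
  rw [← h1, hπ] at h2
  have h3 := (og_pos_iff 𝔭 (x := (v : 𝓞 L)) (by exact_mod_cast hv.ne_zero)).2 h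
  exact Int.eq_one_of_dvd_one h3.le h2

theorem p2 (hV : VStmt) {v : ℕ} {γ : L} {s : ℂ} (hv : v.Prime) (h : (v : 𝓞 L) ∈ 𝔭.asIdeal)
    (hγ : γ ≠ 0) (hs : s ^ 2 = e γ)
    (H : ∀ O (g : G), Ov O v → Frob O 1 g → (∀ y, g (e y) = e y) → g s = s) :
    Even (og 𝔭 γ) := by
  obtain ⟨O, hB⟩ := hV.1.2.1 L e 𝔭
  have hO := ov hV hB hv.ne_zero ((mem_ab' hv.ne_zero).2 h)
  have := Link2.par hV hv hO hB hγ one_ne_zero (g := s) (γ := 1)
    ⟨alg2 hs (alge e γ), fun σ hσ h' => H O σ hO hσ h'⟩ (by rw [hs, mul_one]) (by simp)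
  simpa [og] using this

theorem two {v : ℕ} (hv : v.Prime) (h2 : v ≠ 2) (hO : Ov O v) : O.valuation 2 = 1 := by
  have := vint hv hO (n := 2) (by
    exact_mod_cast fun h : v ∣ 2 => h2 ((Nat.prime_dvd_prime_iff_eq hv Nat.prime_two).1 h))
  simpa using this

/-- An element of even valuation is a unit times a square. -/
theorem unit {α : L} (hα : α ≠ 0) (he : Even (og 𝔭 α)) :
    ∃ y : L, y ≠ 0 ∧ og 𝔭 (α / y ^ 2) = 0 := by
  obtain ⟨π, π0, hπ⟩ := unif 𝔭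
  obtain ⟨k, hk⟩ := he
  have hlk := zpow_ne_zero k π0
  refine ⟨π ^ k, hlk, ?_⟩
  rw [og, ord_div hα (pow_ne_zero 2 hlk), ord_pow, ord_zpow, ← og, ← og, hk, hπ]
  ring

theorem p3 (hV : VStmt) {v : ℕ} {g : G} {γ : L} {s : ℂ} (hv : v.Prime) (h2 : v ≠ 2) (hγ : γ ≠ 0)
    (hs : s ^ 2 = e γ) (hO : Ov O v) (hg : Frob O 1 g) (hf : ∀ y, g (e y) = e y)
    (hn : g s ≠ s) : ∃ 𝔭 : Pr L, (v : 𝓞 L) ∈ 𝔭.asIdeal ∧ Odd (og 𝔭 γ) := by
  obtain ⟨𝔭, hm, hB⟩ := hV.1.2.2.1 L e v O hv hO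
  refine ⟨𝔭, hm, Int.not_even_iff_odd.1 fun he => hn ?_⟩
  obtain ⟨y, y0, hy⟩ := unit hγ he
  have hz0 : γ / y ^ 2 ≠ 0 := div_ne_zero hγ (pow_ne_zero 2 y0)
  have h4 : (s / e y) ^ 2 = e (γ / y ^ 2) := by rw [div_pow, hs, map_div₀, map_pow]
  have h5 : O.valuation (s / e y) = 1 := sq1 (by rw [← map_pow, h4, bu hV hB hz0 hy])
  have h6 : g (s / e y) = s / e y := fixu (two hv h2 hO) h5 (by rw [← map_pow, h4, hf])
    (by simpa only [pow_one] using nu.1 (hg _ (alg2 h4 (alge e _)) (le1.2 h5.le)).2)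
  rwa [map_div₀, hf, div_left_inj' ((map_ne_zero e).2 y0)] at h6

theorem deg (hV : VStmt) {p : ℕ} {σ : G} (hp : p.Prime) (hm : (p : 𝓞 L) ∈ 𝔭.asIdeal)
    (hB : Below e O 𝔭) (hσ : Frob O p σ) (hf : ∀ y, σ (e y) = e y) : nm 𝔭 = p := by
  classical
  have hm1 : ∀ a : 𝓞 L, (a : L) ∈ pw (𝔭.valuation L) 1 ↔ Ideal.Quotient.mk 𝔭.asIdeal a = 0 :=
    fun a => by
      rw [Ideal.Quotient.eq_zero_iff_mem, ← pow_one 𝔭.asIdeal]
      exact ComplAux.int_mem_pw 𝔭 a 1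
  have := 𝔭.isMaximal
  let _ := Ideal.Quotient.field 𝔭.asIdeal
  have : Finite (𝓞 L ⧸ 𝔭.asIdeal) := Ideal.finiteQuotientOfFreeOfNeBot _ 𝔭.ne_bot
  let _ := Fintype.ofFinite (𝓞 L ⧸ 𝔭.asIdeal)
  have hN : nm 𝔭 = Fintype.card (𝓞 L ⧸ 𝔭.asIdeal) := by
    rw [← Nat.card_eq_fintype_card]
    exact Submodule.cardQuot_apply _
  have h1 : ∀ x : 𝓞 L ⧸ 𝔭.asIdeal, x = x ^ p := fun x => by
    obtain ⟨a, rfl⟩ := Ideal.Quotient.mk_surjective x
    have h2 := (hσ (e a) (alge e _) ((b0 hB _).2 (ComplAux.mem_pw_zero.2 (og_nonneg 𝔭 a)))).2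
    rw [hf, ← map_pow, ← map_sub] at h2
    have h3 := (hm1 (a - a ^ p)).1 (by
      push_cast
      exact (b1 hV hB _).1 (nu.1 h2))
    rwa [map_sub, map_pow, sub_eq_zero] at h3
  have h2 : Fintype.card (𝓞 L ⧸ 𝔭.asIdeal) - 1 ∣ p - 1 :=
    (FiniteField.forall_pow_eq_one_iff _ _).1 fun x => by
      have h3 := h1 x
      rw [← Nat.sub_add_cancel hp.one_le, pow_succ, ← Units.val_pow_eq_pow_val,
        ← Units.val_mul, Units.val_inj] at h3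
      exact mul_eq_right.1 h3.symm
  have h3 := Nat.le_of_dvd (Nat.sub_pos_of_lt hp.one_lt) h2
  have h4 : (p : 𝓞 L ⧸ 𝔭.asIdeal) = 0 := by
    rw [← map_natCast (Ideal.Quotient.mk 𝔭.asIdeal), Ideal.Quotient.eq_zero_iff_mem]
    exact hm
  have := Fact.mk hp
  have := (CharP.charP_iff_prime_eq_zero (R := 𝓞 L ⧸ 𝔭.asIdeal) hp).2 h4
  obtain ⟨n, -, hn⟩ := FiniteField.card (𝓞 L ⧸ 𝔭.asIdeal) p
  have h5 : p ≤ p ^ (n : ℕ) := Nat.le_self_pow n.ne_zero p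
  have h6 := hp.one_lt
  omega

theorem p4 (hV : VStmt) {l : ℕ} {α : L} {s : ℂ} (hl : l.Prime) (h2 : l ≠ 2) (hO : Ov O l)
    (hB : Below e O 𝔭) (hα : α ≠ 0) (hs : s ^ 2 = e α) {φ : G} (hφ : Frob O (nm 𝔭) φ)
    (hf : ∀ y, φ (e y) = e y) (he : Even (og 𝔭 α)) : φ s = s ↔ LSq 𝔭 α := by
  have ho2 : og 𝔭 (2 : L) = 0 := by
    simpa using ogn (n := 2) hl hO hB fun h =>
      h2 ((Nat.prime_dvd_prime_iff_eq hl Nat.prime_two).1 h)
  obtain ⟨π, hlk, hz1⟩ := unit hα he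
  set z := α / π ^ 2 with hz
  have hz0 : z ≠ 0 := div_ne_zero hα (pow_ne_zero 2 hlk)
  have hz2 : z ∈ pw (𝔭.valuation L) 0 := ComplAux.mem_pw_zero.2 hz1.ge
  have hz3 : z ∉ pw (𝔭.valuation L) 1 := LocAux.not_mem.2 ⟨hz0, by rw [← og, hz1]; exact one_pos⟩
  set t := s / e π with ht
  have h4 : t ^ 2 = e z := by rw [ht, hz, div_pow, hs, map_div₀, map_pow]
  have h5 : O.valuation t = 1 := sq1 (by rw [← map_pow, h4, bu hV hB hz0 hz1])
  have h6 : φ s = s ↔ φ t = t := by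
    rw [ht, map_div₀, hf, div_left_inj' ((map_ne_zero e).2 hlk)]
  have h7 : LSq 𝔭 α ↔ LSq 𝔭 z := by
    have h8 : α = z * π ^ 2 := (div_mul_cancel₀ _ (pow_ne_zero 2 hlk)).symm
    refine ⟨fun h => ?_, fun h => ?_⟩
    · rw [LSq, hz, map_div₀, map_pow]
      exact h.div (IsSquare.sq _)
    · rw [LSq, h8, map_mul, map_pow]
      exact h.mul (IsSquare.sq _)
  have hat := alg2 h4 (alge e z)
  obtain ⟨hodd, hE⟩ := (resid 𝔭 hz2).2 ho2
  rw [h6, h7]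
  refine ⟨fun h => ?_, fun h => ?_⟩
  · have h8 := nu.1 (hφ t hat (le1.2 h5.le)).2
    have h9 : t - t ^ nm 𝔭 = -(t * e (z ^ (nm 𝔭 / 2) - 1)) := by
      rw [map_sub, map_pow, ← h4, ← pow_mul, map_one]
      conv_lhs => rw [← Nat.two_mul_div_two_add_one_of_odd hodd]
      ring
    rw [h, h9, Valuation.map_neg, map_mul, h5, one_mul] at h8
    obtain ⟨y, hy⟩ := hE ((b1 hV hB _).1 h8) hz3
    have h10 := LocAux.add_high (w := 𝔭.valuation L) hz0 (y := -(z - y ^ 2))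
      (neg_mem (by rwa [← og, hz1]))
    rw [show z + -(z - y ^ 2) = y ^ 2 by ring, show ord _ z = 0 from hz1] at h10
    have h12 := LocAux.hens (isLoc_wv 𝔭) (x := emb 𝔭 (z / y ^ 2)) (by
      rw [← map_ofNat (emb 𝔭) 2, ord_emb, ho2, ← map_one (emb 𝔭), ← map_sub,
        ComplAux.emb_mem_pw, div_sub_one h10.1]
      exact LocAux.pw_div hy (by rw [h10.2]; norm_num))
    rw [LSq, ← div_mul_cancel₀ z h10.1, map_mul, map_pow]
    exact h12.mul (IsSquare.sq _)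
  · obtain ⟨r, hr⟩ := h
    obtain ⟨y, hy⟩ := exists_approx 𝔭 r 1
    have hr0 : r ≠ 0 := by rintro rfl; exact (map_ne_zero (emb 𝔭)).2 hz0 (by simpa using hr)
    have hr1 : r ∈ pw (wv 𝔭) 0 := ComplAux.mem_pw_zero.2 (by
      have := ord_emb 𝔭 z
      rw [hr, ord_mul hr0 hr0, hz1] at this
      omega)
    have h8 : y ^ 2 - z ∈ pw (𝔭.valuation L) 1 := by
      rw [← ComplAux.emb_mem_pw, map_sub, map_pow, hr,
        show emb 𝔭 y ^ 2 - r * r = (emb 𝔭 y - r) * (emb 𝔭 y - r + r + r) by ring]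
      exact LocAux.pw_mul hy (add_mem (add_mem (LocAux.anti zero_le_one hy) hr1) hr1) le_rfl
    have h9 := (b1 hV hB _).2 h8
    have key : ∀ y : L, O.valuation (t - e y) < 1 → φ t = t := fun y h => by
      have hN : nm 𝔭 ≠ 0 := by rintro h; rw [h] at hodd; exact absurd hodd (by decide)
      have h10 := nu.1 ((hV.2.1.2.1 O _ φ _ hφ hN (hat.sub (alge e y))).2.2 (nu.2 h))
      rw [map_sub, hf] at h10
      refine fixu (two hl h2 hO) h5 (by rw [← map_pow, h4, hf]) ?_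
      simpa using Valuation.map_sub_lt _ h10 h
    rw [map_sub, map_pow, ← h4, show e y ^ 2 - t ^ 2 = -((t - e y) * (t - e (-y))) by
      rw [map_neg]; ring, Valuation.map_neg, map_mul] at h9
    by_contra h10
    exact h9.not_ge (one_le_mul (not_lt.1 (mt (key y) h10)) (not_lt.1 (mt (key _) h10)))

end Dict

open Dict in
theorem dict_thm (hV : VStmt) : DictStmt := fun N _ _ e =>
  ⟨fun _ _ hv h H => p1 hV hv h H, fun _ _ _ _ hv h hγ hs H => p2 hV hv h hγ hs H,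
    fun _ _ _ _ _ hv h2 hγ hs hO hg hf hn => p3 hV hv h2 hγ hs hO hg hf hn,
    fun p O _ hp h2 hO hσ hf => by
      obtain ⟨𝔭, hm, hB⟩ := hV.1.2.2.1 N e p O hp hO
      have h := deg hV hp hm hB hσ hf
      exact ⟨𝔭, h, fun _ _ hγ hs he => p4 hV hp h2 hO hB hγ hs (h.symm ▸ hσ) hf he⟩⟩

end Pool.Agent.Lib.MP_d6ddbd_nt.GG
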