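import Pool.Agent.Lib.MP_d6ddbd_nt.GG.St
import Pool.Agent.Lib.MP_d6ddbd_nt.K11.Stmt
import Pool.Agent.Lib.MP_ca56d1_nt.Compl

/-! The discriminant of a number field that is unramified outside `M`. -/

set_option autoImplicit false

open NumberField Finset
open Pool.Agent.Stark (Pr og)
open Pool.Agent.Lib.MP_d6ddbd_nt.K11

noncomputable section

namespace Pool.Agent.Lib.MP_d6ddbd_nt.GG

namespace Disc

variable {N : Type} [Field N] [NumberField N] {p : ℕ} {O : ValuationSubring ℂ}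

theorem int_le (O : ValuationSubring ℂ) (φ : N →ₐ[ℚ] ℂ) (x : 𝓞 N) : O.valuation (φ x) ≤ 1 := by
  have h : IsIntegral ℤ (φ (x : N)) := x.isIntegral_coe.map (φ.toRingHom.toIntAlgHom)
  exact (Valuation.valuationSubring.integers O.valuation).mem_of_integral h.tower_top

theorem cast_le (O : ValuationSubring ℂ) (m : ℤ) : O.valuation (m : ℂ) ≤ 1 :=
  (O.valuation_le_one_iff _).2 (intCast_mem O m)

theorem unit (hp : p.Prime) (h : O.valuation (p : ℂ) < 1) {m : ℕ} (hm : ¬ p ∣ m) :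
    O.valuation (m : ℂ) = 1 := by
  obtain ⟨a, b, e⟩ := Nat.isCoprime_iff_coprime.2 ((Nat.Prime.coprime_iff_not_dvd hp).2 hm)
  have e' : (a : ℂ) * p + b * m = 1 := by exact_mod_cast e
  refine le_antisymm (by simp) (not_lt.1 fun h' => ?_)
  have := O.valuation.map_add_lt (x := a * p) (y := b * m) (g := 1)
    (by rw [map_mul]; exact (mul_le_of_le_one_left' (cast_le O a)).trans_lt h)
    (by rw [map_mul]; exact (mul_le_of_le_one_left' (cast_le O b)).trans_lt h')
  rw [e', map_one] at this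
  exact lt_irrefl _ this

theorem small (hp : p.Prime) (h : O.valuation (p : ℂ) < 1) {r n : ℕ} (h0 : r ≠ 0) (hr : r ≤ n) :
    O.valuation (p : ℂ) ^ n < O.valuation (r : ℂ) := by
  obtain ⟨j, m, hm, rfl⟩ := Nat.exists_eq_pow_mul_and_not_dvd h0 p hp.ne_one
  have h1 : j < n := (Nat.lt_pow_self hp.one_lt).trans_le
    ((Nat.le_mul_of_pos_right _ (Nat.pos_of_ne_zero fun q => hm (by simp [q]))).trans hr)
  rw [Nat.cast_mul, Nat.cast_pow, map_mul, map_pow, unit hp h hm, mul_one]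
  exact pow_lt_pow_right_of_lt_one₀
    (zero_lt_iff.2 ((map_ne_zero _).2 (Nat.cast_ne_zero.2 hp.ne_zero))) h h1

theorem dvd_norm (hp : p.Prime) {P : Ideal (𝓞 N)} (hP : P ≠ ⊤) (h : (p : 𝓞 N) ∈ P) {y : 𝓞 N}
    (hy : y ∈ P) : (p : ℤ) ∣ Algebra.norm ℤ y := by
  refine Dvd.dvd.trans (Int.natCast_dvd_natCast.2 ?_) (Ideal.absNorm_dvd_norm_of_mem hy)
  have h1 := Ideal.absNorm_dvd_absNorm_of_le ((Ideal.span_singleton_le_iff_mem _).2 h)
  rw [Ideal.absNorm_span_natCast] at h1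
  obtain ⟨k, -, hk⟩ := (Nat.dvd_prime_pow hp).1 h1
  rw [hk]
  refine dvd_pow_self _ fun q => hP (Ideal.absNorm_eq_one_iff.1 ?_)
  rw [hk, q, pow_zero]

theorem trace (hV : V1Stmt) (hp : p.Prime) {P : Ideal (𝓞 N)} (hP : P ≠ ⊤) (h : (p : 𝓞 N) ∈ P)
    {x z : 𝓞 N} (hx : 1 - x ∈ P) (hz : x * (1 - x) = (p : 𝓞 N) ^ Module.finrank ℚ N * z) :
    ¬ (p : ℤ) ^ Module.finrank ℚ N ∣ Algebra.intTrace ℤ (𝓞 N) x := by
  classical
  rintro ⟨t, ht⟩
  obtain ⟨O, hO⟩ := hV.1 p hp
  have hO' : O.valuation (p : ℂ) < 1 := (O.mem_nonunits_iff).1 hO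
  set n := Module.finrank ℚ N with hn
  have h1 : ∀ φ : N →ₐ[ℚ] ℂ,
      O.valuation (φ x) * O.valuation (1 - φ x) ≤ O.valuation (p : ℂ) ^ n := fun φ => by
    have e : φ x * (1 - φ x) = (p : ℂ) ^ n * φ z := by
      simpa using congrArg (fun y : 𝓞 N => φ (y : N)) hz
    rw [← map_mul, e, map_mul, map_pow]
    exact mul_le_of_le_one_right' (int_le O φ z)
  set s := univ.filter fun φ : N →ₐ[ℚ] ℂ => O.valuation (φ x) = 1 with hs
  have h2 : ∀ φ ∉ s, O.valuation (1 - φ x) = 1 := fun φ q =>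
    O.valuation.map_one_sub_of_lt (lt_of_le_of_ne (int_le O φ x) (by simpa [hs] using q))
  have h3 : s.card ≠ 0 := fun q => by
    obtain ⟨w, hw⟩ := dvd_norm hp hP h hx
    have e := Algebra.norm_eq_prod_embeddings ℚ ℂ ((1 - x : 𝓞 N) : N)
    rw [← Algebra.coe_norm_int, hw] at e
    have e2 := congrArg O.valuation e
    rw [map_prod, Finset.prod_eq_one fun φ _ => by
      simpa using h2 φ (by simp [Finset.card_eq_zero.1 q])] at e2
    simp only [Int.cast_mul, Int.cast_natCast, map_mul, map_natCast, map_intCast] at e2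
    exact (mul_lt_one_of_lt_of_le hO' (cast_le O w)).ne e2
  have h4 : s.card ≤ n := (Finset.card_le_univ s).trans_eq (AlgHom.card ℚ N ℂ)
  have h5 : (s.card : ℂ) = (p : ℂ) ^ n * t + ∑ φ : N →ₐ[ℚ] ℂ, ((if φ ∈ s then 1 else 0) - φ x) := by
    have e := trace_eq_sum_embeddings (K := ℚ) ℂ (x := (x : N))
    rw [← Algebra.algebraMap_intTrace (A := ℤ) (K := ℚ) (L := N) x, ht] at e
    simp only [eq_intCast, map_mul, map_pow, map_natCast, map_intCast] at e
    rw [Finset.sum_sub_distrib, ← e]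
    simp
  refine (small hp hO' h3 h4).not_ge ?_
  rw [h5]
  refine O.valuation.map_add_le ?_ (O.valuation.map_sum_le fun φ _ => ?_)
  · rw [map_mul, map_pow]
    exact mul_le_of_le_one_right' (cast_le O t)
  · have := h1 φ
    split_ifs with q
    · rwa [(Finset.mem_filter.1 q).2, one_mul] at this
    · rwa [h2 φ q, mul_one, ← O.valuation.map_neg, ← zero_sub] at this

theorem split {I P : Ideal (𝓞 N)} [P.IsMaximal] (hI : I ≠ ⊥) (h : I ≤ P) :
    ∃ (k : ℕ) (Q : Ideal (𝓞 N)), IsCoprime P Q ∧ P ^ (k + 1) * Q = I := by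
  classical
  obtain ⟨Q, h1, h2⟩ := Ideal.eq_prime_pow_mul_coprime hI P
  generalize Multiset.count P _ = k at h2
  rcases k with _ | k
  · rw [pow_zero, one_mul] at h2
    exact absurd ((sup_eq_left.2 (h2 ▸ h)).symm.trans h1) (Ideal.IsMaximal.ne_top ‹_›)
  · exact ⟨k, Q, Ideal.isCoprime_iff_sup_eq.2 h1, h2.symm⟩

end Disc

open Disc

theorem disc_thm (hV : V1Stmt) : DiscStmt := by
  intro N _ _ M hM hu
  let _ : Algebra (FractionRing ℤ) (FractionRing (𝓞 N)) := FractionRing.liftAlgebra _ _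
  have key : differentIdeal ℤ (𝓞 N) ∣ Ideal.span {((M ^ Module.finrank ℚ N : ℕ) : 𝓞 N)} := by
    refine (UniqueFactorizationMonoid.dvd_iff_emultiplicity_le differentIdeal_ne_bot).2
      fun P hP => emultiplicity_le_emultiplicity_iff.2 fun j hj => ?_
    have h0 : P ≠ ⊥ := hP.ne_zero
    have := Ideal.isPrime_of_prime hP
    have hm : P.IsMaximal := this.isMaximal h0
    have := Ideal.finiteQuotientOfFreeOfNeBot P h0
    obtain ⟨p, hp, hpP⟩ : ∃ p : ℕ, p.Prime ∧ (p : 𝓞 N) ∈ P :=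
      ⟨ringChar (𝓞 N ⧸ P), CharP.char_is_prime (𝓞 N ⧸ P) _,
        Ideal.Quotient.eq_zero_iff_mem.1 (by rw [map_natCast, ringChar.Nat.cast_ringChar])⟩
    have p0 : (p : 𝓞 N) ≠ 0 := Nat.cast_ne_zero.2 hp.ne_zero
    by_cases hd : p ∣ M
    · obtain ⟨k, Q, h1, h2⟩ := split (P := P)
        (I := Ideal.span {(p : 𝓞 N) ^ Module.finrank ℚ N})
        (by simpa using fun q => absurd q hp.ne_zero)
        ((Ideal.span_singleton_le_iff_mem _).2 (P.pow_mem_of_mem hpP _ Module.finrank_pos))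
      obtain ⟨y, hy, x, hx, e⟩ := Ideal.isCoprime_iff_exists.1 (h1.pow_left (m := k + 1))
      have hy' : 1 - x ∈ P ^ (k + 1) := by rwa [← e, add_sub_cancel_right]
      obtain ⟨z, hz⟩ := Ideal.mem_span_singleton.1
        (h2 ▸ Ideal.mul_mem_mul hy' hx : (1 - x) * x ∈ Ideal.span {_})
      have h3 := not_dvd_differentIdeal_of_intTrace_not_mem ℤ
        (p := Ideal.span {(p : ℤ) ^ Module.finrank ℚ N}) (P ^ (k + 1)) Q
        (by rw [h2, Ideal.map_span]; simp) x hx fun q => trace hV hp hm.ne_top hpP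
          (Ideal.pow_le_self k.succ_ne_zero hy') ((mul_comm _ _).trans hz)
          (Ideal.mem_span_singleton.1 q)
      refine (pow_dvd_pow P (not_lt.1 fun q => h3 ((pow_dvd_pow P q.le).trans hj))).trans
        ((Dvd.intro Q h2).trans (Ideal.dvd_iff_le.2
          (Ideal.span_singleton_le_span_singleton.2 ?_)))
      rw [Nat.cast_pow]
      exact pow_dvd_pow_of_dvd (Nat.cast_dvd_cast hd) _
    · obtain ⟨k, Q, h1, h2⟩ := split (P := P) (I := Ideal.span {(p : 𝓞 N)}) (by simpa using p0)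
        ((Ideal.span_singleton_le_iff_mem _).2 hpP)
      have h6 : (p : 𝓞 N) ∈ P ^ (k + 1) := by
        refine (Ideal.mul_le_left : P ^ (k + 1) * Q ≤ _) ?_
        rw [h2]
        exact Ideal.mem_span_singleton_self _
      have h3 := (Pool.Agent.Stark.le_og_iff ⟨P, hm.isPrime, h0⟩ p0 (k + 1)).2 h6
      have h4 := hu p ⟨P, hm.isPrime, h0⟩ hp hd hpP
      rw [show ((p : 𝓞 N) : N) = p from map_natCast _ p, h4] at h3
      obtain rfl : k = 0 := by omega
      rw [zero_add, pow_one] at h2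
      have hz : Prime (p : ℤ) := Nat.prime_iff_prime_int.1 hp
      have : (Ideal.span {(p : ℤ)}).IsMaximal :=
        ((Ideal.span_singleton_prime hz.ne_zero).2 hz).isMaximal (by simpa using hp.ne_zero)
      have := Ideal.finiteQuotientOfFreeOfNeBot (Ideal.span {(p : ℤ)}) (by simpa using hp.ne_zero)
      have h5 := not_dvd_differentIdeal_of_isCoprime ℤ (p := Ideal.span {(p : ℤ)}) P Q h1
        (by rw [h2, Ideal.map_span]; simp)
      rcases j with _ | j
      · rw [pow_zero]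
        exact one_dvd _
      · exact absurd ((dvd_pow_self P j.succ_ne_zero).trans hj) h5
  have h1 := Ideal.absNorm_dvd_absNorm_of_le (Ideal.dvd_iff_le.1 key)
  rw [absNorm_differentIdeal N, Ideal.absNorm_span_natCast, RingOfIntegers.rank, ← pow_mul,
    ← sq] at h1
  exact Nat.le_of_dvd (pow_pos (Nat.pos_of_ne_zero hM) _) h1

end Pool.Agent.Lib.MP_d6ddbd_nt.GG
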