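import Pool.Agent.Lib.MP_d6ddbd_nt.GG.St

/-!
Every nonzero ideal has an element of the given progression in a box of controlled size.
-/

set_option autoImplicit false

open NumberField Finset

noncomputable section

namespace Pool.Agent.Lib.MP_d6ddbd_nt.GG

namespace El

variable {N : Type} [Field N] [NumberField N] {n W f : ℕ} {ω : Fin n → 𝓞 N}

/-- A small nonzero element of an ideal. -/
lemma small (ω : Fin n → 𝓞 N) {𝔞 : Ideal (𝓞 N)} (h0 : 𝔞 ≠ ⊥) {T : ℕ}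
    (hT : Ideal.absNorm 𝔞 < (T + 1) ^ n) :
    ∃ b : Fin n → ℤ, b ≠ 0 ∧ (∀ i, |b i| ≤ T) ∧ ∑ i, (b i : 𝓞 N) * ω i ∈ 𝔞 := by
  classical
  have : Finite (𝓞 N ⧸ 𝔞) := Ideal.finiteQuotientOfFreeOfNeBot 𝔞 h0
  have := Fintype.ofFinite (𝓞 N ⧸ 𝔞)
  have hc : (univ : Finset (𝓞 N ⧸ 𝔞)).card < (box n (T + 1)).card := by
    rw [card_univ, ← Nat.card_eq_fintype_card, ← Submodule.cardQuot_apply, ← Ideal.absNorm_apply]
    simpa [box] using hT
  obtain ⟨s, hs, s', hs', hne, he⟩ := exists_ne_map_eq_of_card_lt_of_maps_to hc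
    (f := fun s => Ideal.Quotient.mk 𝔞 (∑ i, (s i : 𝓞 N) * ω i)) fun _ _ => mem_univ _
  refine ⟨fun i => (s i : ℤ) - s' i, fun h => hne (funext fun i => ?_), fun i => ?_, ?_⟩
  · have := congrFun h i
    simp only [Pi.zero_apply] at this
    omega
  · have h1 := mem_range.1 (Fintype.mem_piFinset.1 hs i)
    have h2 := mem_range.1 (Fintype.mem_piFinset.1 hs' i)
    simp only [abs_le]
    omega
  · have := Ideal.Quotient.eq.1 he
    simpa [sub_mul, sum_sub_distrib] using this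

/-- The matrix of the multiplication by a small element. -/
lemma mat (hO : Od N n W f ω) {T : ℕ} {b : Fin n → ℤ} (hb : ∀ i, |b i| ≤ T) :
    ∃ v : Fin n → Fin n → ℤ, (∀ k j, |v k j| ≤ n * T * W) ∧
      ∀ k, (∑ i, (b i : 𝓞 N) * ω i) * ω k = ∑ j, (v k j : 𝓞 N) * ω j := by
  choose c hc he using hO.mul
  refine ⟨fun k j => ∑ i, b i * c i k j, fun k j => ?_, fun k => ?_⟩
  · refine (abs_sum_le_sum_abs _ _).trans ((sum_le_sum (g := fun _ => (T : ℤ) * W)
      fun i _ => ?_).trans (le_of_eq ?_))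
    · rw [abs_mul]
      exact mul_le_mul (hb i) (hc i k j) (abs_nonneg _) (by positivity)
    · simp [mul_assoc]
  · simp only [sum_mul, mul_assoc, he, mul_sum, Int.cast_sum, Int.cast_mul]
    exact sum_comm

end El

open El in
theorem el_thm : ElStmt := by
  intro N _ _ n W f ω 𝔞 T H K h hO h0 hT hc hH
  obtain ⟨b, hb0, hb, hba⟩ := small ω h0 hT
  obtain ⟨v, hv, he⟩ := mat hO hb
  set β := ∑ i, (b i : 𝓞 N) * ω i with hβ
  have hβ0 : β ≠ 0 := fun h => hb0 (hO.ind b h)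
  obtain ⟨a, ha, r, hr, har⟩ := Submodule.mem_sup.1
    ((Ideal.isCoprime_iff_sup_eq.1 hc).ge (Submodule.mem_top (x := (1 : 𝓞 N))))
  obtain ⟨r, rfl⟩ := Ideal.mem_span_singleton'.1 hr
  obtain ⟨t₀, ht₀⟩ := hO.den (-(h * r))
  have h1 : h + K * ∑ i, (t₀ i : 𝓞 N) * ω i ∈ 𝔞 := by
    have : h + K * ∑ i, (t₀ i : 𝓞 N) * ω i = h * a := by
      rw [← ht₀]
      push_cast at har
      linear_combination (-h) * har
    rw [this]
    exact 𝔞.mul_mem_left _ ha
  obtain ⟨μ, hμ, β', hβ'⟩ : ∃ μ : ℕ, 0 < μ ∧ ∃ β' : 𝓞 N, β' * β = μ :=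
    ⟨_, Nat.pos_of_ne_zero (Ideal.absNorm_eq_zero_iff.not.2
      (Ideal.span_singleton_eq_bot.not.2 hβ0)),
      Ideal.mem_span_singleton'.1 (Ideal.absNorm_mem (Ideal.span {β}))⟩
  set z : ℤ := n * (n * T * W) with hz
  obtain ⟨c, hcx⟩ := hO.den (β' * ∑ i, ((t₀ i - z : ℤ) : 𝓞 N) * ω i)
  set m : ℤ := μ * f with hm
  have hm0 : 0 < m := by have := hO.pos; positivity
  have h2 : ∀ j, m * (t₀ j - z) = ∑ k, c k * v k j := fun j => by
    have := hO.ind (fun j => m * (t₀ j - z) - ∑ k, c k * v k j) (by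
      have e1 : ∑ j, ((∑ k, c k * v k j : ℤ) : 𝓞 N) * ω j = β * ∑ k, (c k : 𝓞 N) * ω k := by
        simp only [Int.cast_sum, Int.cast_mul, sum_mul, mul_sum, mul_left_comm β, he, mul_assoc]
        exact sum_comm
      have e2 : ∑ j, ((m * (t₀ j - z) : ℤ) : 𝓞 N) * ω j =
          (μ : 𝓞 N) * f * ∑ i, ((t₀ i - z : ℤ) : 𝓞 N) * ω i := by
        simp only [hm, Int.cast_mul, Int.cast_natCast, mul_sum, mul_assoc]
      simp only [Int.cast_sub (m * _), sub_mul, sum_sub_distrib]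
      rw [e1, e2, ← hcx, ← hβ']
      ring)
    exact sub_eq_zero.1 (congrFun this j)
  have h3 : ∀ j, |t₀ j - ∑ k, c k / m * v k j - z| ≤ z := fun j => by
    have e : m * (t₀ j - ∑ k, c k / m * v k j - z) = ∑ k, c k % m * v k j := by
      rw [sub_right_comm, mul_sub, h2, mul_sum, ← sum_sub_distrib]
      exact sum_congr rfl fun k _ => by rw [Int.emod_def]; ring
    refine le_of_mul_le_mul_left ?_ hm0
    have e' : ∀ x : ℤ, m * |x| = |m * x| := fun x => by rw [abs_mul, abs_of_pos hm0]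
    rw [e', e]
    refine (abs_sum_le_sum_abs _ _).trans ((sum_le_sum (g := fun _ => m * (n * T * W))
      fun k _ => ?_).trans (le_of_eq ?_))
    · rw [abs_mul, abs_of_nonneg (Int.emod_nonneg _ hm0.ne')]
      exact mul_le_mul (Int.emod_lt_of_pos _ hm0).le (hv k j) (abs_nonneg _) hm0.le
    · simp only [sum_const, card_univ, Fintype.card_fin, nsmul_eq_mul, hz]
      ring
  have hH' : 2 * z < H := by
    have : ((2 * n ^ 2 * T * W : ℕ) : ℤ) < H := by exact_mod_cast hH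
    push_cast at this
    rw [hz]
    linarith
  have h4 : ∀ j, 0 ≤ t₀ j - ∑ k, c k / m * v k j := fun j => by
    have := abs_le.1 (h3 j)
    linarith
  refine ⟨fun j => (t₀ j - ∑ k, c k / m * v k j).toNat, Fintype.mem_piFinset.2 fun j => ?_, ?_⟩
  · have := abs_le.1 (h3 j)
    have := h4 j
    rw [mem_range]
    omega
  · have e1 : ∀ j, (((t₀ j - ∑ k, c k / m * v k j).toNat : ℕ) : 𝓞 N) =
        (t₀ j : 𝓞 N) - ∑ k, ((c k / m : ℤ) : 𝓞 N) * v k j := fun j => by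
      rw [← Int.cast_natCast, Int.toNat_of_nonneg (h4 j)]
      simp only [Int.cast_sub, Int.cast_sum, Int.cast_mul]
    have e2 : ∑ j, (∑ k, ((c k / m : ℤ) : 𝓞 N) * v k j) * ω j =
        β * ∑ k, ((c k / m : ℤ) : 𝓞 N) * ω k := by
      simp only [sum_mul, mul_sum, mul_left_comm β, he, mul_assoc]
      exact sum_comm
    simp only [e1, sub_mul, sum_sub_distrib, e2, mul_sub, ← add_sub_assoc]
    exact 𝔞.sub_mem h1 (𝔞.mul_mem_left _ (𝔞.mul_mem_right _ hba))

end Pool.Agent.Lib.MP_d6ddbd_nt.GG
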