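import Pool.Agent.Lib.MP_d6ddbd_nt.GG.St
import Pool.Agent.Lib.MP_d6ddbd_nt.K11.V4

/-!
The fixed field of an open subgroup.
-/

set_option autoImplicit false

open Pool.Agent.Lib.MP_d6ddbd_nt.K11 Pool.Agent.Lib.MP_d6ddbd_nt.KI

namespace Pool.Agent.Lib.MP_d6ddbd_nt.GG

theorem fix_thm (hV : VStmt) : FixStmt := by
  rintro U ⟨J, hJ, hU⟩
  obtain ⟨K, _, _, _, j, hj⟩ := MP_9177b7_ag.CM.Frob.exists_field J J.finite_toSet hJ
  choose r₀ hr using V4.res j
  let r : G →* (K ≃ₐ[ℚ] K) := MonoidHom.mk' r₀ fun σ τ => AlgEquiv.ext fun y => j.injective (by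
    rw [AlgEquiv.mul_apply, hr, hr, hr]; rfl)
  have hs : Function.Surjective r := fun τ => by
    obtain ⟨σ, hσ⟩ := hV.2.2.2.2.2.2.1 K j (j.comp τ.toRingEquiv.toRingHom)
    exact ⟨σ, AlgEquiv.ext fun y => j.injective ((hr σ y).trans (hσ y))⟩
  have hk : r.ker ≤ U := fun σ h => hU σ fun x hx => by
    obtain ⟨y, rfl⟩ := hj x hx
    rw [← hr, show r₀ σ = 1 from h]
    rfl
  have hc := Subgroup.comap_map_eq_self hk
  let N := IntermediateField.fixedField (U.map r)
  have hf : N.fixingSubgroup = U.map r := IntermediateField.fixingSubgroup_fixedField _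
  refine ⟨N, inferInstance, inferInstance, j.comp N.val.toRingHom, ?_, fun σ => ?_⟩
  · rw [IntermediateField.finrank_eq_fixingSubgroup_index, hf,
      ← Subgroup.index_comap_of_surjective _ hs, hc]
  · rw [← hc, Subgroup.mem_comap, ← hf, IntermediateField.mem_fixingSubgroup_iff]
    exact ⟨fun h y => (hr σ y).symm.trans (congrArg j (h y y.2)),
      fun h y hy => j.injective ((hr σ y).trans (h ⟨y, hy⟩))⟩

end Pool.Agent.Lib.MP_d6ddbd_nt.GG
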