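import Pool.Agent.Lib.MP_d6ddbd_nt.GG.St

/-!
The power mean inequality, used twice, and a crude count of ideals.
-/

set_option autoImplicit false

open NumberField Finset

noncomputable section

namespace Pool.Agent.Lib.MP_d6ddbd_nt.GG

namespace Hold

lemma pm {ι : Type} (s : Finset ι) (f : ι → ℝ) {k : ℕ} (hk : 0 < k) :
    (∑ i ∈ s, |f i|) ^ k ≤ (s.card : ℝ) ^ (k - 1) * ∑ i ∈ s, |f i| ^ k := by
  obtain ⟨k, rfl⟩ : ∃ j, k = j + 1 := ⟨k - 1, by omega⟩
  exact pow_sum_le_card_mul_sum_pow (fun i _ => abs_nonneg (f i)) k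

lemma one (N : Type) [Field N] [NumberField N] {r : ℕ} (hr : r ≠ 0) :
    ∃ s : Finset (Ideal (𝓞 N)), s.card ≤ r ^ Module.finrank ℚ N ∧
      ∀ 𝔠 : Ideal (𝓞 N), (r : 𝓞 N) ∈ 𝔠 → 𝔠 ∈ s := by
  classical
  have h0 : (r : 𝓞 N) ≠ 0 := Nat.cast_ne_zero.2 hr
  have := (Ideal.span {(r : 𝓞 N)}).finiteQuotientOfFreeOfNeBot (by simpa using hr)
  have := Fintype.ofFinite (𝓞 N ⧸ Ideal.span {(r : 𝓞 N)})
  refine ⟨univ.image fun q : 𝓞 N ⧸ Ideal.span {(r : 𝓞 N)} =>
    (Ideal.span {q}).comap (Ideal.Quotient.mk _), card_image_le.trans (le_of_eq ?_),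
    fun 𝔠 h => ?_⟩
  · rw [card_univ, ← Nat.card_eq_fintype_card, ← RingOfIntegers.rank,
      ← Ideal.absNorm_span_natCast, Ideal.absNorm_apply, Submodule.cardQuot_apply]
  · obtain ⟨y, rfl⟩ := IsDedekindDomain.exists_eq_span_pair h h0
    refine mem_image.2 ⟨Ideal.Quotient.mk _ y, mem_univ _, ?_⟩
    rw [← Set.image_singleton (a := y), ← Ideal.map_span,
      Ideal.comap_map_of_surjective _ Ideal.Quotient.mk_surjective, ← RingHom.ker_eq_comap_bot,
      Ideal.mk_ker, Ideal.span_insert, sup_comm]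

end Hold

theorem hold_thm : HoldStmt := by
  intro a m J P θ β B ha hm hβ hB
  let x : ℕ → ℝ := fun l => ∑ p ∈ P, β p * θ l p
  let b : ℕ → ℝ := fun l => if 0 ≤ x l ^ a then 1 else -1
  let T := Fintype.piFinset fun _ : Fin a => P
  let y : (Fin a → ℕ) → ℝ := fun τ => ∑ l ∈ J, b l * ∏ i, θ l (τ i)
  have hb : ∀ l, |b l| ≤ 1 := fun l => by
    simp only [b]
    split_ifs <;> simp
  have h1 : ∀ l, |x l| ^ a = b l * x l ^ a := fun l => by
    rw [← abs_pow]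
    simp only [b]
    split_ifs with h
    · rw [abs_of_nonneg h, one_mul]
    · rw [abs_of_neg (not_le.1 h), neg_one_mul]
  have h2 : ∑ l ∈ J, |x l| ^ a ≤ ∑ τ ∈ T, |y τ| := by
    calc _ = ∑ l ∈ J, ∑ τ ∈ T, (∏ i, β (τ i)) * (b l * ∏ i, θ l (τ i)) := by
          refine sum_congr rfl fun l _ => ?_
          rw [h1, sum_pow', mul_sum]
          exact sum_congr rfl fun τ _ => by rw [prod_mul_distrib, mul_left_comm]
      _ = ∑ τ ∈ T, (∏ i, β (τ i)) * y τ := by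
          rw [sum_comm]
          exact sum_congr rfl fun τ _ => (mul_sum _ _ _).symm
      _ ≤ _ := by
          refine sum_le_sum fun τ hτ => (le_abs_self _).trans ?_
          rw [abs_mul, abs_prod]
          exact mul_le_of_le_one_left (abs_nonneg _) (prod_le_one (fun _ _ => abs_nonneg _)
            fun i _ => hβ _ (Fintype.mem_piFinset.1 hτ i))
  have h3 : (∑ τ ∈ T, |y τ|) ^ (2 * m) ≤ (P.card : ℝ) ^ (a * (2 * m - 1)) * B := by
    refine (Hold.pm T y (by omega)).trans ?_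
    rw [Fintype.card_piFinset_const, Nat.cast_pow, ← pow_mul]
    refine mul_le_mul_of_nonneg_left (le_trans (le_of_eq ?_) (hB b hb)) (by positivity)
    exact sum_congr rfl fun τ _ => (even_two_mul m).pow_abs _
  calc _ = ((∑ l ∈ J, |x l|) ^ a) ^ (2 * m) := by rw [← pow_mul, mul_comm a]
    _ ≤ ((J.card : ℝ) ^ (a - 1) * ∑ τ ∈ T, |y τ|) ^ (2 * m) :=
        pow_le_pow_left₀ (by positivity)
          ((Hold.pm J x ha).trans (mul_le_mul_of_nonneg_left h2 (by positivity))) _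
    _ = (J.card : ℝ) ^ (2 * m * (a - 1)) * (∑ τ ∈ T, |y τ|) ^ (2 * m) := by
        rw [mul_pow, ← pow_mul, mul_comm (a - 1)]
    _ ≤ _ := by
        rw [mul_assoc _ _ B]
        exact mul_le_mul_of_nonneg_left h3 (by positivity)

theorem id_thm : IdStmt := by
  classical
  intro N _ _ R
  choose! s hs using fun r (hr : r ≠ 0) => Hold.one N hr
  refine ⟨(Icc 1 R).biUnion s, card_biUnion_le.trans ?_, fun 𝔠 h0 h1 => ?_⟩
  · refine (sum_le_card_nsmul _ _ (R ^ Module.finrank ℚ N) fun r hr => ?_).trans (le_of_eq ?_)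
    · have := mem_Icc.1 hr
      exact (hs r (by omega)).1.trans (Nat.pow_le_pow_left this.2 _)
    · rw [Nat.card_Icc, smul_eq_mul, pow_succ', Nat.add_sub_cancel]
  · have h2 : Ideal.absNorm 𝔠 ≠ 0 := fun h => h0 (Ideal.absNorm_eq_zero_iff.1 h)
    exact mem_biUnion.2 ⟨_, mem_Icc.2 ⟨Nat.one_le_iff_ne_zero.2 h2, h1⟩,
      (hs _ h2).2 𝔠 𝔠.absNorm_mem⟩

end Pool.Agent.Lib.MP_d6ddbd_nt.GG
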