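import Pool.Agent.Lib.MP_d6ddbd_nt.GG.St

/-! The large sieve inequality over a number field. -/

set_option autoImplicit false

open NumberField Finset
open Pool.Agent.Stark (Pr og hq LSq)
open Pool.Agent.Lib.MP_d6ddbd_nt.K11 Pool.Agent.Lib.MP_d6ddbd_nt.KI

namespace Pool.Agent.Lib.MP_d6ddbd_nt.GG

namespace Ls

theorem logs {Q y Y : ℝ} (hQ : 1 ≤ Q) (hy : 2 ≤ y) (hY : 2 ≤ Y) :
    1 ≤ Real.log (Q * y * Y) ∧ 0 ≤ Real.log y ∧ 0 ≤ Real.log Y ∧
      Real.log y ≤ Real.log (Q * y * Y) ∧ Real.log Y ≤ Real.log (Q * y * Y) ∧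
      Real.log (2 * Q) ≤ Real.log (Q * y * Y) := by
  rw [Real.log_mul (by positivity) (by positivity), Real.log_mul (by positivity) (by positivity),
    Real.log_mul (by positivity) (by positivity)]
  have h1 := Real.log_nonneg hQ
  have h2 := Real.log_le_log two_pos hy
  have h3 := Real.log_le_log two_pos hY
  have h4 := Real.log_two_gt_d9
  refine ⟨?_, ?_, ?_, ?_, ?_, ?_⟩ <;> linarith

theorem mono {C c C' c' Q y Y : ℝ} (hQ : 1 ≤ Q) (hy : 2 ≤ y) (hY : 2 ≤ Y) (h0 : 0 ≤ C)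
    (hC : C ≤ C') (hc : c' ≤ c) : bnd C c Q y Y ≤ bnd C' c' Q y Y := by
  obtain ⟨l1, l2, l3, -⟩ := logs hQ hy hY
  have := h0.trans hC
  unfold bnd
  gcongr

theorem drop {c Q y Y d : ℝ} {A : ℕ} (hQ : 1 ≤ Q) (hy : 2 ≤ y) (hY : 2 ≤ Y) (hc : c ≤ 1)
    (hd : d ≤ 2 * A * Real.log (2 * Q)) : 2 * Y * d + d * (2 * y) ≤ bnd (8 * A) c Q y Y := by
  obtain ⟨l1, l2, l3, l4, l5, l6⟩ := logs hQ hy hY
  unfold bnd
  generalize Real.log (Q * y * Y) = L at *
  have key : ∀ u v : ℝ, 2 ≤ u → 0 ≤ Real.log u → 0 ≤ v → v ≤ L →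
      1 ≤ u * Real.exp (-(c * (Real.log u * v) / L)) := fun u v h1 h2 h3 h4 => by
    have : c * (Real.log u * v) / L ≤ Real.log u := by
      rw [div_le_iff₀ (by linarith)]
      nlinarith [mul_nonneg h2 h3, mul_le_mul_of_nonneg_left h4 h2]
    calc (1 : ℝ) = u * Real.exp (-Real.log u) := by
          rw [Real.exp_neg, Real.exp_log (by linarith), mul_inv_cancel₀ (by linarith)]
      _ ≤ _ := by gcongr
  have k1 := key y _ hy l2 l3 l5
  have k2 := key Y _ hY l3 l2 l4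
  rw [mul_comm (Real.log Y)] at k2
  rw [mul_assoc c]
  have e0 := Real.exp_pos (-(c * (Real.log y * Real.log Y) / L))
  generalize Real.exp (-(c * (Real.log y * Real.log Y) / L)) = E at *
  have hA : (0 : ℝ) ≤ A := Nat.cast_nonneg _
  have h1 : d ≤ 2 * A * L ^ 3 :=
    hd.trans (mul_le_mul_of_nonneg_left (l6.trans (le_self_pow₀ l1 three_ne_zero)) (by positivity))
  have h2 : Y + y ≤ 2 * (y * Y * E) := by nlinarith
  have h3 : 0 ≤ 2 * A * L ^ 3 := by positivity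
  nlinarith [mul_le_mul h1 h2 (by linarith) h3]

theorem card_le {J : Finset ℕ} {Y : ℝ} (hY : 0 ≤ Y) (h : ∀ l ∈ J, l.Prime ∧ (l : ℝ) ≤ Y) :
    (J.card : ℝ) ≤ Y := by
  have : J ⊆ Ioc 0 ⌊Y⌋₊ := fun l hl => mem_Ioc.2 ⟨(h l hl).1.pos, Nat.le_floor (h l hl).2⟩
  have := card_le_card this
  rw [Nat.card_Ioc, Nat.sub_zero] at this
  exact (Nat.cast_le.2 this).trans (Nat.floor_le hY)

theorem few {J : Finset ℕ} {f A : ℕ} {Q : ℝ} (hf : 0 < f) (hQ : (f : ℝ) ≤ (2 * Q) ^ A)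
    (h : ∀ l ∈ J, l.Prime) : ((J.filter (· ∣ f)).card : ℝ) ≤ 2 * A * Real.log (2 * Q) := by
  have h1 : 2 ^ (J.filter (· ∣ f)).card ≤ f :=
    (pow_card_le_prod _ (fun l => l) 2 fun l hl => (h l (mem_filter.1 hl).1).two_le).trans
      (Nat.le_of_dvd hf (prod_primes_dvd f (fun l hl => (h l (mem_filter.1 hl).1).prime)
        fun l hl => (mem_filter.1 hl).2))
  have h2 : (2 : ℝ) ^ (J.filter (· ∣ f)).card ≤ (2 * Q) ^ A := le_trans (by exact_mod_cast h1) hQ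
  have h3 := Real.log_le_log (by positivity) h2
  rw [Real.log_pow, Real.log_pow] at h3
  have h4 := Real.log_two_gt_d9
  have h5 : (0 : ℝ) ≤ (J.filter (· ∣ f)).card := Nat.cast_nonneg _
  nlinarith

theorem split (J P : Finset ℕ) (f : ℕ) (x : ℕ → ℕ → ℝ) (hx : ∀ l, ∀ p ∈ P, |x l p| ≤ 1) :
    ∑ l ∈ J, |∑ p ∈ P, x l p| ≤ ∑ l ∈ J.filter (¬ · ∣ f), |∑ p ∈ P.filter (¬ · ∣ f), x l p| +
      ((J.card : ℝ) * (P.filter (· ∣ f)).card + (J.filter (· ∣ f)).card * P.card) := by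
  have b : ∀ l, ∀ S ⊆ P, |∑ p ∈ S, x l p| ≤ S.card := fun l S hS =>
    (abs_sum_le_sum_abs _ _).trans ((sum_le_card_nsmul _ _ 1 fun p hp => hx l p (hS hp)).trans_eq
      (by simp))
  rw [← sum_filter_add_sum_filter_not J (· ∣ f)]
  have h1 : ∑ l ∈ J.filter (· ∣ f), |∑ p ∈ P, x l p| ≤ (J.filter (· ∣ f)).card * P.card :=
    (sum_le_card_nsmul _ _ _ fun l _ => b l P Subset.rfl).trans_eq (nsmul_eq_mul _ _)
  have h2 : ∑ l ∈ J.filter (¬ · ∣ f), |∑ p ∈ P, x l p| ≤ ∑ l ∈ J.filter (¬ · ∣ f),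
      (|∑ p ∈ P.filter (¬ · ∣ f), x l p| + (P.filter (· ∣ f)).card) := sum_le_sum fun l _ => by
    rw [← sum_filter_add_sum_filter_not P (· ∣ f), add_comm]
    exact (abs_add_le _ _).trans (add_le_add_right (b l _ (filter_subset _ _)) _)
  rw [sum_add_distrib, sum_const, nsmul_eq_mul] at h2
  have h3 : ((J.filter (¬ · ∣ f)).card : ℝ) * (P.filter (· ∣ f)).card ≤
      J.card * (P.filter (· ∣ f)).card := by gcongr; exact filter_subset _ _
  linarith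

theorem abs_sg (x : ZMod 2) : |sg x| ≤ 1 := by
  unfold sg
  split_ifs <;> simp

end Ls

open Ls

theorem ls_thm (hH : HoldStmt) (hO : OrdStmt) (hM : MomStmt) (hP : ParStmt) : LsStmt := by
  intro n
  induction n with
  | zero =>
    exact ⟨1, 1, one_pos, one_pos, fun N _ _ _ _ _ _ _ _ _ _ _ h =>
      absurd Module.finrank_pos (not_lt.2 h)⟩
  | succ n ih =>
    obtain ⟨C0, c0, hC0, hc0, h0⟩ := ih
    obtain ⟨A, hA⟩ := hO (n + 1)
    obtain ⟨C, c, hC, hc, h1⟩ := hP (n + 1) A n.succ_pos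
    refine ⟨C0 + (C + 8 * A), min c0 (min c 1), by positivity, by positivity,
      fun N _ _ Q y Y M J P γ 𝔭 β hn hd hM' D hβ => ?_⟩
    have M0 := Nat.pos_of_ne_zero D.ne
    have hQ : 1 ≤ Q := le_trans (by exact_mod_cast M0) hM'
    have hy := D.hy
    have hY := D.hY
    rcases Nat.lt_or_eq_of_le hn with q | q
    · exact (h0 N Q y Y M J P γ 𝔭 β (Nat.lt_succ_iff.1 q) hd hM' D hβ).trans
        (mono hQ hy hY hC0.le (le_add_of_nonneg_right (by positivity)) (min_le_left _ _))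
    obtain ⟨W, f, ω, hW, od⟩ := hA N Q q hd
    obtain ⟨a, m, T, H, R, E, a0, m0, p1, p2, p3, p4, p5⟩ :=
      h1 Q y Y M W hy hY M0 hM' (od.pos.trans_le od.le) hW
    have D' : Dat M y Y (J.filter (¬ · ∣ f)) (P.filter (¬ · ∣ f)) γ 𝔭 :=
      ⟨D.ne, hy, hY, fun l hl => by
        obtain ⟨u1, u2, u3, u4, u5, u6⟩ := D.hJ l (mem_filter.1 hl).1
        exact ⟨u1, u2, u3, u4, fun h => u5 (mem_filter.1 h).1, u6⟩,
        fun p hp => D.hP p (mem_filter.1 hp).1⟩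
    have cJ : ∀ {J P}, Dat M y Y J P γ 𝔭 → (J.card : ℝ) ≤ 2 * Y ∧ (P.card : ℝ) ≤ 2 * y := fun D =>
      ⟨card_le (by linarith) fun l hl => ⟨(D.hJ l hl).1, (D.hJ l hl).2.2.1⟩,
        card_le (by linarith) fun l hl => ⟨(D.hP l hl).1, (D.hP l hl).2.2.1⟩⟩
    have s1 := p5 _ _ _ (sum_nonneg fun _ _ => abs_nonneg _) (cJ D').1 (cJ D').2
      (hH a m _ _ (fun l p => sg (nsq (𝔭 p) (γ l))) β _ a0 m0
        (fun p hp => hβ p (mem_filter.1 hp).1) fun b hb => hM N _ W f ω M y Y _ _ γ 𝔭 a m T H R E b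
          od D' (fun l hl => (mem_filter.1 hl).2) (fun l hl => (mem_filter.1 hl).2) m0 p1 p2 p3 p4 hb)
    have fW : (f : ℝ) ≤ (2 * Q) ^ A := (Nat.cast_le.2 od.le).trans hW
    have f1 := few od.pos fW fun l hl => (D.hJ l hl).1
    have f2 := few od.pos fW fun l hl => (D.hP l hl).1
    have s2 := drop (c := min c0 (min c 1)) hQ hy hY ((min_le_right _ _).trans (min_le_right _ _))
      (le_refl (2 * A * Real.log (2 * Q)))
    have s3 := s1.trans (mono (C' := C0 + C) (c' := min c0 (min c 1)) hQ hy hY hC.le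
      (le_add_of_nonneg_left hC0.le) ((min_le_right _ _).trans (min_le_left _ _)))
    refine (split J P f (fun l p => β p * sg (nsq (𝔭 p) (γ l))) fun l p hp => ?_).trans ?_
    · rw [abs_mul]
      exact mul_le_one₀ (hβ p hp) (abs_nonneg _) (abs_sg _)
    have s4 := mul_le_mul (cJ D).1 f2 (Nat.cast_nonneg _) (by linarith)
    have s5 := mul_le_mul f1 (cJ D).2 (Nat.cast_nonneg _) ((Nat.cast_nonneg _).trans f1)
    refine (add_le_add s3 ((add_le_add s4 s5).trans s2)).trans_eq ?_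
    unfold bnd
    ring

end Pool.Agent.Lib.MP_d6ddbd_nt.GG
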