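import Pool.Agent.Lib.MP_d6ddbd_nt.GG.St

/-!
The large sieve inequality for the characters of an open subgroup.
-/

set_option autoImplicit false

open NumberField Finset
open Pool.Agent.Stark (Pr og hq LSq)
open Pool.Agent.Lib.MP_d6ddbd_nt.K11 Pool.Agent.Lib.MP_d6ddbd_nt.KI

namespace Pool.Agent.Lib.MP_d6ddbd_nt.GG

namespace LsG

variable {N : Type} [Field N] [NumberField N]

omit [NumberField N] in
theorem one_not (𝔮 : Pr N) : (1 : 𝓞 N) ∉ 𝔮.asIdeal :=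
  fun h => 𝔮.isPrime.ne_top ((Ideal.eq_top_iff_one _).2 h)

theorem lies (𝔮 : Pr N) : ∃ v : ℕ, v.Prime ∧ (v : 𝓞 N) ∈ 𝔮.asIdeal := by
  have key : ∀ n : ℕ, n ≠ 0 → (n : 𝓞 N) ∈ 𝔮.asIdeal → ∃ v : ℕ, v.Prime ∧ (v : 𝓞 N) ∈ 𝔮.asIdeal := by
    intro n
    induction n using induction_on_primes with
    | zero => exact fun h => absurd rfl h
    | one => exact fun _ h => absurd (by simpa using h) (one_not 𝔮)
    | prime_mul p a hp ih =>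
      intro h0 h
      rw [Nat.cast_mul] at h
      exact (𝔮.isPrime.mem_or_mem h).elim (fun e => ⟨p, hp, e⟩) (ih (right_ne_zero_of_mul h0))
  exact key _ (fun h => 𝔮.ne_bot (Ideal.absNorm_eq_zero_iff.1 h)) (Ideal.absNorm_mem _)

omit [NumberField N] in
theorem not_mem (𝔮 : Pr N) {p k : ℕ} (hp : p.Prime) (h : (p : 𝓞 N) ∈ 𝔮.asIdeal) (hk : ¬ p ∣ k) :
    (k : 𝓞 N) ∉ 𝔮.asIdeal := fun h' => by
  obtain ⟨a, b, e⟩ : IsCoprime (p : 𝓞 N) (k : 𝓞 N) := (hp.coprime_iff_not_dvd.2 hk).cast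
  exact one_not 𝔮 (e ▸ add_mem (Ideal.mul_mem_left _ _ h) (Ideal.mul_mem_left _ _ h'))

theorem bnd_le {C c y Y : ℝ} {M k : ℕ} (hC : 0 < C) (hc : 0 < c) (hM : M ≠ 0) (hk : k ≠ 0)
    (hy : 2 ≤ y) (hY : 2 ≤ Y) : bnd C c ((M : ℝ) ^ k) y Y ≤ bnd (C * k ^ 3) (c / k) M y Y := by
  have m1 : (1 : ℝ) ≤ M := by exact_mod_cast Nat.pos_of_ne_zero hM
  have k1 : (1 : ℝ) ≤ k := by exact_mod_cast Nat.pos_of_ne_zero hk
  have a0 := Real.log_nonneg m1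
  have a1 := Real.log_pos (by linarith : 1 < y)
  have a2 := Real.log_pos (by linarith : 1 < Y)
  have e1 : Real.log ((M : ℝ) ^ k * y * Y) = k * Real.log M + Real.log y + Real.log Y := by
    rw [Real.log_mul (by positivity) (by positivity), Real.log_mul (by positivity) (by positivity),
      Real.log_pow]
  have e2 : Real.log ((M : ℝ) * y * Y) = Real.log M + Real.log y + Real.log Y := by
    rw [Real.log_mul (by positivity) (by positivity), Real.log_mul (by positivity) (by positivity)]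
  have h1 : Real.log ((M : ℝ) ^ k * y * Y) ≤ k * Real.log ((M : ℝ) * y * Y) := by
    rw [e1, e2]
    nlinarith
  have h2 : 0 < Real.log ((M : ℝ) ^ k * y * Y) := by
    rw [e1]
    positivity
  have h3 : 0 < (k : ℝ) * Real.log ((M : ℝ) * y * Y) := h2.trans_le h1
  unfold bnd
  rw [mul_assoc C ((k : ℝ) ^ 3), ← mul_pow, div_mul_eq_mul_div, div_mul_eq_mul_div, div_div]
  gcongr

end LsG

theorem lsg_thm (hV : VStmt) (hL : LsStmt) (hD : DiscStmt) (hF : FixStmt) (hI : DictStmt) :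
    LsG := by
  intro n
  obtain ⟨C, c, hC, hc, h⟩ := hL n
  refine ⟨C * (n ^ 2 + 1 : ℕ) ^ 3, c / (n ^ 2 + 1 : ℕ), by positivity, by positivity,
    fun U M y Y J P θ σ β hU hn hM hy hY hu hJ hP => ?_⟩
  obtain ⟨N, _, _, e, hr, he⟩ := hF U hU
  obtain ⟨d1, d2, d3, d4⟩ := hI N e
  have a1 : ∀ l ∈ J, ∃ (γ : N) (s : ℂ), γ ≠ 0 ∧ s ^ 2 = e γ ∧
      ∀ g : G, (∀ y, g (e y) = e y) → (g s = s ↔ θ l g = 0) := fun l hl => by
    obtain ⟨-, -, -, -, -, k⟩ := hJ l hl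
    obtain ⟨S, s1, s2⟩ := k.fin
    exact hV.2.2.2.2.2.2.2 N e (θ l) S s1 (fun a b ha hb => k.mul a ((he a).2 ha) b ((he b).2 hb))
      fun a ha => s2 a ((he a).2 ha)
  choose! γ s g0 g1 g2 using a1
  have two : ∀ {p : ℕ}, ¬ p ∣ 2 * M → p ≠ 2 := fun h e => h (e ▸ Dvd.intro _ rfl)
  have a2 : ∀ p ∈ P, ∃ 𝔭 : Pr N, nm 𝔭 = p ∧ ∀ (γ : N) (s : ℂ), γ ≠ 0 → s ^ 2 = e γ →
      Even (og 𝔭 γ) → (σ p s = s ↔ LSq 𝔭 γ) := fun p hp => by
    obtain ⟨p1, -, -, p2, p3, ⟨O, p4, p5⟩, -⟩ := hP p hp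
    exact d4 p O (σ p) p1 (two p2) p4 p5 ((he _).1 p3)
  have : Nonempty (Pr N) := by
    obtain ⟨O, hO⟩ := hV.1.1 2 Nat.prime_two
    obtain ⟨𝔭, -⟩ := hV.1.2.2.1 N e 2 O Nat.prime_two hO
    exact ⟨𝔭⟩
  choose! 𝔭 q1 q2 using a2
  have gm : ∀ l ∈ J, Gm M l (γ l) := fun l hl => by
    obtain ⟨l1, -, -, l2, -, k⟩ := hJ l hl
    refine ⟨g0 l hl, fun 𝔮 hq => ?_, ?_⟩
    · obtain ⟨v, v1, v2⟩ := LsG.lies 𝔮
      refine d2 v 𝔮 _ (s l) v1 v2 (g0 l hl) (g1 l hl) fun O g o1 o2 o3 => (g2 l hl g o3).2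
        (k.unr v O g v1 ?_ o1 o2 ((he g).2 o3))
      rintro ⟨w, hw⟩
      exact hq (by rw [hw, Nat.cast_mul]; exact Ideal.mul_mem_right _ _ v2)
    · obtain ⟨O, g, o1, o2, o3⟩ := k.ram
      have o4 := (he g).1 (hu l O g l1 (fun q => l2 (q.mul_left 2)) o1 o2)
      exact d3 l O g _ (s l) l1 (two l2) (g0 l hl) (g1 l hl) o1 o2 o4
        fun q => o3 ((g2 l hl g o4).1 q)
  have m1 : 1 ≤ M := Nat.pos_of_ne_zero hM
  have dc : |(discr N : ℝ)| ≤ (M : ℝ) ^ (n ^ 2 + 1) := by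
    have h1 := hD N M hM fun p 𝔮 p1 p2 p3 =>
      d1 p 𝔮 p1 p3 fun O g o1 o2 => (he g).1 (hu p O g p1 p2 o1 o2)
    have h2 : M ^ (Module.finrank ℚ N ^ 2) ≤ M ^ (n ^ 2 + 1) :=
      Nat.pow_le_pow_right m1 ((Nat.pow_le_pow_left (hr.trans_le hn) 2).trans (Nat.le_succ _))
    rw [← Int.cast_abs, ← Nat.cast_natAbs]
    exact_mod_cast h1.trans h2
  refine le_trans (le_of_eq (sum_congr rfl fun l hl => congrArg _ (sum_congr rfl fun p hp => ?_)))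
    ((h N _ y Y M J P γ 𝔭 β (hr.trans_le hn) dc
      (le_self_pow₀ (by exact_mod_cast m1) (Nat.succ_ne_zero _))
      ⟨hM, hy, hY, fun l hl => ?_, fun p hp => ?_⟩ fun p hp => (hP p hp).2.2.2.2.2.2).trans
        (LsG.bnd_le hC hc hM (Nat.succ_ne_zero _) hy hY))
  · obtain ⟨l1, -, -, -, l2, -⟩ := hJ l hl
    obtain ⟨p1, -, -, p2, p3, -⟩ := hP p hp
    have h1 : (p : 𝓞 N) ∈ (𝔭 p).asIdeal := by
      have := Ideal.absNorm_mem (𝔭 p).asIdeal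
      rwa [show Ideal.absNorm (𝔭 p).asIdeal = p from q1 p hp] at this
    have h2 := q2 p hp _ _ (g0 l hl) (g1 l hl) ((gm l hl).ev _ (LsG.not_mem _ p1 h1 fun q =>
      (p1.dvd_mul.1 q).elim p2 fun r => l2 ((Nat.prime_dvd_prime_iff_eq p1 l1).1 r ▸ hp)))
    rw [g2 l hl _ ((he _).1 p3)] at h2
    by_cases h3 : LSq (𝔭 p) (γ l)
    · rw [nsq, if_pos h3, h2.2 h3]
    · rw [nsq, if_neg h3, sg, sg, if_neg fun q => h3 (h2.1 q), if_neg one_ne_zero]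
  · obtain ⟨l1, l2, l3, l4, l5, -⟩ := hJ l hl
    exact ⟨l1, l2, l3, l4, l5, gm l hl⟩
  · obtain ⟨p1, p2, p3, p4, -⟩ := hP p hp
    exact ⟨p1, p2, p3, p4, q1 p hp⟩

end Pool.Agent.Lib.MP_d6ddbd_nt.GG

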