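import Pool.Agent.Lib.MP_d6ddbd_nt.GG.St

/-!
The moments over products of primes.
-/

set_option autoImplicit false

open NumberField Finset
open Pool.Agent.Stark (Pr og hq LSq)
open Pool.Agent.Lib.MP_d6ddbd_nt.K11 Pool.Agent.Lib.MP_d6ddbd_nt.KI

noncomputable section

namespace Pool.Agent.Lib.MP_d6ddbd_nt.GG

namespace Mom

theorem abs_sg (x : ZMod 2) : |sg x| = 1 := by
  unfold sg
  split_ifs <;> simp

theorem few {J : Finset ℕ} {Y : ℝ} {r D : ℕ} (hY : 1 ≤ Y) (hJ : ∀ l ∈ J, l.Prime ∧ Y < l)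
    (hr : r ≠ 0) (h : (r : ℝ) < Y ^ (D + 1)) : (J.filter (· ∣ r)).card ≤ D := by
  by_contra hc
  have h1 : D + 1 ≤ (J.filter (· ∣ r)).card := by omega
  have h2 : ∏ l ∈ J.filter (· ∣ r), l ∣ r :=
    Finset.prod_primes_dvd r (fun l hl => (hJ l (mem_filter.1 hl).1).1.prime)
      fun l hl => (mem_filter.1 hl).2
  have h3 : ((∏ l ∈ J.filter (· ∣ r), l : ℕ) : ℝ) ≤ r := by
    exact_mod_cast Nat.le_of_dvd (Nat.pos_of_ne_zero hr) h2
  have h4 : Y ^ (J.filter (· ∣ r)).card ≤ ∏ l ∈ J.filter (· ∣ r), (l : ℝ) := by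
    rw [← Finset.prod_const]
    exact Finset.prod_le_prod (fun _ _ => by linarith) fun l hl => (hJ l (mem_filter.1 hl).1).2.le
  have h5 := pow_le_pow_right₀ hY h1
  push_cast at h3
  linarith

theorem fib {a : ℕ} {P : Finset ℕ} (hP : ∀ p ∈ P, p.Prime) (S : Finset (Fin a → ℕ))
    (hS : S ⊆ Fintype.piFinset fun _ : Fin a => P)
    (h : ∀ τ ∈ S, ∀ τ' ∈ S, ∏ i, τ i = ∏ i, τ' i) : S.card ≤ a ^ a := by
  rcases S.eq_empty_or_nonempty with rfl | ⟨τ, hτ⟩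
  · simp
  have h1 : S ⊆ Fintype.piFinset fun _ : Fin a => univ.image τ := fun τ' hτ' => by
    refine Fintype.mem_piFinset.2 fun i => ?_
    have hp := hP _ (Fintype.mem_piFinset.1 (hS hτ') i)
    have hd : τ' i ∣ ∏ j, τ j := by
      rw [h τ hτ τ' hτ']
      exact Finset.dvd_prod_of_mem _ (mem_univ i)
    obtain ⟨j, -, hj⟩ := (Prime.dvd_finsetProd_iff hp.prime _).1 hd
    exact mem_image.2 ⟨j, mem_univ j,
      ((Nat.prime_dvd_prime_iff_eq hp (hP _ (Fintype.mem_piFinset.1 (hS hτ) j))).1 hj).symm⟩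
  refine (card_le_card h1).trans ?_
  rw [Fintype.card_piFinset, prod_const, card_univ, Fintype.card_fin]
  exact Nat.pow_le_pow_left (card_image_le.trans (by simp)) _

theorem sum_fib {A X : Type*} [DecidableEq X] (S : Finset A) (T : Finset X) (κ : A → X)
    (F : X → ℝ) (k : ℕ) (h0 : ∀ x, 0 ≤ F x) (hm : ∀ s ∈ S, κ s ∈ T)
    (hk : ∀ x, (S.filter fun s => κ s = x).card ≤ k) : ∑ s ∈ S, F (κ s) ≤ k * ∑ x ∈ T, F x := by
  rw [← Finset.sum_fiberwise_of_maps_to hm, mul_sum]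
  refine sum_le_sum fun x _ => ?_
  rw [Finset.sum_congr rfl (g := fun _ => F x) fun s hs => by rw [(mem_filter.1 hs).2], sum_const,
    nsmul_eq_mul]
  exact mul_le_mul_of_nonneg_right (by exact_mod_cast hk x) (h0 x)

theorem pow_le {x x' D : ℝ} {m : ℕ} (h : |x - x'| ≤ D) :
    x ^ (2 * m) ≤ 4 ^ m * (x' ^ (2 * m) + D ^ (2 * m)) := by
  have e : Even (2 * m) := even_two_mul m
  have hD : 0 ≤ D := (abs_nonneg _).trans h
  have h1 : |x| ≤ 2 * max |x'| D := by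
    have := abs_add_le (x - x') x'
    rw [sub_add_cancel] at this
    linarith [le_max_left |x'| D, le_max_right |x'| D]
  have h2 : max |x'| D ^ (2 * m) ≤ x' ^ (2 * m) + D ^ (2 * m) := by
    rcases max_choice |x'| D with h | h <;> rw [h]
    · rw [e.pow_abs]
      linarith [pow_nonneg hD (2 * m)]
    · linarith [e.pow_nonneg x']
  calc x ^ (2 * m) = |x| ^ (2 * m) := (e.pow_abs x).symm
    _ ≤ (2 * max |x'| D) ^ (2 * m) := pow_le_pow_left₀ (abs_nonneg _) h1 _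
    _ = 4 ^ m * max |x'| D ^ (2 * m) := by rw [mul_pow, pow_mul (2 : ℝ)]; norm_num
    _ ≤ _ := mul_le_mul_of_nonneg_left h2 (by positivity)

variable {N : Type} [Field N] [NumberField N] {n W f : ℕ} {ω : Fin n → 𝓞 N}

/-- The shifted point of the box. -/
def zz (ω : Fin n → 𝓞 N) (c : ℕ) (t : Fin n → ℕ) : 𝓞 N := c + ∑ i, (t i : 𝓞 N) * ω i

theorem npos (h : Od N n W f ω) : 0 < n := h.rk ▸ Module.finrank_pos

theorem size (h : Od N n W f ω) {M H : ℕ} (hM : M ≠ 0) {t : Fin n → ℕ} (ht : t ∈ box n H)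
    (φ : N →+* ℂ) : 1 ≤ (φ ((1 + 8 * M * zz ω (n * W * H) t : 𝓞 N) : N)).re ∧
      ‖φ ((1 + 8 * M * zz ω (n * W * H) t : 𝓞 N) : N)‖ ≤ 24 * M * n * W * H := by
  have ht' : ∀ i, t i < H := fun i => mem_range.1 (Fintype.mem_piFinset.1 ht i)
  set s : ℂ := ∑ i, (t i : ℂ) * φ (ω i : N) with hs
  have e : φ ((1 + 8 * M * zz ω (n * W * H) t : 𝓞 N) : N) =
      1 + ((8 * M : ℝ) : ℂ) * (((n * W * H : ℝ) : ℂ) + s) := by
    simp [zz, hs, map_ofNat]
  have h1 : ‖s‖ ≤ n * W * H := by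
    refine (norm_sum_le _ _).trans ((sum_le_card_nsmul _ _ ((W : ℝ) * H) fun i _ => ?_).trans ?_)
    · rw [norm_mul, Complex.norm_natCast, mul_comm]
      exact mul_le_mul (h.emb φ i) (by exact_mod_cast (ht' i).le) (by positivity) (by positivity)
    · simp [mul_assoc]
  have h2 : (1 : ℝ) ≤ M * (n * W * H) := by
    have a1 := npos h
    have a2 : 0 < W := h.pos.trans_le h.le
    have a3 : 0 < H := (Nat.zero_le _).trans_lt (ht' ⟨0, a1⟩)
    have a4 := Nat.pos_of_ne_zero hM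
    exact_mod_cast Nat.succ_le_of_lt (by positivity : 0 < M * (n * W * H))
  have hM' : (0 : ℝ) ≤ M := by positivity
  rw [e]
  constructor
  · have h3 := (abs_le.1 ((Complex.abs_re_le_norm s).trans h1)).1
    rw [Complex.add_re, Complex.re_ofReal_mul, Complex.add_re, Complex.ofReal_re, Complex.one_re]
    nlinarith
  · have h3 : ‖((n * W * H : ℝ) : ℂ) + s‖ ≤ 2 * (n * W * H) := by
      refine (norm_add_le _ _).trans ?_
      rw [Complex.norm_real, Real.norm_of_nonneg (by positivity)]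
      linarith
    refine (norm_add_le _ _).trans ?_
    rw [norm_one, norm_mul, Complex.norm_real, Real.norm_of_nonneg (by positivity)]
    nlinarith

theorem norm_le (hn : Module.finrank ℚ N = n) {x : 𝓞 N} {B : ℝ}
    (h : ∀ φ : N →+* ℂ, ‖φ (x : N)‖ ≤ B) : (Ideal.absNorm (Ideal.span {x}) : ℝ) ≤ B ^ n := by
  have h1 := congrArg (fun z : ℂ => ‖z‖) (Algebra.norm_eq_prod_embeddings ℚ ℂ (x : N))
  simp only [norm_prod] at h1
  rw [← Algebra.coe_norm_int] at h1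
  have h2 : (Ideal.absNorm (Ideal.span {x}) : ℝ) = ∏ σ : N →ₐ[ℚ] ℂ, ‖σ (x : N)‖ := by
    rw [← h1, Ideal.absNorm_span_singleton, Nat.cast_natAbs]
    simp
  rw [h2, ← hn, ← AlgHom.card ℚ N ℂ, ← card_univ, ← prod_const]
  exact Finset.prod_le_prod (fun _ _ => norm_nonneg _) fun σ _ => h σ.toRingHom

theorem not_mem {𝔭 : Pr N} {p k : ℕ} (hp : p.Prime) (hn : nm 𝔭 = p) (hk : ¬ p ∣ k) :
    (k : 𝓞 N) ∉ 𝔭.asIdeal := fun h => by
  have h1 : (p : 𝓞 N) ∈ 𝔭.asIdeal := hn ▸ Ideal.absNorm_mem _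
  obtain ⟨u, v, e⟩ := Nat.isCoprime_iff_coprime.2 ((Nat.Prime.coprime_iff_not_dvd hp).2 hk)
  refine 𝔭.isPrime.ne_top ((Ideal.eq_top_iff_one _).2 ?_)
  have e' : (1 : 𝓞 N) = u * p + v * k := by exact_mod_cast congrArg (Int.cast : ℤ → 𝓞 N) e.symm
  rw [e']
  exact add_mem (Ideal.mul_mem_left _ _ h1) (Ideal.mul_mem_left _ _ h)

theorem step (hE : ElStmt) (h : Od N n W f ω) {M a T H R : ℕ} {y : ℝ} (hM : M ≠ 0) (hy : 0 < y)
    {τ : Fin a → ℕ} {𝔭 : Fin a → Pr N}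
    (hτ : ∀ i, (τ i).Prime ∧ y < τ i ∧ (τ i : ℝ) ≤ 2 * y ∧ ¬ τ i ∣ 2 * M ∧ nm (𝔭 i) = τ i)
    (hf : ∀ i, ¬ τ i ∣ f) (h1 : (2 * y) ^ a < ((T : ℝ) + 1) ^ n) (h2 : 2 * n ^ 2 * T * W < H)
    (h3 : (24 * M * n * W * H : ℝ) ^ n ≤ R * y ^ a) :
    ∃ x : Ideal (𝓞 N) × (Fin n → ℕ), x.2 ∈ box n H ∧ x.1 ≠ ⊥ ∧ Ideal.absNorm x.1 ≤ R ∧
      Ideal.span {1 + 8 * M * zz ω (n * W * H) x.2} = (∏ i, (𝔭 i).asIdeal) * x.1 := by
  have e0 : (Ideal.absNorm (∏ i, (𝔭 i).asIdeal) : ℝ) = ∏ i, (τ i : ℝ) := by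
    rw [map_prod, Nat.cast_prod]
    exact prod_congr rfl fun i _ => by rw [← (hτ i).2.2.2.2]
  have e1 : (Ideal.absNorm (∏ i, (𝔭 i).asIdeal) : ℝ) ≤ (2 * y) ^ a := by
    rw [e0]
    simpa using Finset.prod_le_prod (s := univ) (g := fun _ => 2 * y)
      (fun i _ => Nat.cast_nonneg (τ i)) fun i _ => (hτ i).2.2.1
  have e2 : y ^ a ≤ (Ideal.absNorm (∏ i, (𝔭 i).asIdeal) : ℝ) := by
    rw [e0]
    simpa using Finset.prod_le_prod (s := univ) (f := fun _ => y)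
      (fun i _ => hy.le) fun i _ => (hτ i).2.1.le
  have e3 : (∏ i, (𝔭 i).asIdeal) ≠ ⊥ := Finset.prod_ne_zero_iff.2 fun i _ => (𝔭 i).ne_bot
  obtain ⟨t, ht, hm⟩ := hE N n W f ω _ T H (8 * M) (1 + 8 * M * (n * W * H : ℕ)) h e3
    (by exact_mod_cast e1.trans_lt h1) (IsCoprime.prod_left fun i _ => by
      rw [Ideal.isCoprime_iff_sup_eq]
      refine (𝔭 i).isMaximal.out.2 _ (left_lt_sup.2 fun hle => ?_)
      refine not_mem (hτ i).1 (hτ i).2.2.2.2 (fun hd => ?_) (hle (Ideal.mem_span_singleton_self _))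
      rcases ((hτ i).1.dvd_mul).1 hd with hd | hd
      · rcases ((hτ i).1.dvd_mul).1 hd with hd | hd
        · exact (hτ i).2.2.2.1 (((hτ i).1.dvd_of_dvd_pow (n := 3) hd).mul_right _)
        · exact (hτ i).2.2.2.1 (hd.mul_left _)
      · exact hf i hd) h2
  have hm' : 1 + 8 * M * zz ω (n * W * H) t ∈ ∏ i, (𝔭 i).asIdeal := by
    convert hm using 1
    simp only [zz]
    push_cast
    ring
  obtain ⟨𝔠, hc⟩ := Ideal.dvd_span_singleton.2 hm'
  obtain ⟨φ⟩ : Nonempty (N →+* ℂ) := inferInstance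
  refine ⟨(𝔠, t), ht, fun h0 => ?_, ?_, hc⟩
  · have h4 := (size h hM ht φ).1
    rw [show 𝔠 = ⊥ from h0, Ideal.mul_bot, Ideal.span_singleton_eq_bot] at hc
    rw [hc] at h4
    norm_num at h4
  · have h4 := (norm_le h.rk fun φ => (size h hM ht φ).2).trans h3
    rw [hc, map_mul, Nat.cast_mul] at h4
    have h5 : (Ideal.absNorm 𝔠 : ℝ) * y ^ a ≤ R * y ^ a := by
      refine le_trans ?_ h4
      rw [mul_comm]
      exact mul_le_mul_of_nonneg_right e2 (by positivity)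
    exact_mod_cast le_of_mul_le_mul_right h5 (by positivity)

omit [NumberField N] in
theorem per {χ : 𝓞 N → ℝ} {l : ℕ} (h : ∀ x z, χ (x + l * z) = χ x) (K : 𝓞 N) (c : ℕ)
    {t t' : Fin n → ℕ} (ht : ∀ i, t i ≡ t' i [MOD l]) :
    χ (1 + K * zz ω c t) = χ (1 + K * zz ω c t') := by
  choose k hk using fun i => (ht i).dvd
  have e : ∀ i, (t' i : 𝓞 N) = t i + l * k i := fun i => by
    have := congrArg (Int.cast : ℤ → 𝓞 N) (hk i)
    push_cast at this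
    linear_combination this
  rw [← h (1 + K * zz ω c t) (K * ∑ i, (k i : 𝓞 N) * ω i)]
  congr 1
  simp only [zz, e, add_mul, sum_add_distrib, mul_assoc, ← mul_sum]
  ring

end Mom

open Mom

theorem mom_thm (hB : BoxStmt) (hE : ElStmt) (hI : IdStmt) (hR : RecStmt) (hS : SumStmt) :
    MomStmt := by
  classical
  intro N _ _ n W f ω M y Y J P γ 𝔭 a m T H R D b hO hD hJf hPf hm h1 h2 h3 h4 hb
  have hy := hD.hy
  have hY := hD.hY
  choose! χ ε u c1 c2 c3 c4 c5 c6 using fun l (hl : l ∈ J) =>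
    hR N M l (γ l) hD.ne (hD.hJ l hl).1 (hD.hJ l hl).2.2.2.1 (hD.hJ l hl).2.2.2.2.2
  choose! κ k1 k2 k3 k4 using fun (τ : Fin a → ℕ) (hτ : τ ∈ Fintype.piFinset fun _ : Fin a => P) =>
    step (𝔭 := fun i => 𝔭 (τ i)) hE hO hD.ne (by linarith)
      (fun i => hD.hP _ (Fintype.mem_piFinset.1 hτ i))
      (fun i => hPf _ (Fintype.mem_piFinset.1 hτ i)) h1 h2 h3
  obtain ⟨s, s1, s2⟩ := hI N R
  rw [hO.rk] at s1
  set g : Ideal (𝓞 N) → ℕ → (Fin n → ℕ) → ℝ := fun 𝔠 l t =>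
    if l ∣ Ideal.absNorm 𝔠 then 0 else b l * ε l 𝔠 * χ l (1 + 8 * M * zz ω (n * W * H) t) with hg
  set B : ℝ := (m : ℝ) ^ (2 * m) * (J.card : ℝ) ^ m * (H : ℝ) ^ n +
    (J.card : ℝ) ^ (2 * m) * n * (2 * Y) ^ (2 * m) * (H : ℝ) ^ (n - 1) with hB'
  have b1 : ∀ 𝔠, ∑ t ∈ box n H, (∑ l ∈ J, g 𝔠 l t) ^ (2 * m) ≤ B := fun 𝔠 => by
    refine (hB n m H ⌊2 * Y⌋₊ J (g 𝔠) (npos hO) hm fun l hl => ⟨(hD.hJ l hl).1,
      Nat.le_floor (hD.hJ l hl).2.2.1, fun t => ?_, fun t t' ht => ?_, ?_⟩).trans ?_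
    · simp only [hg]
      split_ifs
      · simp
      · rw [abs_mul, abs_mul]
        exact mul_le_one₀ (mul_le_one₀ (hb l) (abs_nonneg _) (c2 l hl _)) (abs_nonneg _) (c1 l hl _)
    · simp only [hg, per (c3 l hl) _ _ ht]
    · simp only [hg]
      split_ifs
      · simp
      · rw [← mul_sum]
        refine mul_eq_zero_of_right _ ?_
        rw [← hS N n W f ω l (8 * M) (χ l) (u l) (1 + 8 * M * (n * W * H : ℕ)) hO (hD.hJ l hl).1
          (fun hd => ?_) (c3 l hl) (c4 l hl) (c5 l hl)]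
        · refine sum_congr rfl fun t _ => ?_
          congr 1
          simp only [zz]
          push_cast
          ring
        · have hp := (hD.hJ l hl).1
          rcases hp.dvd_mul.1 hd with hd | hd
          · rcases hp.dvd_mul.1 hd with hd | hd
            · exact (hD.hJ l hl).2.2.2.1 ((hp.dvd_of_dvd_pow (n := 3) hd).mul_right _)
            · exact (hD.hJ l hl).2.2.2.1 (hd.mul_left _)
          · exact hJf l hl hd
    · have := Nat.floor_le (a := 2 * Y) (by linarith)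
      rw [hB']
      gcongr
  have b2 : ∀ τ ∈ Fintype.piFinset fun _ : Fin a => P,
      |∑ l ∈ J, b l * ∏ i, sg (nsq (𝔭 (τ i)) (γ l)) - ∑ l ∈ J, g (κ τ).1 l (κ τ).2| ≤ D := by
    intro τ hτ
    have hτ' := fun i => Fintype.mem_piFinset.1 hτ i
    have h5 : (J.filter (· ∣ Ideal.absNorm (κ τ).1)).card ≤ D :=
      few (Y := Y) (by linarith) (fun l hl => ⟨(hD.hJ l hl).1, (hD.hJ l hl).2.1⟩)
        (by simpa [Ideal.absNorm_eq_zero_iff] using k2 τ hτ)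
        (lt_of_le_of_lt (by exact_mod_cast k3 τ hτ) h4)
    rw [← sum_sub_distrib]
    refine (abs_sum_le_sum_abs _ _).trans (le_trans ?_ (Nat.cast_le.2 h5))
    rw [card_filter]
    push_cast
    refine sum_le_sum fun l hl => ?_
    simp only [hg]
    split_ifs with hd
    · rw [sub_zero, abs_mul, abs_prod]
      simpa [abs_sg] using hb l
    · rw [c6 l hl a (fun i => 𝔭 (τ i)) _ _ (fun i => not_mem (hD.hP _ (hτ' i)).1
        (hD.hP _ (hτ' i)).2.2.2.2 fun hd' => ?_) (fun φ => ?_) (k4 τ hτ) (k2 τ hτ) hd]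
      · simp [mul_assoc]
      · rcases (hD.hP _ (hτ' i)).1.dvd_mul.1 hd' with hd' | hd'
        · exact (hD.hP _ (hτ' i)).2.2.2.1 hd'
        · exact (hD.hJ l hl).2.2.2.2.1
            ((Nat.prime_dvd_prime_iff_eq (hD.hP _ (hτ' i)).1 (hD.hJ l hl).1).1 hd' ▸ hτ' i)
      · have := (size hO hD.ne (k1 τ hτ) (Complex.ofRealHom.comp φ)).1
        rw [RingHom.comp_apply, Complex.ofRealHom_eq_coe, Complex.ofReal_re] at this
        linarith
  have b3 : ∑ τ ∈ Fintype.piFinset fun _ : Fin a => P,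
      (∑ l ∈ J, g (κ τ).1 l (κ τ).2) ^ (2 * m) ≤ (a : ℝ) ^ a * ((R : ℝ) ^ (n + 1) * B) := by
    refine (sum_fib _ (s ×ˢ box n H) κ (fun x => (∑ l ∈ J, g x.1 l x.2) ^ (2 * m)) (a ^ a)
      (fun x => (even_two_mul m).pow_nonneg _)
      (fun τ hτ => mem_product.2 ⟨s2 _ (k2 τ hτ) (k3 τ hτ), k1 τ hτ⟩) fun x => ?_).trans ?_
    · refine fib (fun p hp => (hD.hP p hp).1) _ (filter_subset _ _) fun τ hτ τ' hτ' => ?_
      obtain ⟨t1, t2⟩ := mem_filter.1 hτ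
      obtain ⟨t3, t4⟩ := mem_filter.1 hτ'
      have e1 := k4 τ t1
      have e2 := k4 τ' t3
      have e3 := k2 τ t1
      rw [t2] at e1 e3
      rw [t4, e1] at e2
      have e4 := congrArg Ideal.absNorm (mul_right_cancel₀ e3 e2)
      rw [map_prod, map_prod] at e4
      rw [prod_congr rfl fun i _ => (hD.hP _ (Fintype.mem_piFinset.1 t1 i)).2.2.2.2.symm,
        prod_congr rfl fun i _ => (hD.hP _ (Fintype.mem_piFinset.1 t3 i)).2.2.2.2.symm]
      exact e4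
    · rw [sum_product]
      push_cast
      refine mul_le_mul_of_nonneg_left ((sum_le_card_nsmul _ _ B fun 𝔠 _ => b1 𝔠).trans ?_)
        (by positivity)
      rw [nsmul_eq_mul]
      exact mul_le_mul_of_nonneg_right (by exact_mod_cast s1) (by positivity)
  refine (sum_le_sum fun τ hτ => pow_le (m := m) (b2 τ hτ)).trans ?_
  rw [← mul_sum, sum_add_distrib, sum_const, Fintype.card_piFinset, prod_const, card_univ,
    Fintype.card_fin, nsmul_eq_mul, mom]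
  push_cast
  refine mul_le_mul_of_nonneg_left (add_le_add_left ?_ _) (by positivity)
  rw [mul_assoc]
  exact b3

end Pool.Agent.Lib.MP_d6ddbd_nt.GG
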