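import Pool.Agent.Lib.MP_d6ddbd_nt.GG.St

/-!
A small primitive element and the order that it generates.
-/

set_option autoImplicit false

open NumberField Finset Polynomial
open scoped NNReal IntermediateField

namespace Pool.Agent.Lib.MP_d6ddbd_nt.GG

namespace Ord

theorem small (L : Type) [Field L] [NumberField L] :
    ∃ θ : 𝓞 L, ℚ⟮(θ : L)⟯ = ⊤ ∧ ∀ ψ : L →+* ℂ,
      ‖ψ θ‖ ≤ (2 + 2 ^ Module.finrank ℚ L) * |(discr L : ℝ)| := by
  obtain ⟨w₀⟩ := (inferInstance : Nonempty (InfinitePlace L))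
  set B : ℝ≥0 := NNReal.sqrt ‖discr L‖₊ * 2 ^ Module.finrank ℚ L + 1 with hB
  have h1 : mixedEmbedding.minkowskiBound L ↑1 < B := by
    have : B - 1 < B := by
      simp_rw [hB, add_tsub_cancel_right, lt_add_iff_pos_right, zero_lt_one]
    refine lt_of_le_of_lt ?_ (ENNReal.coe_lt_coe.mpr this)
    rw [mixedEmbedding.minkowskiBound,
      mixedEmbedding.volume_fundamentalDomain_fractionalIdealLatticeBasis, hB,
      add_tsub_cancel_right, Units.val_one, FractionalIdeal.absNorm_one, Rat.cast_one,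
      ENNReal.ofReal_one, one_mul, mixedEmbedding.finrank,
      mixedEmbedding.volume_fundamentalDomain_latticeBasis, ENNReal.coe_mul, ENNReal.coe_pow,
      ENNReal.coe_ofNat]
    gcongr
    exact mul_le_of_le_one_left' (pow_le_one₀ (by positivity) (by simp))
  have h2 : ∀ c : ℝ≥0, 1 ≤ c → mixedEmbedding.minkowskiBound L ↑1 < c * B := fun c hc =>
    calc mixedEmbedding.minkowskiBound L 1 < B := h1
      _ = 1 * B := by rw [one_mul]
      _ ≤ c * B := by gcongr; exact mod_cast hc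
  obtain ⟨θ, hθ, hb⟩ : ∃ θ : 𝓞 L, ℚ⟮(θ : L)⟯ = ⊤ ∧ ∀ w : InfinitePlace L, w θ ≤ 1 + B := by
    rcases w₀.isReal_or_isComplex with h | h
    · obtain ⟨θ, hθ, hb⟩ := mixedEmbedding.exists_primitive_element_lt_of_isReal L h
        (h2 _ (mixedEmbedding.one_le_convexBodyLTFactor L))
      refine ⟨θ, hθ, fun w => (hb w).le.trans ?_⟩
      have := B.coe_nonneg
      push_cast
      exact max_le (by linarith) (by linarith)
    · obtain ⟨θ, hθ, hb⟩ := mixedEmbedding.exists_primitive_element_lt_of_isComplex L h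
        (h2 _ (mixedEmbedding.one_le_convexBodyLT'Factor L))
      exact ⟨θ, hθ, fun w => (hb w).le.trans
        (Real.sqrt_le_iff.2 ⟨by positivity, by nlinarith [B.coe_nonneg]⟩)⟩
  refine ⟨θ, hθ, fun ψ => ?_⟩
  have h3 := hb (InfinitePlace.mk ψ)
  rw [InfinitePlace.apply] at h3
  have hD : (1 : ℝ) ≤ |(discr L : ℝ)| := by
    rw [← Int.cast_abs]
    exact_mod_cast Int.one_le_abs (discr_ne_zero L)
  have h4 : (B : ℝ) ≤ |(discr L : ℝ)| * 2 ^ Module.finrank ℚ L + 1 := by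
    rw [hB]
    push_cast
    rw [Int.norm_eq_abs]
    gcongr
    exact Real.sqrt_le_iff.2 ⟨by positivity, by nlinarith⟩
  nlinarith

theorem red {R : Type} [CommRing R] (θ : R) (m : ℕ) (a : ℕ → ℤ) {C : ℤ} (ha : ∀ i, |a i| ≤ C)
    (h : θ ^ (m + 1) = ∑ i ∈ range (m + 1), (a i : R) * θ ^ i) (j : ℕ) :
    ∃ c : ℕ → ℤ, (∀ i, |c i| ≤ (1 + C) ^ j) ∧ θ ^ j = ∑ i ∈ range (m + 1), (c i : R) * θ ^ i := by
  induction j with
  | zero =>
    refine ⟨fun i => if i = 0 then 1 else 0, fun i => by by_cases h : i = 0 <;> simp [h], ?_⟩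
    simp
  | succ j ih =>
    obtain ⟨c, c1, c2⟩ := ih
    have h0 := (abs_nonneg _).trans (c1 0)
    refine ⟨fun i => (if i = 0 then 0 else c (i - 1)) + c m * a i, fun i => ?_, ?_⟩
    · have h1 : |if i = 0 then 0 else c (i - 1)| ≤ (1 + C) ^ j := by
        split_ifs
        · simpa using h0
        · exact c1 _
      have h2 : |c m * a i| ≤ (1 + C) ^ j * C := by
        rw [abs_mul]
        exact mul_le_mul (c1 m) (ha i) (abs_nonneg _) h0
      refine (abs_add_le _ _).trans ?_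
      rw [pow_succ]
      linarith
    · rw [pow_succ, c2, sum_range_succ, add_mul, mul_assoc, ← pow_succ, h]
      simp only [Int.cast_add, Int.cast_mul, add_mul, sum_add_distrib, mul_sum, mul_assoc, sum_mul]
      congr 1
      simp [sum_range_succ', pow_succ]

variable {N : Type} [Field N] [NumberField N]

omit [NumberField N] in
theorem lift {n : ℕ} (θ x : 𝓞 N) (c : Fin n → ℤ) :
    x = ∑ i, (c i : 𝓞 N) * θ ^ (i : ℕ) ↔ (x : N) = ∑ i, (c i : N) * (θ : N) ^ (i : ℕ) := by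
  rw [← RingOfIntegers.coe_injective.eq_iff]
  simp [map_sum]

theorem pw {n B : ℕ} {θ : 𝓞 N} (hn : Module.finrank ℚ N = n)
    (hd : (minpoly ℚ (θ : N)).natDegree = n) (hB : 1 ≤ B) (hθ : ∀ ψ : N →+* ℂ, ‖ψ θ‖ ≤ B) (j : ℕ) :
    ∃ c : Fin n → ℤ, (∀ i, |c i| ≤ (1 + (2 * B) ^ n) ^ j) ∧
      (θ : N) ^ j = ∑ i, (c i : N) * (θ : N) ^ (i : ℕ) := by
  have hx := θ.isIntegral_coe
  have e := minpoly.isIntegrallyClosed_eq_field_fractions' ℚ hx
  have hB1 : (1 : ℝ) ≤ B := by exact_mod_cast hB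
  obtain ⟨m, rfl⟩ : ∃ m, n = m + 1 := ⟨n - 1, by have := Module.finrank_pos (R := ℚ) (M := N); omega⟩
  rw [e, (minpoly.monic hx).natDegree_map] at hd
  obtain ⟨c, c1, c2⟩ := red (θ : N) m (fun i => -(minpoly ℤ (θ : N)).coeff i)
    (C := (2 * B) ^ (m + 1)) (fun i => by
      have h1 := Embeddings.coeff_bdd_of_norm_le hθ i
      have h2 : (((m + 1).choose ((m + 1) / 2) : ℕ) : ℝ) ≤ 2 ^ (m + 1) := by
        exact_mod_cast Nat.choose_le_two_pow _ _
      rw [e, coeff_map, eq_intCast, Int.norm_cast_rat, Int.norm_eq_abs, hn, max_eq_left hB1] at h1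
      have h3 : |((minpoly ℤ (θ : N)).coeff i : ℝ)| ≤ (2 * B) ^ (m + 1) := by
        rw [mul_pow, mul_comm]
        exact h1.trans (by gcongr)
      rw [abs_neg]
      exact_mod_cast h3) (by
      have h1 := minpoly.aeval ℤ (θ : N)
      have h2 : (minpoly ℤ (θ : N)).coeff (m + 1) = 1 := hd ▸ (minpoly.monic hx).coeff_natDegree
      rw [aeval_eq_sum_range, hd, sum_range_succ, h2, one_smul] at h1
      rw [eq_neg_of_add_eq_zero_right h1, ← sum_neg_distrib]
      simp) j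
  exact ⟨fun i => c i, fun i => c1 i,
    c2.trans (sum_range fun i => (c i : N) * (θ : N) ^ i)⟩

theorem disc {n B : ℕ} (pb : PowerBasis ℚ N) (hn : Module.finrank ℚ N = n) (hB : 1 ≤ B)
    (hθ : ∀ ψ : N →+* ℂ, ‖ψ pb.gen‖ ≤ B) {d : ℤ} (hd : (d : ℚ) = Algebra.discr ℚ pb.basis) :
    d.natAbs ≤ (2 * B) ^ (2 * n * n) := by
  have h1 : pb.dim = n := pb.finrank.symm.trans hn
  have e : Fin pb.dim ≃ (N →ₐ[ℚ] ℂ) := Fintype.equivOfCardEq (by simp [AlgHom.card, hn, h1])
  have h2 := congrArg norm (Algebra.discr_powerBasis_eq_prod ℚ ℂ pb e)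
  have hB1 : (1 : ℝ) ≤ 2 * B := by
    have : (1 : ℝ) ≤ B := by exact_mod_cast hB
    linarith
  have h3 : ∀ i j, ‖(e j pb.gen - e i pb.gen) ^ 2‖ ≤ (2 * B : ℝ) ^ 2 := fun i j => by
    have a1 := hθ (e j)
    have a2 := hθ (e i)
    rw [norm_pow]
    exact pow_le_pow_left₀ (norm_nonneg _) ((norm_sub_le _ _).trans (by
      rw [two_mul]; exact add_le_add a1 a2)) 2
  rw [← hd, map_intCast, Complex.norm_intCast, norm_prod] at h2
  have h4 : |(d : ℝ)| ≤ (2 * B) ^ (2 * n * n) := by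
    rw [h2, pow_mul, pow_mul]
    calc _ ≤ ∏ _i : Fin pb.dim, ((2 * B : ℝ) ^ 2) ^ n := prod_le_prod (fun _ _ => norm_nonneg _)
          fun i _ => by
            rw [norm_prod]
            refine (prod_le_prod (fun _ _ => norm_nonneg _) fun j _ => h3 i j).trans ?_
            rw [prod_const]
            exact pow_le_pow_right₀ (one_le_pow₀ hB1) ((card_le_univ _).trans (by simp [h1]))
      _ = _ := by simp [h1]
  rw [← Int.cast_abs, ← Nat.cast_natAbs] at h4
  exact_mod_cast h4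

theorem od {n B : ℕ} {θ : 𝓞 N} (hn : Module.finrank ℚ N = n) (ht : ℚ⟮(θ : N)⟯ = ⊤) (hB : 1 ≤ B)
    (hθ : ∀ ψ : N →+* ℂ, ‖ψ θ‖ ≤ B) :
    ∃ f, Od N n ((2 * B) ^ (2 * n * (n + 1))) f fun i => θ ^ (i : ℕ) := by
  have hx := θ.isIntegral_coe
  have hq : IsIntegral ℚ (θ : N) := IsIntegral.of_finite _ _
  have hd := ((Field.primitive_element_iff_minpoly_natDegree_eq ℚ _).1 ht).trans hn
  have hp := pw hn hd hB hθ
  let pb := PowerBasis.ofAdjoinEqTop hq (Algebra.adjoin_eq_top_of_primitive_element hq.isAlgebraic ht)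
  obtain ⟨d, e⟩ : ∃ d : ℤ, (d : ℚ) = Algebra.discr ℚ pb.basis :=
    IsIntegrallyClosed.isIntegral_iff.1 (Algebra.discr_isIntegral ℚ fun i => by
      rw [pb.basis_eq_pow]; exact hx.pow _)
  have b2 : 2 ≤ 2 * B := by omega
  refine ⟨d.natAbs, hn, fun c hc => ?_, fun φ i => ?_, fun i k => ?_, ?_, ?_, fun x => ?_⟩
  · have h1 := (lift θ 0 c).1 hc.symm
    subst hd
    have h2 := Fintype.linearIndependent_iff.1 (linearIndependent_pow (K := ℚ) (θ : N))
      (fun i => c i) (by simpa [Algebra.smul_def] using h1.symm)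
    exact funext fun i => by simpa using h2 i
  · have h1 : B ^ (i : ℕ) ≤ (2 * B) ^ (2 * n * (n + 1)) :=
      (Nat.pow_le_pow_left (by omega) _).trans (Nat.pow_le_pow_right (by omega) (by nlinarith [i.2]))
    have h2 : ‖φ ((θ ^ (i : ℕ) : 𝓞 N) : N)‖ = ‖φ θ‖ ^ (i : ℕ) := by simp
    rw [h2]
    exact (pow_le_pow_left₀ (norm_nonneg _) (hθ φ) _).trans (by exact_mod_cast h1)
  · obtain ⟨c, c1, c2⟩ := hp (i + k)
    refine ⟨c, fun j => (c1 j).trans ?_, (lift θ _ c).2 (by rw [← c2]; simp [pow_add])⟩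
    have h1 : 1 + (2 * B) ^ n ≤ (2 * B) ^ (n + 1) := by
      have := Nat.one_le_pow n (2 * B) (by omega)
      rw [pow_succ]
      nlinarith
    have h2 : (1 + (2 * B) ^ n) ^ ((i : ℕ) + k) ≤ (2 * B) ^ (2 * n * (n + 1)) := by
      rw [mul_comm (2 * n), pow_mul]
      exact (Nat.pow_le_pow_left h1 _).trans (Nat.pow_le_pow_right (by positivity) (by omega))
    exact_mod_cast h2
  · refine Int.natAbs_pos.2 fun h => Algebra.discr_not_zero_of_basis ℚ pb.basis ?_
    rw [← e, h, Int.cast_zero]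
  · exact (disc pb hn hB hθ e).trans (Nat.pow_le_pow_right (by omega) (by nlinarith))
  · have h1 := Algebra.discr_mul_isIntegral_mem_adjoin ℚ (B := pb) hx x.isIntegral_coe
    rw [Algebra.adjoin_singleton_eq_range_aeval] at h1
    obtain ⟨q, h2⟩ := h1
    choose c _ c2 using hp
    have h3 : (d : N) * x = ∑ j ∈ range (q.natDegree + 1), q.coeff j • (θ : N) ^ j := by
      rw [← aeval_eq_sum_range]
      refine Eq.trans ?_ h2.symm
      rw [← e, Algebra.smul_def, map_intCast]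
    refine ⟨fun i => d.sign * ∑ j ∈ range (q.natDegree + 1), q.coeff j * c j i, (lift θ _ _).2 ?_⟩
    have h4 : (((d.natAbs : 𝓞 N) * x : 𝓞 N) : N) = d.sign * ((d : N) * x) := by
      rw [← mul_assoc, ← Int.cast_mul, Int.sign_mul_self_eq_natAbs]
      simp
    rw [h4, h3, sum_congr rfl fun j _ => congrArg (q.coeff j • ·) (c2 j)]
    simp only [zsmul_eq_mul, mul_sum, Int.cast_sum, Int.cast_mul, sum_mul, mul_assoc]
    exact sum_comm

end Ord

theorem ord_thm : OrdStmt := by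
  refine fun n => ⟨(n + 3) * (2 * n * (n + 1)), fun N _ _ Q hn hQ => ?_⟩
  obtain ⟨θ, ht, hθ⟩ := Ord.small N
  have h0 : 0 < (discr N).natAbs := Int.natAbs_pos.2 (discr_ne_zero N)
  have e : ((discr N).natAbs : ℝ) = |(discr N : ℝ)| := by rw [Nat.cast_natAbs, Int.cast_abs]
  have h1 : (1 : ℝ) ≤ Q := le_trans (by rw [← e]; exact_mod_cast h0) hQ
  obtain ⟨f, hf⟩ := Ord.od (B := (2 + 2 ^ n) * (discr N).natAbs) hn ht
    (Nat.mul_pos (by positivity) h0) fun ψ => (hθ ψ).trans (by push_cast; rw [hn, ← e])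
  refine ⟨_, f, _, ?_, hf⟩
  have h2 : (1 : ℝ) ≤ 2 ^ n := one_le_pow₀ one_le_two
  have h3 : Q ≤ Q ^ (n + 3) := le_self_pow₀ h1 (by omega)
  rw [pow_mul (2 * Q), Nat.cast_pow, Nat.cast_mul, Nat.cast_mul, e]
  refine pow_le_pow_left₀ (by positivity) ?_ _
  rw [mul_pow, ← mul_assoc]
  refine mul_le_mul ?_ (hQ.trans h3) (abs_nonneg _) (by positivity)
  push_cast
  rw [pow_add]
  linarith

end Pool.Agent.Lib.MP_d6ddbd_nt.GG
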