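import Pool.Agent.Lib.MP_d6ddbd_nt.GG.St
import Pool.Agent.Lib.MP_ca56d1_nt.Recip

/-!
Quadratic reciprocity in the form used by the large sieve.
-/

set_option autoImplicit false

open NumberField Finset
open scoped nonZeroDivisors
open Pool.Agent.Stark
open Pool.Agent.Lib.MP_d6ddbd_nt.K11 (ab mem_ab' nsq)

noncomputable section

namespace Pool.Agent.Lib.MP_d6ddbd_nt.GG

namespace Rec

theorem sg_add (a b : ZMod 2) : sg (a + b) = sg a * sg b := by
  have h11 : (1 + 1 : ZMod 2) = 0 := by decide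
  rcases zmod2_cases a with rfl | rfl <;> rcases zmod2_cases b with rfl | rfl <;>
    simp [sg, h11]

theorem sg_sum {ι : Type} (s : Finset ι) (f : ι → ZMod 2) :
    ∏ i ∈ s, sg (f i) = sg (∑ i ∈ s, f i) := by
  classical
  induction s using Finset.induction_on with
  | empty => simp [sg]
  | insert i s hi ih => rw [prod_insert hi, sum_insert hi, sg_add, ih]

theorem abs_sg (a : ZMod 2) : |sg a| ≤ 1 := by
  unfold sg
  split_ifs <;> simp

theorem loc {k : Type*} [Field k] {w : Valuation k (WithZero (Multiplicative ℤ))} (L : IsLoc w)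
    (h4 : w 4 = 1) (a : k) {b c : k} (hb : w b = 1) (h : w (c - b) < 1) :
    w c = 1 ∧ hs a c = hs a b := by
  have hc : w c = 1 := by rw [w.map_eq_of_sub_lt (hb ▸ h), hb]
  have hb0 : b ≠ 0 := by rintro rfl; simp at hb
  have hc0 : c ≠ 0 := by rintro rfl; simp at hc
  refine ⟨hc, hs_congr_right a hc0 hb0 ?_⟩
  have h1 : IsSquare (c / b) := L.hens _ (by
    rw [show c / b - 1 = (c - b) / b by field_simp, map_div₀, hb, h4, div_one]
    exact h)
  obtain ⟨r, hr⟩ := h1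
  refine ⟨r * b, ?_⟩
  rw [show c = c / b * b by field_simp, hr]
  ring

variable {N : Type} [Field N] [NumberField N]

theorem wv_lt (q : Pr N) (x : 𝓞 N) : wv q (emb q (x : N)) < 1 ↔ x ∈ q.asIdeal := by
  rw [ComplAux.wv_emb]
  exact q.valuation_lt_one_iff_mem (K := N) x

theorem wv_eq (q : Pr N) (x : 𝓞 N) : wv q (emb q (x : N)) = 1 ↔ x ∉ q.asIdeal := by
  rw [ComplAux.wv_emb]
  exact q.valuation_eq_one_iff_notMem (K := N)

theorem og_zero (q : Pr N) {x : 𝓞 N} (hx : x ∉ q.asIdeal) : og q (x : N) = 0 := by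
  have h0 : x ≠ 0 := by rintro rfl; exact hx (zero_mem _)
  have h1 := og_pos_iff q h0
  have h2 := og_nonneg q x
  by_contra h
  exact hx (h1.1 (by omega))

theorem wv_two (q : Pr N) (h2 : (2 : 𝓞 N) ∉ q.asIdeal) : wv q (2 : Kc q) = 1 := by
  have h := (wv_eq q 2).2 h2
  rwa [show ((2 : 𝓞 N) : N) = 2 from rfl, map_ofNat] at h

theorem wv_four (q : Pr N) (h2 : (2 : 𝓞 N) ∉ q.asIdeal) : wv q (4 : Kc q) = 1 := by
  rw [show (4 : Kc q) = 2 * 2 by norm_num, map_mul, wv_two q h2, one_mul]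

omit [NumberField N] in
theorem two_notMem {M l : ℕ} (hl : l.Prime) (hM : ¬ l ∣ 2 * M) {q : Pr N}
    (hq : (l : 𝓞 N) ∈ q.asIdeal) : (2 : 𝓞 N) ∉ q.asIdeal := fun h2 => by
  have h : Nat.Coprime l 2 := (Nat.Prime.coprime_iff_not_dvd hl).2 fun h => hM (h.mul_right M)
  obtain ⟨a, b, hab⟩ := h.cast (R := 𝓞 N)
  refine q.isPrime.ne_top ((Ideal.eq_top_iff_one _).2 ?_)
  rw [← hab]
  exact add_mem (Ideal.mul_mem_left _ _ hq) (Ideal.mul_mem_left _ _ (by exact_mod_cast h2))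

open scoped Classical in
/-- The periodic part. -/
def per (l : ℕ) (γ : N) (x : 𝓞 N) : ℝ :=
  if ∀ q ∈ ab N l, x ∉ q.asIdeal then sg (∑ q ∈ ab N l, hq q γ (x : N)) else 0

/-- The multiplicity of a prime in an ideal. -/
def ct (q : Pr N) (𝔠 : Ideal (𝓞 N)) : ℤ :=
  FractionalIdeal.count N q (𝔠 : FractionalIdeal (𝓞 N)⁰ N)

/-- The contribution of the cofactor. -/
def ex (γ : N) (𝔠 : Ideal (𝓞 N)) : ZMod 2 := ∑ᶠ q : Pr N, (ct q 𝔠 : ZMod 2) * nsq q γ

theorem chi_per {M l : ℕ} (hl : l.Prime) (hM : ¬ l ∣ 2 * M) (γ : N) (x z : 𝓞 N) :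
    per l γ (x + l * z) = per l γ x := by
  have h1 : ∀ q ∈ ab N l, (l : 𝓞 N) * z ∈ q.asIdeal := fun q hq =>
    Ideal.mul_mem_right _ _ ((mem_ab' hl.ne_zero).1 hq)
  have h2 : (∀ q ∈ ab N l, x + l * z ∉ q.asIdeal) ↔ ∀ q ∈ ab N l, x ∉ q.asIdeal :=
    forall₂_congr fun q hq => not_congr (Ideal.add_mem_iff_left _ (h1 q hq))
  unfold per
  by_cases h : ∀ q ∈ ab N l, x ∉ q.asIdeal
  · rw [if_pos h, if_pos (h2.2 h)]
    refine congrArg sg (sum_congr rfl fun q hq => ?_)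
    refine (loc (isLoc_wv q) (wv_four q (two_notMem hl hM ((mem_ab' hl.ne_zero).1 hq))) _
      ((wv_eq q x).2 (h q hq)) ?_).2
    rw [← map_sub]
    have e : ((x + l * z : 𝓞 N) : N) - (x : N) = (((l : 𝓞 N) * z : 𝓞 N) : N) := by
      push_cast
      ring
    rw [e]
    exact (wv_lt q _).2 (h1 q hq)
  · rw [if_neg h, if_neg fun h' => h (h2.1 h')]

theorem exists_u {M l : ℕ} {γ : N} (hl : l.Prime) (hM : ¬ l ∣ 2 * M) (hγ : Gm M l γ) :
    ∃ u : 𝓞 N, (∀ q ∈ ab N l, u ∉ q.asIdeal) ∧ ∑ q ∈ ab N l, hq q γ (u : N) = 1 := by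
  classical
  obtain ⟨q0, hq0, hodd⟩ := hγ.od
  have hq0' : q0 ∈ ab N l := (mem_ab' hl.ne_zero).2 hq0
  have hn : ¬ Unr (wv q0) (emb q0 γ) := fun h => by
    have := (isLoc_wv q0).even_of_unr (by simpa using hγ.ne) h
    rw [ord_emb] at this
    exact Int.not_even_iff_odd.2 hodd this
  unfold Unr at hn
  push Not at hn
  obtain ⟨y0, hy0, hy1, hy2⟩ := hn
  set x : ∀ q : Pr N, Kc q := Function.update (fun _ => 1) q0 y0 with hx
  have hx1 : ∀ q, wv q (x q) = 1 := fun q => by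
    by_cases h : q = q0
    · subst h
      rw [hx, Function.update_self, val_eq_exp hy0, hy1]
      simp
    · rw [hx, Function.update_of_ne h, map_one]
  obtain ⟨y, h1, h2⟩ := approx_strong (ab N l) x 1
  have h3 : ∀ q ∈ ab N l, wv q (emb q y) = 1 ∧ hq q γ y = hs (emb q γ) (x q) := fun q hq =>
    loc (isLoc_wv q) (wv_four q (two_notMem hl hM ((mem_ab' hl.ne_zero).1 hq))) _ (hx1 q)
      (lt_of_le_of_lt (mem_pw.1 (h1 q hq)) (by
        rw [← WithZero.exp_zero, WithZero.exp_lt_exp]; norm_num))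
  obtain ⟨u, rfl⟩ := exists_int_of_og (x := y) fun q => by
    by_cases hq : q ∈ ab N l
    · rw [← ord_emb, ord, (h3 q hq).1]
      simp
    · exact h2 q hq
  refine ⟨u, fun q hq => (wv_eq q u).1 (h3 q hq).1, ?_⟩
  rw [sum_eq_single_of_mem q0 hq0' fun q hq hne => ?_]
  · rw [(h3 q0 hq0').2, hx, Function.update_self]
    exact (zmod2_cases _).resolve_left hy2
  · rw [(h3 q hq).2, hx, Function.update_of_ne hne]
    exact hs_of_isSquare_right _ IsSquare.one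

theorem coprime_of {l : ℕ} (hl : l ≠ 0) {u : 𝓞 N} (hu : ∀ q ∈ ab N l, u ∉ q.asIdeal) :
    IsCoprime u (l : 𝓞 N) := by
  by_contra h
  have h1 : Ideal.span {u, (l : 𝓞 N)} ≠ ⊤ := fun h1 => by
    have h2 : (1 : 𝓞 N) ∈ Ideal.span {u, (l : 𝓞 N)} := by rw [h1]; trivial
    exact h (Ideal.mem_span_pair.1 h2)
  obtain ⟨m, hm, hle⟩ := Ideal.exists_le_maximal _ h1
  have hl' : (l : 𝓞 N) ∈ m := hle (Ideal.subset_span (by simp))
  have hb : m ≠ ⊥ := by
    rintro rfl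
    exact hl (by exact_mod_cast Ideal.mem_bot.1 hl')
  exact hu ⟨m, hm.isPrime, hb⟩ ((mem_ab' hl).2 hl') (hle (Ideal.subset_span (by simp)))

theorem chi_mul {l : ℕ} {γ : N} (hγ : γ ≠ 0) {u : 𝓞 N} (hu : ∀ q ∈ ab N l, u ∉ q.asIdeal)
    (h1 : ∑ q ∈ ab N l, hq q γ (u : N) = 1) (x : 𝓞 N) : per l γ (u * x) = -per l γ x := by
  have h2 : (∀ q ∈ ab N l, u * x ∉ q.asIdeal) ↔ ∀ q ∈ ab N l, x ∉ q.asIdeal :=
    forall₂_congr fun q hq => not_congr ⟨fun h => (q.isPrime.mem_or_mem h).resolve_left (hu q hq),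
      fun h => Ideal.mul_mem_left _ _ h⟩
  unfold per
  by_cases h : ∀ q ∈ ab N l, x ∉ q.asIdeal
  · rw [if_pos h, if_pos (h2.2 h)]
    have h3 : ∀ q ∈ ab N l, hq q γ ((u * x : 𝓞 N) : N) = hq q γ (u : N) + hq q γ (x : N) := by
      intro q hq'
      have hu0 : u ≠ 0 := by rintro rfl; exact hu q hq' (zero_mem _)
      have hx0 : x ≠ 0 := by rintro rfl; exact h q hq' (zero_mem _)
      unfold hq
      rw [show ((u * x : 𝓞 N) : N) = (u : N) * (x : N) from rfl, map_mul]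
      exact (isLoc_wv q).hs_mul_right (by simpa using hγ) (by simpa using hu0) (by simpa using hx0)
    rw [sum_congr rfl h3, sum_add_distrib, h1, sg_add, show sg 1 = -1 by simp [sg], neg_one_mul]
  · rw [if_neg h, if_neg fun h' => h (h2.1 h'), neg_zero]

theorem hq_out {M l : ℕ} {γ : N} (hγ : Gm M l γ) (z : 𝓞 N) (h0 : (1 + 8 * M * z : 𝓞 N) ≠ 0)
    {q : Pr N} (hq' : (l : 𝓞 N) ∉ q.asIdeal) :
    hq q γ ((1 + 8 * M * z : 𝓞 N) : N) =
      (og q ((1 + 8 * M * z : 𝓞 N) : N) : ZMod 2) * nsq q γ := by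
  by_cases hM : (2 * M : 𝓞 N) ∈ q.asIdeal
  · have h1 : (2 * M * z : 𝓞 N) ∈ q.asIdeal := Ideal.mul_mem_right _ _ hM
    have h2 : (1 + 8 * M * z : 𝓞 N) ∉ q.asIdeal := fun h => by
      refine q.isPrime.ne_top ((Ideal.eq_top_iff_one _).2 ?_)
      rw [show (1 : 𝓞 N) = 1 + 8 * M * z - 4 * (2 * M * z) by ring]
      exact sub_mem h (Ideal.mul_mem_left _ _ h1)
    rw [og_zero q h2, Int.cast_zero, zero_mul]
    refine hs_of_isSquare_right _ ((isLoc_wv q).hens _ ?_)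
    have e : emb q ((1 + 8 * M * z : 𝓞 N) : N) - 1 = 4 * emb q ((2 * M * z : 𝓞 N) : N) := by
      rw [show (1 + 8 * M * z : 𝓞 N) = 1 + 4 * (2 * M * z) by ring,
        show ((1 + 4 * (2 * M * z) : 𝓞 N) : N) = 1 + 4 * ((2 * M * z : 𝓞 N) : N) from rfl,
        map_add, map_mul, map_one, map_ofNat]
      ring
    have h4 : wv q (4 : Kc q) ≠ 0 := by
      rw [show (4 : Kc q) = 2 * 2 by norm_num]
      simpa using (isLoc_wv q).two
    rw [e, map_mul]
    exact mul_lt_of_lt_one_right (zero_lt_iff.2 h4) ((wv_lt q _).2 h1)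
  · have h1 : ((2 * M * l : ℕ) : 𝓞 N) ∉ q.asIdeal := fun h => by
      push_cast at h
      exact (q.isPrime.mem_or_mem h).elim hM hq'
    have h2 : (2 : 𝓞 N) ∉ q.asIdeal := fun h => hM (Ideal.mul_mem_right _ _ h)
    have h3 : ord (wv q) (2 : Kc q) = 0 := by
      rw [ord, wv_two q h2]
      simp
    have hg : emb q γ ≠ 0 := by simpa using hγ.ne
    have h4 := (isLoc_wv q).unr_of_odd h3 hg (by rw [ord_emb]; exact hγ.ev q h1)
    generalize (1 + 8 * M * z : 𝓞 N) = x at h0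
    have h5 : emb q (x : N) ≠ 0 := by simpa using h0
    unfold hq nsq LSq
    rw [(isLoc_wv q).hs_of_unr hg h4 h5, ord_emb]
    split_ifs <;> simp

open scoped Classical in
theorem og_eq {a : ℕ} (τ : Fin a → Pr N) {x : 𝓞 N} {𝔠 : Ideal (𝓞 N)} (h0 : x ≠ 0) (hc : 𝔠 ≠ ⊥)
    (h : Ideal.span {x} = (∏ i, (τ i).asIdeal) * 𝔠) (q : Pr N) :
    og q (x : N) = ∑ i, (if τ i = q then 1 else 0) + ct q 𝔠 := by
  have e : ((∏ i, (τ i).asIdeal : Ideal (𝓞 N)) : FractionalIdeal (𝓞 N)⁰ N) =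
      ∏ i, ((τ i).asIdeal : FractionalIdeal (𝓞 N)⁰ N) :=
    map_prod (FractionalIdeal.coeIdealHom (𝓞 N)⁰ N) _ _
  have hτ : ∀ i, ((τ i).asIdeal : FractionalIdeal (𝓞 N)⁰ N) ≠ 0 := fun i =>
    FractionalIdeal.coeIdeal_ne_zero.2 (τ i).ne_bot
  rw [← ComplAux.count_span q (x := (x : N)) (by simpa using h0),
    RingOfIntegers.coe_eq_algebraMap, ← FractionalIdeal.coeIdeal_span_singleton, h,
    FractionalIdeal.coeIdeal_mul, e, FractionalIdeal.count_mul N q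
      (prod_ne_zero_iff.2 fun i _ => hτ i) (FractionalIdeal.coeIdeal_ne_zero.2 hc),
    FractionalIdeal.count_prod N q _ _ fun i _ => hτ i]
  simp only [FractionalIdeal.count_maximal, ct]

theorem notMem_of {M l a : ℕ} (hl : l.Prime) (τ : Fin a → Pr N) {x : 𝓞 N} {𝔠 : Ideal (𝓞 N)}
    (hτ : ∀ i, ((2 * M * l : ℕ) : 𝓞 N) ∉ (τ i).asIdeal)
    (h : Ideal.span {x} = (∏ i, (τ i).asIdeal) * 𝔠) (hn : ¬ l ∣ Ideal.absNorm 𝔠) {q : Pr N}
    (hq' : (l : 𝓞 N) ∈ q.asIdeal) : x ∉ q.asIdeal := fun hx => by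
  have h1 : (∏ i, (τ i).asIdeal) * 𝔠 ≤ q.asIdeal := by
    rw [← h]
    exact (Ideal.span_singleton_le_iff_mem _).2 hx
  rcases q.isPrime.mul_le.1 h1 with h2 | h2
  · obtain ⟨i, -, hi⟩ := q.isPrime.prod_le.1 h2
    refine hτ i ?_
    rw [(τ i).isMaximal.eq_of_le q.isPrime.ne_top hi]
    push_cast
    exact Ideal.mul_mem_left _ _ hq'
  · refine hn (Dvd.dvd.trans ?_ (Ideal.absNorm_dvd_absNorm_of_le h2))
    have h3 := Ideal.absNorm_dvd_absNorm_of_le ((Ideal.span_singleton_le_iff_mem _).2 hq')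
    rw [Ideal.absNorm_span_natCast] at h3
    obtain ⟨k, -, hk⟩ := (Nat.dvd_prime_pow hl).1 h3
    rcases k with _ | k
    · exact absurd (Ideal.absNorm_eq_one_iff.1 (by simpa using hk)) q.isPrime.ne_top
    · rw [hk]
      exact dvd_pow_self l k.succ_ne_zero

end Rec

open Rec in
theorem rec_thm : RecStmt := by
  classical
  intro N _ _ M l γ _ hl hM hγ
  obtain ⟨u, hu, hu1⟩ := exists_u hl hM hγ
  refine ⟨per l γ, fun 𝔠 => sg (ex γ 𝔠), u, fun x => ?_, fun _ => abs_sg _, chi_per hl hM γ,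
    coprime_of hl.ne_zero hu, chi_mul hγ.ne hu hu1, fun a τ z 𝔠 hτ hpos h hc hn => ?_⟩
  · unfold per
    split_ifs
    · exact abs_sg _
    · simp
  have h0 : (1 + 8 * M * z : 𝓞 N) ≠ 0 := fun h0 => by
    rw [h0, Ideal.span_singleton_eq_bot.2 rfl] at h
    exact mul_ne_zero (prod_ne_zero_iff.2 fun i _ => (τ i).ne_bot) hc h.symm
  have h0' : ((1 + 8 * M * z : 𝓞 N) : N) ≠ 0 := RingOfIntegers.coe_ne_zero_iff.2 h0
  have h1 : ∀ q ∈ ab N l, (1 + 8 * M * z : 𝓞 N) ∉ q.asIdeal := fun q hq' =>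
    notMem_of hl τ hτ h hn ((mem_ab' hl.ne_zero).1 hq')
  have key : ∀ q : Pr N, hq q γ ((1 + 8 * M * z : 𝓞 N) : N) =
      (if q ∈ ab N l then hq q γ ((1 + 8 * M * z : 𝓞 N) : N) else 0) +
        (∑ i, (if τ i = q then nsq q γ else 0) + (ct q 𝔠 : ZMod 2) * nsq q γ) := fun q => by
    have e : (og q ((1 + 8 * M * z : 𝓞 N) : N) : ZMod 2) * nsq q γ =
        ∑ i, (if τ i = q then nsq q γ else 0) + (ct q 𝔠 : ZMod 2) * nsq q γ := by
      rw [og_eq τ h0 hc h q]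
      push_cast
      rw [add_mul, sum_mul]
      simp only [ite_mul, one_mul, zero_mul]
    rw [← e]
    split_ifs with hq'
    · rw [og_zero q (h1 q hq'), Int.cast_zero, zero_mul, add_zero]
    · rw [zero_add]
      exact hq_out hγ z h0 fun hh => hq' ((mem_ab' hl.ne_zero).2 hh)
  have hf : {q : Pr N | ¬ ct q 𝔠 = 0}.Finite :=
    Filter.eventually_cofinite.1 (FractionalIdeal.finite_factors _)
  set P : Finset (Pr N) := ab N l ∪ univ.image τ ∪ hf.toFinset with hP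
  have hr := reciprocity hγ.ne h0' P fun q hq' => by
    simp only [hP, mem_union, mem_image, mem_univ, true_and, Set.Finite.mem_toFinset,
      Set.mem_ofPred_eq, not_or, not_exists, not_not] at hq'
    rw [key q, if_neg hq'.1.1, hq'.2]
    simp [hq'.1.2]
  have e1 : ∑ φ : N →+* ℝ, hs (φ γ) (φ ((1 + 8 * M * z : 𝓞 N) : N)) = 0 :=
    sum_eq_zero fun φ _ => by
      rw [hs_real ((map_ne_zero φ).2 hγ.ne) (hpos φ).ne', if_neg fun hh => (hpos φ).not_gt hh.2]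
  have e2 : ∑ q ∈ P, (if q ∈ ab N l then hq q γ ((1 + 8 * M * z : 𝓞 N) : N) else 0) =
      ∑ q ∈ ab N l, hq q γ ((1 + 8 * M * z : 𝓞 N) : N) := by
    rw [sum_ite_mem, inter_eq_right.2 (subset_union_left.trans subset_union_left)]
  have e3 : ∑ q ∈ P, ∑ i, (if τ i = q then nsq q γ else 0) = ∑ i, nsq (τ i) γ := by
    rw [sum_comm]
    refine sum_congr rfl fun i _ => ?_
    rw [sum_ite_eq, if_pos (mem_union_left _ (mem_union_right _ (mem_image_of_mem τ (mem_univ i))))]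
  have e4 : ∑ q ∈ P, (ct q 𝔠 : ZMod 2) * nsq q γ = ex γ 𝔠 := by
    refine (finsum_eq_sum_of_support_subset _ fun q hq' => ?_).symm
    refine mem_coe.2 (mem_union_right _ (hf.mem_toFinset.2 fun hh => hq' ?_))
    simp [hh]
  rw [e1, zero_add, sum_congr rfl fun q _ => key q, sum_add_distrib, sum_add_distrib, e2, e3,
    e4] at hr
  have fin : ∀ s t r : ZMod 2, s + (t + r) = 0 → t = r + s := by decide
  rw [sg_sum, fin _ _ _ hr, sg_add, per, if_pos h1]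

end Pool.Agent.Lib.MP_d6ddbd_nt.GG
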