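import Pool.Agent.Lib.MP_d6ddbd_nt.GG.St

/-! Complete sums of an odd periodic function vanish. -/

set_option autoImplicit false

open NumberField Finset

namespace Pool.Agent.Lib.MP_d6ddbd_nt.GG

theorem sum_thm : SumStmt := by
  classical
  intro N _ _ n W f ω l K χ u h od hl hK hper hu hodd
  set I : Ideal (𝓞 N) := Ideal.span {(l : 𝓞 N)} with hI
  have hc : Nat.card (𝓞 N ⧸ I) = l ^ n := by
    rw [← Submodule.cardQuot_apply, ← Ideal.absNorm_apply, hI, Ideal.absNorm_span_natCast,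
      RingOfIntegers.rank, od.rk]
  have hfin : Finite (𝓞 N ⧸ I) := Nat.finite_of_card_ne_zero (by
    rw [hc]; exact pow_ne_zero _ hl.ne_zero)
  let _ : Fintype (𝓞 N ⧸ I) := Fintype.ofFinite _
  have heq : ∀ x y : 𝓞 N, Ideal.Quotient.mk I x = Ideal.Quotient.mk I y → χ x = χ y := by
    intro x y e
    obtain ⟨z, hz⟩ := Ideal.mem_span_singleton'.1 (Ideal.Quotient.eq.1 e)
    rw [show x = y + l * z by linear_combination -hz, hper]
  let ψ : 𝓞 N ⧸ I → ℝ := fun q => χ (Function.surjInv Ideal.Quotient.mk_surjective q)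
  have hψ : ∀ x, ψ (Ideal.Quotient.mk I x) = χ x := fun x =>
    heq _ _ (Function.surjInv_eq Ideal.Quotient.mk_surjective _)
  let Φ : (Fin n → ℕ) → 𝓞 N ⧸ I := fun t => Ideal.Quotient.mk I (h + K * ∑ i, (t i : 𝓞 N) * ω i)
  have hl0 : (0 : ℤ) < l := by exact_mod_cast hl.pos
  have hsur : Set.SurjOn Φ (box n l) (univ : Finset (𝓞 N ⧸ I)) := by
    intro q _
    obtain ⟨x, rfl⟩ := Ideal.Quotient.mk_surjective q
    obtain ⟨a, b, hab⟩ := Nat.isCoprime_iff_coprime.2 ((Nat.Prime.coprime_iff_not_dvd hl).2 hK)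
    obtain ⟨c, hcx⟩ := od.den (x - h)
    refine ⟨fun i => ((b * c i) % l).toNat, ?_, ?_⟩
    · refine mem_coe.2 (Fintype.mem_piFinset.2 fun i => mem_range.2 ?_)
      have h1 := Int.emod_lt_of_pos (b * c i) hl0
      have h2 := Int.emod_nonneg (b * c i) hl0.ne'
      omega
    · refine Ideal.Quotient.eq.2 (Ideal.mem_span_singleton'.2
        ⟨-(a * (x - h)) - K * ∑ i, ((b * c i / l : ℤ) : 𝓞 N) * ω i, ?_⟩)
      have e1 : ∀ i, ((((b * c i) % l).toNat : ℕ) : 𝓞 N) * ω i =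
          b * (c i * ω i) - l * (((b * c i / l : ℤ) : 𝓞 N) * ω i) := fun i => by
        have h2 : (((b * c i) % l).toNat : ℤ) = b * c i - l * (b * c i / l) := by
          rw [Int.toNat_of_nonneg (Int.emod_nonneg _ hl0.ne'), Int.emod_def]
        have h3 := congrArg (Int.cast : ℤ → 𝓞 N) h2
        rw [Int.cast_natCast] at h3
        rw [h3]
        push_cast
        ring
      have e2 : (a : 𝓞 N) * l + b * (K * f) = 1 := by exact_mod_cast congrArg (Int.cast : ℤ → 𝓞 N) hab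
      simp only [e1, sum_sub_distrib, ← mul_sum]
      rw [← hcx]
      linear_combination (-(x - h)) * e2
  have hcard : #(box n l) ≤ #(univ : Finset (𝓞 N ⧸ I)) := by
    rw [card_univ, ← Nat.card_eq_fintype_card, hc]
    simp [box]
  have hinj := injOn_of_surjOn_of_card_le Φ (fun _ _ => mem_coe.2 (mem_univ _)) hsur hcard
  have h1 : ∑ t ∈ box n l, χ (h + K * ∑ i, (t i : 𝓞 N) * ω i) = ∑ q, ψ q :=
    sum_nbij Φ (fun _ _ => mem_univ _) hinj hsur fun t _ => (hψ _).symm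
  obtain ⟨a, b, hab⟩ := hu
  have hun : IsUnit (Ideal.Quotient.mk I u) := IsUnit.of_mul_eq_one (Ideal.Quotient.mk I a) (by
    rw [← map_mul, ← map_one (Ideal.Quotient.mk I)]
    exact Ideal.Quotient.eq.2 (Ideal.mem_span_singleton'.2 ⟨-b, by linear_combination -hab⟩))
  have h2 : ∑ q, ψ (hun.unit.mulLeft q) = ∑ q, ψ q := Equiv.sum_comp hun.unit.mulLeft ψ
  have h3 : ∀ q, ψ (hun.unit.mulLeft q) = -ψ q := fun q => by
    obtain ⟨x, rfl⟩ := Ideal.Quotient.mk_surjective q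
    show ψ (Ideal.Quotient.mk I (u * x)) = _
    rw [hψ, hψ, hodd]
  simp only [h3, sum_neg_distrib] at h2
  rw [h1]
  linarith

end Pool.Agent.Lib.MP_d6ddbd_nt.GG
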