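import Pool.Agent.Lib.MP_d6ddbd_nt.GG.Box
import Pool.Agent.Lib.MP_d6ddbd_nt.GG.Dict
import Pool.Agent.Lib.MP_d6ddbd_nt.GG.Disc
import Pool.Agent.Lib.MP_d6ddbd_nt.GG.El
import Pool.Agent.Lib.MP_d6ddbd_nt.GG.Fix
import Pool.Agent.Lib.MP_d6ddbd_nt.GG.Hold
import Pool.Agent.Lib.MP_d6ddbd_nt.GG.Ls
import Pool.Agent.Lib.MP_d6ddbd_nt.GG.LsG
import Pool.Agent.Lib.MP_d6ddbd_nt.GG.Mom
import Pool.Agent.Lib.MP_d6ddbd_nt.GG.Ord
import Pool.Agent.Lib.MP_d6ddbd_nt.GG.Par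
import Pool.Agent.Lib.MP_d6ddbd_nt.GG.Rec
import Pool.Agent.Lib.MP_d6ddbd_nt.GG.Sum
import Pool.Agent.Lib.MP_d6ddbd_nt.KI.Bas

/-!
The large sieve inequalities assembled.
-/

set_option autoImplicit false

namespace Pool.Agent.Lib.MP_d6ddbd_nt.GG

theorem lsAll : LsStmt :=
  ls_thm hold_thm ord_thm (mom_thm box_thm el_thm id_thm rec_thm sum_thm) par_thm

theorem discAll : DiscStmt := disc_thm K11.v1_thm

theorem lsgAll : LsG := lsg_thm KI.vA lsAll discAll (fix_thm KI.vA) (dict_thm KI.vA)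

end Pool.Agent.Lib.MP_d6ddbd_nt.GG
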