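import Pool.Agent.Lib.MP_d6ddbd_nt.KI.Bas
import Pool.Agent.Lib.MP_d6ddbd_nt.KI.Cm
import Pool.Agent.Lib.MP_d6ddbd_nt.KI.Cnt
import Pool.Agent.Lib.MP_d6ddbd_nt.KI.Dk
import Pool.Agent.Lib.MP_d6ddbd_nt.K11.AllX
import Pool.Agent.Lib.MP_d6ddbd_nt.K11.Final

/-!
Finiteness of the Selmer groups, and the bound from two divisible classes.
-/

set_option autoImplicit false

open Pool.Agent.Stark (cl)
open Pool.Agent.Lib.MP_d6ddbd_nt.K11 Pool.Agent.Lib.MP_d6ddbd_nt.KI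

noncomputable section

namespace Pool.Agent.Lib.MP_d6ddbd_nt.GG

variable {c : ℤ}

theorem finSel (hd : Fam c) : FinSel c := by
  classical
  obtain ⟨L, _, _, θ, hθ⟩ := Final.exists_cub
  have hf : Module.Finite (ZMod 2) (WS L c ∅) := ((lAll L θ hθ c hd).2.2 ∅ (by simp)).2.2.1
  have : Finite (WS L c ∅) := Module.finite_of_finite (ZMod 2)
  have key : ∀ w : WS L c ∅, ∃ y, ∀ x α, Sel c 1 ∅ x → α ≠ 0 → Kum θ α x → cl α = w →
      Cb c (x - y) := fun w => by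
    by_cases h : ∃ y β, Sel c 1 ∅ y ∧ β ≠ 0 ∧ Kum θ β y ∧ cl β = w
    · obtain ⟨y, β, a, b, e, f⟩ := h
      refine ⟨y, fun x α a' b' e' f' => ?_⟩
      have := (cb_cob_iff (c := c) (a'.add a).two).2 (((kumAll L θ hθ).2 _ _ (mul_ne_zero b' b)
        (a'.add a).coc (Cm.kum_mul pr_thm hθ b' b a'.coc a.coc e' e)).1
          ((Stark.cl_eq_cl b' b).1 (f'.trans f.symm)))
      rwa [sub_eq_add_neg, show -y = y from funext fun σ => Ep.neg_two (a.two σ)]
    · exact ⟨0, fun x α a b e f => absurd ⟨x, α, a, b, e, f⟩ h⟩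
  choose y hy using key
  refine ⟨(Set.finite_range y).toFinset, fun x hx => ?_⟩
  obtain ⟨α, a, b, e⟩ := (kumAll L θ hθ).1 x hx.coc
  have h := (dk_thm L θ hθ c ∅ α x hd (by simp) (by simp) (by simp) a b hx.coc e hx.kl).1
  exact ⟨y ⟨cl α, Submodule.subset_span ⟨α, h, rfl⟩⟩, by simp, hy _ x α hx a e rfl⟩

theorem cover {k j : ℕ} (s t : Finset (G → Pt)) (hs : ∀ x, Sel c j ∅ x → ∃ y ∈ s, Cb c (x - y))
    (ht : ∀ x, Sel c k ∅ x → ∃ y ∈ t, Cb c (2 ^ j • x - y)) :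
    ∃ w : Finset (G → Pt), w.card ≤ t.card * s.card ∧
      ∀ x, Sel c k ∅ x → ∃ y ∈ w, Cb c (x - y) := by
  classical
  have key : ∀ y, ∃ z, Sel c k ∅ z ∧ ∀ x, Sel c k ∅ x → Cb c (2 ^ j • x - y) →
      Cb c (2 ^ j • (x - z)) := fun y => by
    by_cases h : ∃ z, Sel c k ∅ z ∧ Cb c (2 ^ j • z - y)
    · obtain ⟨z, a, b⟩ := h
      exact ⟨z, a, fun x _ e => (e.sub b).of_eq (by rw [nsmul_sub, sub_sub_sub_cancel_right])⟩
    · exact ⟨0, sel_zero c k ∅, fun x a b => absurd ⟨x, a, b⟩ h⟩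
  choose z h1 h2 using key
  refine ⟨(t ×ˢ s).image fun a => z a.1 + a.2, Finset.card_image_le.trans (by simp),
    fun x hx => ?_⟩
  obtain ⟨y, a, b⟩ := ht x hx
  obtain ⟨x', e1, -, e2⟩ := (hx.sub (h1 y)).lift (tv_empty k) (h2 y x hx b)
  obtain ⟨y', a', b'⟩ := hs x' e1
  exact ⟨_, Finset.mem_image.2 ⟨(y, y'), Finset.mem_product.2 ⟨a, a'⟩, rfl⟩,
    (e2.add b').of_eq (by simp only; abel)⟩

theorem fin_level (hf : FinSel c) (j : ℕ) :
    ∃ s : Finset (G → Pt), ∀ x, Sel c j ∅ x → ∃ y ∈ s, Cb c (x - y) := by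
  induction j with
  | zero => exact ⟨{0}, fun x hx => ⟨0, by simp, by simpa using cb_tor hx.cy.tor c⟩⟩
  | succ j ih =>
    obtain ⟨s, hs⟩ := ih
    obtain ⟨t, ht⟩ := hf
    obtain ⟨w, -, h⟩ := cover (k := j + 1) s t hs fun x hx => ht _ hx.pow
    exact ⟨w, h⟩

theorem bd_of_two (hf : FinSel c) {j : ℕ} (h : Two c j) : Bd c := by
  classical
  obtain ⟨s, hs⟩ := fin_level hf j
  obtain ⟨z, h1, h2⟩ := cnt_thm.2.1 c j s.card h
  obtain ⟨w, h3, h4⟩ := cover (k := s.card) s ((Finset.range (2 ^ s.card)).image fun u => u • z) hs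
    fun x hx => by
      obtain ⟨u, v, e⟩ := h2 x hx
      have p : (0 : ℤ) < 2 ^ s.card := by positivity
      refine ⟨_, Finset.mem_image.2 ⟨(u % 2 ^ s.card).toNat, Finset.mem_range.2 ?_, rfl⟩, ?_⟩
      · have := Int.emod_lt_of_pos u p
        zify
        rwa [Int.toNat_of_nonneg (Int.emod_nonneg u p.ne')]
      · refine (e.add ((cb_tor h1.cy.tor c).z (u / 2 ^ s.card))).of_eq ?_
        rw [← natCast_zsmul z (u % 2 ^ s.card).toNat, Int.toNat_of_nonneg (Int.emod_nonneg u p.ne'),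
          Int.emod_def, ← natCast_zsmul z]
        push_cast
        module
  refine ⟨s.card, fun t a b => ?_⟩
  choose! y y1 y2 using fun x (hx : x ∈ t) => h4 x (a x hx)
  have h5 : t.card ≤ w.card := Finset.card_le_card_of_injOn y y1 fun x hx x' hx' e =>
    b x hx x' hx' (((y2 x hx).sub (y2 x' hx')).of_eq (by rw [e, sub_sub_sub_cancel_right]))
  have h6 := Nat.mul_le_mul_right s.card (Finset.card_image_le (s := Finset.range (2 ^ s.card))
    (f := fun u => u • z))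
  rw [Finset.card_range] at h6
  refine (h5.trans (h3.trans h6)).trans_lt ?_
  rw [show 4 ^ s.card = 2 ^ s.card * 2 ^ s.card by rw [← mul_pow]; rfl]
  exact Nat.mul_lt_mul_of_pos_left Nat.lt_two_pow_self (by positivity)

/-- In the family the bound follows from two divisible classes. -/
theorem bd_fam (hd : Fam c) {j : ℕ} (h : Two c j) : Bd c := bd_of_two (finSel hd) h

end Pool.Agent.Lib.MP_d6ddbd_nt.GG
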