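import Pool.Agent.Lib.MP_d6ddbd_nt.GG.St

/-!
Moments of a sum of periodic functions of mean zero over a cube.
-/

set_option autoImplicit false

open Finset

namespace Pool.Agent.Lib.MP_d6ddbd_nt.GG

namespace Box

variable {n : ℕ}

/-- The function only depends on the coordinates modulo `N`. -/
def Per (N : ℕ) (F : (Fin n → ℕ) → ℝ) : Prop :=
  ∀ t t', (∀ i, t i ≡ t' i [MOD N]) → F t = F t'

lemma Per.of_dvd {N N' : ℕ} {F : (Fin n → ℕ) → ℝ} (h : Per N F) (d : N ∣ N') : Per N' F :=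
  fun t t' e => h t t' fun i => (e i).of_dvd d

lemma mem_box {N : ℕ} {t : Fin n → ℕ} : t ∈ box n N ↔ ∀ i, t i < N := by
  simp only [box, Fintype.mem_piFinset, mem_range]

lemma card_box (N : ℕ) : (box n N).card = N ^ n := by
  simp only [box, Fintype.card_piFinset, card_range, prod_const, card_univ, Fintype.card_fin]

lemma perm {N : ℕ} {F : (Fin n → ℕ) → ℝ} (hF : Per N F) (φ : Fin n → ℕ → ℕ)
    (hφ : ∀ i a b, φ i a ≡ φ i b [MOD N] → a ≡ b [MOD N]) :
    ∑ t ∈ box n N, F (fun i => φ i (t i)) = ∑ t ∈ box n N, F t := by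
  classical
  have inj : Set.InjOn (fun (t : Fin n → ℕ) i => φ i (t i) % N) (box n N) := fun t ht t' ht' e =>
    funext fun i => (hφ i _ _ (congrFun e i)).eq_of_lt_of_lt (mem_box.1 ht i) (mem_box.1 ht' i)
  have im : (box n N).image (fun (t : Fin n → ℕ) i => φ i (t i) % N) = box n N := by
    refine eq_of_subset_of_card_le (fun x hx => ?_) (card_image_of_injOn inj).ge
    obtain ⟨t, ht, rfl⟩ := mem_image.1 hx
    exact mem_box.2 fun i => Nat.mod_lt _ (Nat.zero_lt_of_lt (mem_box.1 ht i))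
  conv_rhs => rw [← im, sum_image inj]
  exact sum_congr rfl fun t _ => hF _ _ fun i => (Nat.mod_modEq _ _).symm

lemma van {l P N : ℕ} {g F : (Fin n → ℕ) → ℝ} (hl : 0 < l) (hc : l.Coprime P) (hg : Per l g)
    (h0 : ∑ t ∈ box n l, g t = 0) (hF : Per P F) (dl : l ∣ N) (dP : P ∣ N) :
    ∑ t ∈ box n N, g t * F t = 0 := by
  have p : Per N fun t => g t * F t := fun t t' e =>
    congrArg₂ (· * ·) (hg.of_dvd dl t t' e) (hF.of_dvd dP t t' e)
  have e1 : ∀ s : Fin n → ℕ, ∑ t ∈ box n N, g t * F t =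
      ∑ t ∈ box n N, g (fun i => t i + P * s i) * F t := fun s => by
    rw [← perm p (fun i a => a + P * s i) fun i a b h => Nat.ModEq.add_right_cancel' _ h]
    refine sum_congr rfl fun t _ => congrArg _ (hF _ _ fun i => ?_)
    exact (Nat.add_mul_mod_self_left _ _ _)
  have e2 : ∀ t : Fin n → ℕ, ∑ s ∈ box n l, g (fun i => t i + P * s i) = 0 := fun t =>
    (perm hg (fun i a => t i + P * a) fun i a b h =>
      Nat.ModEq.cancel_left_of_coprime hc (Nat.ModEq.add_left_cancel' _ h)).trans h0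
  have e3 : ∑ _s ∈ box n l, ∑ t ∈ box n N, g t * F t = 0 := by
    rw [sum_congr rfl fun s _ => e1 s, sum_comm]
    exact sum_eq_zero fun t _ => by rw [← sum_mul, e2, zero_mul]
  rw [sum_const, card_box, nsmul_eq_mul] at e3
  exact (mul_eq_zero.1 e3).resolve_left (Nat.cast_ne_zero.2 (pow_pos hl n).ne')

lemma rest {H N q : ℕ} {F : (Fin n → ℕ) → ℝ} (h1 : ∀ t, |F t| ≤ 1) (hN : N ≤ H) (hq : H ≤ N + q)
    (h0 : ∑ t ∈ box n N, F t = 0) : ∑ t ∈ box n H, F t ≤ n * q * (H : ℝ) ^ (n - 1) := by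
  classical
  have sub : box n N ⊆ box n H := fun t ht => mem_box.2 fun i => (mem_box.1 ht i).trans_le hN
  rw [← sum_sdiff sub, h0, add_zero]
  refine (sum_le_card_nsmul _ _ 1 fun t _ => (le_abs_self _).trans (h1 t)).trans ?_
  rw [card_sdiff_of_subset sub, card_box, card_box, nsmul_eq_mul, mul_one,
    Nat.cast_sub (Nat.pow_le_pow_left hN n), Nat.cast_pow, Nat.cast_pow]
  have hN' : (N : ℝ) ≤ H := Nat.cast_le.2 hN
  have hq' : (H : ℝ) ≤ N + q := by exact_mod_cast hq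
  refine (le_abs_self _).trans ((abs_pow_sub_pow_le _ _ n).trans ?_)
  rw [abs_of_nonneg (sub_nonneg.2 hN'), Nat.abs_cast, Nat.abs_cast, max_eq_left hN']
  have : (H : ℝ) - N ≤ q := by linarith
  calc ((H : ℝ) - N) * n * H ^ (n - 1) ≤ q * n * H ^ (n - 1) := by gcongr
    _ = _ := by ring

lemma good {k H Z : ℕ} {g : ℕ → (Fin n → ℕ) → ℝ} {κ : Fin k → ℕ}
    (h : ∀ i, (κ i).Prime ∧ κ i ≤ Z ∧ (∀ t, |g (κ i) t| ≤ 1) ∧ Per (κ i) (g (κ i)) ∧
      ∑ t ∈ box n (κ i), g (κ i) t = 0) {i₀ : Fin k} (hi : ∀ i, i ≠ i₀ → κ i ≠ κ i₀) :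
    ∑ t ∈ box n H, ∏ i, g (κ i) t ≤ n * (Z : ℝ) ^ k * (H : ℝ) ^ (n - 1) := by
  classical
  have pos : 0 < ∏ i, κ i := prod_pos fun i _ => (h i).1.pos
  have le : ∏ i, κ i ≤ Z ^ k := by
    simpa only [card_univ, Fintype.card_fin] using
      prod_le_pow_card univ κ Z fun i _ => (h i).2.1
  have a1 : ∀ t, |∏ i, g (κ i) t| ≤ 1 := fun t => by
    rw [abs_prod]
    exact prod_le_one (fun _ _ => abs_nonneg _) fun i _ => (h i).2.2.1 t
  have := rest (H := H) (N := (∏ i, κ i) * (H / ∏ i, κ i)) (q := Z ^ k) a1 (Nat.mul_div_le _ _)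
    ((Nat.div_add_mod H _).ge.trans (Nat.add_le_add_left ((Nat.mod_lt _ pos).le.trans le) _)) (by
      simp only [← mul_prod_erase univ (fun i => g (κ i) _) (mem_univ i₀)]
      refine van (P := ∏ i ∈ univ.erase i₀, κ i) (h i₀).1.pos ?_ (h i₀).2.2.2.1 (h i₀).2.2.2.2 ?_
        ((dvd_prod_of_mem κ (mem_univ i₀)).mul_right _)
        ((prod_dvd_prod_of_subset _ _ κ (erase_subset _ _)).mul_right _)
      · exact Nat.Coprime.prod_right fun i m =>
          (Nat.coprime_primes (h i₀).1 (h i).1).2 (hi i (ne_of_mem_erase m)).symm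
      · exact fun t t' e => prod_congr rfl fun i m =>
          (h i).2.2.2.1.of_dvd (dvd_prod_of_mem κ m) t t' e)
  rwa [Nat.cast_pow] at this

lemma bad {m : ℕ} (hm : 0 < m) {κ : Fin (2 * m) → ℕ} (h : ∀ i₀, ∃ i, i ≠ i₀ ∧ κ i = κ i₀) :
    ∃ (v : Fin (2 * m) → Fin m) (u : Fin m → ℕ), (∀ j, ∃ i, u j = κ i) ∧ κ = u ∘ v := by
  classical
  have c := mul_card_image_le_card (f := κ) univ 2 fun b hb => by
    obtain ⟨i₀, -, rfl⟩ := mem_image.1 hb
    obtain ⟨i, n, e⟩ := h i₀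
    exact one_lt_card.2 ⟨i, by simp [e], i₀, by simp, n⟩
  rw [card_univ, Fintype.card_fin] at c
  obtain ⟨e⟩ := Function.Embedding.nonempty_of_card_le (α := univ.image κ) (β := Fin m) (by
    rw [Fintype.card_coe, Fintype.card_fin]
    omega)
  have : Nonempty (univ.image κ) := ⟨⟨κ ⟨0, by omega⟩, mem_image_of_mem _ (mem_univ _)⟩⟩
  refine ⟨fun i => e ⟨κ i, mem_image_of_mem _ (mem_univ _)⟩, fun j => (Function.invFun e j).1,
    fun j => ?_, funext fun i => ?_⟩
  · obtain ⟨i, -, hi⟩ := mem_image.1 (Function.invFun e j).2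
    exact ⟨i, hi.symm⟩
  · exact (congrArg Subtype.val (Function.leftInverse_invFun e.injective
      ⟨κ i, mem_image_of_mem _ (mem_univ _)⟩)).symm

end Box

open Box in
theorem box_thm : BoxStmt := by
  classical
  intro n m H Z J g _ hm h
  simp only [sum_pow']
  rw [sum_comm]
  set S := Fintype.piFinset fun _ : Fin (2 * m) => J with hS
  set B := S.filter fun κ => ∀ i₀, ∃ i, i ≠ i₀ ∧ κ i = κ i₀ with hB
  have cS : S.card = J.card ^ (2 * m) := by
    simp only [hS, Fintype.card_piFinset, prod_const, card_univ, Fintype.card_fin]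
  have cB : B.card ≤ m ^ (2 * m) * J.card ^ m := by
    have : B ⊆ ((univ : Finset (Fin (2 * m) → Fin m)) ×ˢ Fintype.piFinset fun _ : Fin m => J).image
        fun p => p.2 ∘ p.1 := fun κ hκ => by
      obtain ⟨h1, h2⟩ := mem_filter.1 hκ
      obtain ⟨v, u, hu, e⟩ := bad hm h2
      refine mem_image.2 ⟨(v, u), mem_product.2 ⟨mem_univ _, Fintype.mem_piFinset.2 fun j => ?_⟩,
        e.symm⟩
      obtain ⟨i, hi⟩ := hu j
      exact (hi ▸ Fintype.mem_piFinset.1 h1 i : u j ∈ J)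
    refine (card_le_card this).trans (card_image_le.trans ?_)
    simp only [card_product, card_univ, Fintype.card_fun, Fintype.card_fin, Fintype.card_piFinset,
      prod_const, le_refl]
  have key : ∀ κ ∈ S, ∑ t ∈ box n H, ∏ i, g (κ i) t ≤
      (if ∀ i₀, ∃ i, i ≠ i₀ ∧ κ i = κ i₀ then (H : ℝ) ^ n else 0) +
        n * (Z : ℝ) ^ (2 * m) * (H : ℝ) ^ (n - 1) := fun κ hκ => by
    have hk := fun i => h (κ i) (Fintype.mem_piFinset.1 hκ i)
    split_ifs with c
    · refine le_add_of_le_of_nonneg ?_ (by positivity)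
      refine (sum_le_card_nsmul _ _ 1 fun t _ => (le_abs_self _).trans ?_).trans ?_
      · rw [abs_prod]
        exact prod_le_one (fun _ _ => abs_nonneg _) fun i _ => (hk i).2.2.1 t
      · rw [card_box, nsmul_eq_mul, mul_one, Nat.cast_pow]
    · push Not at c
      obtain ⟨i₀, hi⟩ := c
      rw [zero_add]
      exact good hk hi
  refine (sum_le_sum key).trans ?_
  rw [sum_add_distrib, ← sum_filter, sum_const, sum_const, cS, nsmul_eq_mul, nsmul_eq_mul,
    Nat.cast_pow]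
  have cB' : (B.card : ℝ) ≤ (m : ℝ) ^ (2 * m) * (J.card : ℝ) ^ m := by exact_mod_cast cB
  refine add_le_add (mul_le_mul_of_nonneg_right cB' (by positivity)) (le_of_eq ?_)
  ring

end Pool.Agent.Lib.MP_d6ddbd_nt.GG
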