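import Pool.Agent.Lib.MP_d6ddbd_nt.GG.St

/-!
The choice of the parameters in the large sieve inequality.
-/

set_option autoImplicit false

open Real

noncomputable section

namespace Pool.Agent.Lib.MP_d6ddbd_nt.GG

namespace Par

lemma fac (n a m D : ℕ) (ha : 0 < a) (hm : 0 < m) :
    (4 : ℝ) ^ m * ((a : ℝ) ^ a * (n + 1) * (m : ℝ) ^ (2 * m) * (2 ^ (n + 1)) ^ a + (D : ℝ) ^ (2 * m)) ≤
      (8 * (n + 1) * 2 ^ (n + 1) * (a * m * (D + 1)) : ℝ) ^ (2 * m * a) := by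
  have a1 : (1 : ℝ) ≤ a := by exact_mod_cast ha
  have m1 : (1 : ℝ) ≤ m := by exact_mod_cast hm
  have n1 : (1 : ℝ) ≤ n + 1 := by linarith [Nat.cast_nonneg (α := ℝ) n]
  have d0 : (0 : ℝ) ≤ D := Nat.cast_nonneg D
  have d1 : (1 : ℝ) ≤ D + 1 := by linarith
  have t1 : (1 : ℝ) ≤ 2 ^ (n + 1) := one_le_pow₀ one_le_two
  have e1 : 2 * m ≤ 2 * m * a := Nat.le_mul_of_pos_right _ ha
  have e2 : a ≤ 2 * m * a := Nat.le_mul_of_pos_left _ (by omega)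
  have x1 : (1 : ℝ) ≤ (a : ℝ) ^ a * (n + 1) * (m : ℝ) ^ (2 * m) * (2 ^ (n + 1)) ^ a :=
    one_le_mul_of_one_le_of_one_le (one_le_mul_of_one_le_of_one_le
      (one_le_mul_of_one_le_of_one_le (one_le_pow₀ a1) n1) (one_le_pow₀ m1)) (one_le_pow₀ t1)
  have x2 : (1 : ℝ) ≤ (D + 1) ^ (2 * m) := one_le_pow₀ d1
  have x3 : (D : ℝ) ^ (2 * m) ≤ (D + 1) ^ (2 * m) := pow_le_pow_left₀ d0 (by linarith) _
  have x4 : (a : ℝ) ^ a * (n + 1) * (m : ℝ) ^ (2 * m) * (2 ^ (n + 1)) ^ a + (D : ℝ) ^ (2 * m) ≤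
      2 * ((a : ℝ) ^ a * (n + 1) * (m : ℝ) ^ (2 * m) * (2 ^ (n + 1)) ^ a * (D + 1) ^ (2 * m)) := by
    nlinarith
  have y1 : (4 : ℝ) ^ m ≤ 4 ^ (2 * m * a) := pow_le_pow_right₀ (by norm_num) (by omega)
  have y2 : (2 : ℝ) ≤ 2 ^ (2 * m * a) := le_self_pow₀ one_le_two (by omega)
  have y3 : (a : ℝ) ^ a ≤ a ^ (2 * m * a) := pow_le_pow_right₀ a1 e2
  have y4 : (n + 1 : ℝ) ≤ (n + 1) ^ (2 * m * a) := le_self_pow₀ n1 (by omega)
  have y5 : (m : ℝ) ^ (2 * m) ≤ m ^ (2 * m * a) := pow_le_pow_right₀ m1 e1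
  have y6 : ((2 : ℝ) ^ (n + 1)) ^ a ≤ (2 ^ (n + 1)) ^ (2 * m * a) := pow_le_pow_right₀ t1 e2
  have y7 : (D + 1 : ℝ) ^ (2 * m) ≤ (D + 1) ^ (2 * m * a) := pow_le_pow_right₀ d1 e1
  generalize 2 * m * a = N at *
  calc _ ≤ (4 : ℝ) ^ m * (2 * ((a : ℝ) ^ a * (n + 1) * (m : ℝ) ^ (2 * m) * (2 ^ (n + 1)) ^ a *
        (D + 1) ^ (2 * m))) := mul_le_mul_of_nonneg_left x4 (by positivity)
    _ ≤ (4 : ℝ) ^ N * (2 ^ N * ((a : ℝ) ^ N * (n + 1) ^ N * (m : ℝ) ^ N * (2 ^ (n + 1)) ^ N *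
        (D + 1) ^ N)) := by gcongr
    _ = _ := by
      simp only [← mul_pow]
      congr 1
      ring

lemma momb (n a m H R D j k : ℕ) (Y z V g : ℝ) (hn : 0 < n) (ha : 0 < a) (hm : 0 < m)
    (hY : 1 ≤ 2 * Y) (hz : 0 ≤ z) (hV : 1 ≤ V) (hj : (j : ℝ) ≤ 2 * Y) (hk : (k : ℝ) ≤ z)
    (hR : (R : ℝ) = V ^ n * 2 ^ a) (h1 : (H : ℝ) ^ n ≤ V ^ n * z ^ a) (h2 : (2 * Y) ^ (3 * m) ≤ H)
    (hg : V ^ (n * (n + 2)) ≤ g * (2 * Y) ^ m) :
    mom n a m H R D Y j k ≤ z ^ a * (2 * Y) ^ (2 * m) * g *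
      (8 * (n + 1) * 2 ^ (n + 1) * (a * m * (D + 1)) : ℝ) ^ (2 * m * a) := by
  unfold mom
  generalize 2 * Y = Z at *
  have Z0 : 0 < Z := by linarith
  have j0 : (0 : ℝ) ≤ j := Nat.cast_nonneg j
  have m1 : (1 : ℝ) ≤ (m : ℝ) ^ (2 * m) := one_le_pow₀ (by exact_mod_cast hm)
  have v1 : 1 ≤ V ^ (n * (n + 2)) := one_le_pow₀ hV
  have g0 : 0 < g := (mul_pos_iff_of_pos_right (pow_pos Z0 m)).1 (one_pos.trans_le (v1.trans hg))
  have b1 : (j : ℝ) ^ (2 * m) * n * Z ^ (2 * m) * (H : ℝ) ^ (n - 1) ≤ n * (Z ^ m * (H : ℝ) ^ n) := by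
    obtain ⟨n, rfl⟩ := Nat.exists_eq_succ_of_ne_zero hn.ne'
    rw [Nat.succ_sub_one, pow_succ (H : ℝ)]
    calc _ ≤ Z ^ (2 * m) * (n.succ : ℕ) * Z ^ (2 * m) * (H : ℝ) ^ n := by gcongr
      _ = (n.succ : ℕ) * (Z ^ m * ((H : ℝ) ^ n * Z ^ (3 * m))) := by ring
      _ ≤ _ := by gcongr
  have b2 : (m : ℝ) ^ (2 * m) * (j : ℝ) ^ m * (H : ℝ) ^ n +
      (j : ℝ) ^ (2 * m) * n * Z ^ (2 * m) * (H : ℝ) ^ (n - 1) ≤
      (n + 1) * (m : ℝ) ^ (2 * m) * (Z ^ m * (V ^ n * z ^ a)) := by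
    have c1 : (m : ℝ) ^ (2 * m) * (j : ℝ) ^ m * (H : ℝ) ^ n ≤
        (m : ℝ) ^ (2 * m) * Z ^ m * (V ^ n * z ^ a) := by gcongr
    have c2 : (n : ℝ) * (Z ^ m * (H : ℝ) ^ n) ≤
        n * (m : ℝ) ^ (2 * m) * (Z ^ m * (V ^ n * z ^ a)) := by
      rw [mul_assoc (n : ℝ)]
      refine mul_le_mul_of_nonneg_left ?_ (Nat.cast_nonneg n)
      refine le_trans ?_ (le_mul_of_one_le_left (by positivity) m1)
      gcongr
    linarith
  have b3 : (1 : ℝ) ≤ g * Z ^ (2 * m) :=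
    (v1.trans hg).trans (mul_le_mul_of_nonneg_left (pow_le_pow_right₀ hY (by omega)) g0.le)
  have b4 : (k : ℝ) ^ a * (D : ℝ) ^ (2 * m) ≤ z ^ a * (D : ℝ) ^ (2 * m) * (g * Z ^ (2 * m)) := by
    refine le_trans ?_ (le_mul_of_one_le_right (by positivity) b3)
    gcongr
  have b5 : (a : ℝ) ^ a * (R : ℝ) ^ (n + 1) * ((m : ℝ) ^ (2 * m) * (j : ℝ) ^ m * (H : ℝ) ^ n +
      (j : ℝ) ^ (2 * m) * n * Z ^ (2 * m) * (H : ℝ) ^ (n - 1)) ≤
      z ^ a * Z ^ (2 * m) * g * ((a : ℝ) ^ a * (n + 1) * (m : ℝ) ^ (2 * m) * (2 ^ (n + 1)) ^ a) := by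
    calc _ ≤ (a : ℝ) ^ a * (R : ℝ) ^ (n + 1) *
          ((n + 1) * (m : ℝ) ^ (2 * m) * (Z ^ m * (V ^ n * z ^ a))) :=
          mul_le_mul_of_nonneg_left b2 (by positivity)
      _ = z ^ a * Z ^ m * ((a : ℝ) ^ a * (n + 1) * (m : ℝ) ^ (2 * m) * (2 ^ (n + 1)) ^ a) *
          V ^ (n * (n + 2)) := by
          rw [hR]
          ring
      _ ≤ z ^ a * Z ^ m * ((a : ℝ) ^ a * (n + 1) * (m : ℝ) ^ (2 * m) * (2 ^ (n + 1)) ^ a) *
          (g * Z ^ m) := mul_le_mul_of_nonneg_left hg (by positivity)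
      _ = _ := by ring
  calc _ ≤ (4 : ℝ) ^ m * (z ^ a * Z ^ (2 * m) * g *
        ((a : ℝ) ^ a * (n + 1) * (m : ℝ) ^ (2 * m) * (2 ^ (n + 1)) ^ a) +
        z ^ a * (D : ℝ) ^ (2 * m) * (g * Z ^ (2 * m))) :=
        mul_le_mul_of_nonneg_left (add_le_add b5 b4) (by positivity)
    _ = z ^ a * Z ^ (2 * m) * g * ((4 : ℝ) ^ m *
        ((a : ℝ) ^ a * (n + 1) * (m : ℝ) ^ (2 * m) * (2 ^ (n + 1)) ^ a + (D : ℝ) ^ (2 * m))) := by
        ring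
    _ ≤ _ := mul_le_mul_of_nonneg_left (fac n a m D ha hm) (by positivity)

lemma root (a m j k : ℕ) (S Z z E u B : ℝ) (ha : 0 < a) (hm : 0 < m) (hZ : 0 ≤ Z) (hz : 0 ≤ z)
    (hE : 0 ≤ E) (hu : 0 ≤ u) (hj : (j : ℝ) ≤ Z) (hk : (k : ℝ) ≤ z)
    (hB : B ≤ z ^ a * Z ^ (2 * m) * u ^ (2 * m * a) * E ^ (2 * m * a))
    (hS : S ^ (2 * m * a) ≤ (j : ℝ) ^ (2 * m * (a - 1)) * (k : ℝ) ^ (a * (2 * m - 1)) * B) :
    S ≤ Z * z * E * u := by
  have e1 : 2 * m * (a - 1) + 2 * m = 2 * m * a := by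
    rw [← Nat.mul_succ, Nat.succ_eq_add_one, Nat.sub_add_cancel ha]
  have e2 : a * (2 * m - 1) + a = 2 * m * a := by
    rw [← Nat.mul_succ, Nat.succ_eq_add_one, Nat.sub_add_cancel (by omega), mul_comm]
  refine le_of_pow_le_pow_left₀ (n := 2 * m * a) (by positivity) (by positivity) (hS.trans ?_)
  calc _ ≤ (j : ℝ) ^ (2 * m * (a - 1)) * (k : ℝ) ^ (a * (2 * m - 1)) *
        (z ^ a * Z ^ (2 * m) * u ^ (2 * m * a) * E ^ (2 * m * a)) :=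
        mul_le_mul_of_nonneg_left hB (by positivity)
    _ ≤ Z ^ (2 * m * (a - 1)) * z ^ (a * (2 * m - 1)) *
        (z ^ a * Z ^ (2 * m) * u ^ (2 * m * a) * E ^ (2 * m * a)) := by gcongr
    _ = Z ^ (2 * m * (a - 1) + 2 * m) * z ^ (a * (2 * m - 1) + a) * E ^ (2 * m * a) *
        u ^ (2 * m * a) := by
        rw [pow_add, pow_add]
        ring
    _ = _ := by rw [e1, e2, mul_pow, mul_pow, mul_pow]

lemma lg {x w : ℝ} {e : ℕ} (hx : 0 < x) (h : x ^ e ≤ w) : e * log x ≤ log w := by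
  rw [← log_pow]
  exact log_le_log (pow_pos hx e) h

end Par

theorem par_thm : ParStmt := by
  intro n A hn
  obtain ⟨A', hA'⟩ : ∃ A' : ℕ, A' = 144 * n ^ 3 + 1 + A * 2 := ⟨_, rfl⟩
  obtain ⟨κ, hκ⟩ : ∃ κ : ℝ, κ = 2 * (n * (n + 2)) * A' + 1 := ⟨_, rfl⟩
  obtain ⟨C₁, hC⟩ : ∃ C₁ : ℝ, C₁ = n * (6 * κ + 1) := ⟨_, rfl⟩
  have n1 : (1 : ℝ) ≤ n := by exact_mod_cast hn
  have A0 : (0 : ℝ) ≤ A' := Nat.cast_nonneg _
  have κ0 : 0 < κ := by rw [hκ]; positivity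
  have C0 : 0 < C₁ := by rw [hC]; positivity
  refine ⟨4 * (8 * (n + 1) * 2 ^ (n + 1) * (2 * C₁ * (2 * κ) * (2 * (n * A') + 4 * C₁ + 1))),
    1 / (4 * C₁), by positivity, by positivity, ?_⟩
  intro Q y Y M W hy hY hM hMQ hW hWQ
  have M1 : (1 : ℝ) ≤ M := by exact_mod_cast hM
  have W1 : (1 : ℝ) ≤ W := by exact_mod_cast hW
  have Q1 : 1 ≤ Q := M1.trans hMQ
  obtain ⟨V, hV⟩ : ∃ V : ℕ, V = 144 * n ^ 3 * M * W ^ 2 := ⟨_, rfl⟩
  have hV' : (V : ℝ) = 144 * n ^ 3 * M * W ^ 2 := by rw [hV]; push_cast; rfl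
  have n3 : (1 : ℝ) ≤ n ^ 3 := one_le_pow₀ n1
  have V6 : 6 * (n : ℝ) ^ 2 * W ≤ V := by
    have : (1 : ℝ) ≤ 24 * n * M * W := by
      have := one_le_mul_of_one_le_of_one_le (one_le_mul_of_one_le_of_one_le n1 M1) W1
      linarith
    calc _ ≤ 6 * (n : ℝ) ^ 2 * W * (24 * n * M * W) := le_mul_of_one_le_right (by positivity) this
      _ = _ := by rw [hV']; ring
  have nW : (1 : ℝ) ≤ n ^ 2 * W := one_le_mul_of_one_le_of_one_le (one_le_pow₀ n1) W1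
  have V1 : (1 : ℝ) ≤ V := by linarith
  have VQ : (V : ℝ) ≤ (2 * Q) ^ A' := by
    have c1 : (144 * n ^ 3 : ℝ) ≤ (2 * Q) ^ (144 * n ^ 3) := by
      have : ((144 * n ^ 3 : ℕ) : ℝ) ≤ 2 ^ (144 * n ^ 3) := by
        exact_mod_cast (Nat.lt_two_pow_self (n := 144 * n ^ 3)).le
      push_cast at this
      exact this.trans (pow_le_pow_left₀ zero_le_two (by linarith) _)
    have c2 : (M : ℝ) ≤ 2 * Q := by linarith
    rw [hV', hA', pow_add, pow_add, pow_one, pow_mul (2 * Q) A 2]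
    gcongr
  have l2 : 1 / 2 ≤ log 2 := by linarith [log_two_gt_d9]
  have l3 : log 2 ≤ 1 := by linarith [log_two_lt_d9]
  have ly : log 2 ≤ log y := log_le_log two_pos hy
  have lY : log 2 ≤ log Y := log_le_log two_pos hY
  have lQ : 0 ≤ log Q := log_nonneg Q1
  have hL : log (Q * y * Y) = log Q + log y + log Y := by
    rw [log_mul (by positivity) (by positivity), log_mul (by positivity) (by positivity)]
  have l4 : log (2 * Q) = log 2 + log Q := log_mul two_ne_zero (by positivity)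
  have l5 : log (2 * Y) = log 2 + log Y := log_mul two_ne_zero (by positivity)
  unfold bnd
  generalize log (Q * y * Y) = L at hL ⊢
  have L1 : 1 ≤ L := by linarith
  have lV : log V ≤ A' * L := by
    refine (log_le_log (by linarith) VQ).trans ?_
    rw [log_pow]
    exact mul_le_mul_of_nonneg_left (by linarith) A0
  obtain ⟨m₀, m1, m2⟩ := exists_nat_pow_near (x := ((V : ℝ) ^ (n * (n + 2))) ^ 2) (y := Y)
    (one_le_pow₀ (one_le_pow₀ V1)) (by linarith)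
  obtain ⟨m, hm⟩ : ∃ m : ℕ, m = m₀ + 1 := ⟨_, rfl⟩
  rw [← hm] at m2
  have m3 : m * log Y ≤ κ * L := by
    have c1 := Par.lg (by linarith) m1
    rw [log_pow, log_pow] at c1
    have c2 := mul_le_mul_of_nonneg_left lV (by positivity : (0 : ℝ) ≤ 2 * (n * (n + 2)))
    rw [hm, hκ]
    push_cast at c1 ⊢
    linarith
  obtain ⟨a₀, a1, a2⟩ := exists_nat_pow_near (x := (2 * Y) ^ (3 * m)) (y := y)
    (one_le_pow₀ (by linarith)) (by linarith)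
  obtain ⟨b, hb⟩ : ∃ b : ℕ, b = a₀ + 1 := ⟨_, rfl⟩
  rw [← hb] at a2
  have m0 : 0 < m := by omega
  have b0 : 0 < b := by omega
  have a3 : ((b * n : ℕ) : ℝ) * log y ≤ C₁ * L := by
    have c1 := Par.lg (by linarith) a1
    rw [log_pow, l5] at c1
    have c2 := mul_le_mul_of_nonneg_left lY (Nat.cast_nonneg (α := ℝ) m)
    have c3 : b * log y ≤ (6 * κ + 1) * L := by
      rw [hb]
      push_cast at c1 ⊢
      linarith
    have c4 := mul_le_mul_of_nonneg_left c3 (by linarith : (0 : ℝ) ≤ n)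
    rw [hC]
    push_cast
    linarith
  have T1 : (2 * y) ^ b ≤ (⌈(2 * y) ^ b⌉₊ : ℝ) := Nat.le_ceil _
  have T2 : (⌈(2 * y) ^ b⌉₊ : ℝ) < (2 * y) ^ b + 1 := Nat.ceil_lt_add_one (by positivity)
  generalize ⌈(2 * y) ^ b⌉₊ = T at T1 T2
  have z1 : 1 ≤ (2 * y) ^ b := one_le_pow₀ (by linarith)
  obtain ⟨H, hH⟩ : ∃ H : ℕ, H = 2 * n ^ 2 * T * W + 1 := ⟨_, rfl⟩
  have hH' : (H : ℝ) = 2 * (n ^ 2 * W * T) + 1 := by rw [hH]; push_cast; ring
  have H1 : (H : ℝ) ≤ 6 * n ^ 2 * W * (2 * y) ^ b := by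
    have c1 := mul_le_mul_of_nonneg_left (show (T : ℝ) ≤ 2 * (2 * y) ^ b by linarith)
      (by linarith : (0 : ℝ) ≤ n ^ 2 * W)
    have c2 := one_le_mul_of_one_le_of_one_le nW z1
    linarith
  have H2 : (2 * Y) ^ (3 * m) ≤ H := by
    have c1 : y ^ b ≤ (2 * y) ^ b := pow_le_pow_left₀ (by linarith) (by linarith) b
    have c2 : (T : ℝ) ≤ n ^ 2 * W * T := le_mul_of_one_le_left (Nat.cast_nonneg T) nW
    linarith
  have H3 : (H : ℝ) ^ n ≤ (V : ℝ) ^ n * (2 * y) ^ (b * n) := by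
    rw [pow_mul, ← mul_pow]
    exact pow_le_pow_left₀ (Nat.cast_nonneg H)
      (H1.trans (mul_le_mul_of_nonneg_right V6 (by positivity))) n
  have a0 : 0 < b * n := Nat.mul_pos b0 hn
  have T3 : (2 * y) ^ (b * n) < ((T : ℝ) + 1) ^ n := by
    rw [pow_mul]
    exact pow_lt_pow_left₀ (by linarith) (by positivity) hn.ne'
  have H4 : (24 * M * n * W * H : ℝ) ^ n ≤ (V : ℝ) ^ n * (2 * y) ^ (b * n) := by
    rw [pow_mul, ← mul_pow]
    refine pow_le_pow_left₀ (by positivity) ?_ n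
    calc _ ≤ 24 * M * n * W * (6 * n ^ 2 * W * (2 * y) ^ b) :=
          mul_le_mul_of_nonneg_left H1 (by positivity)
      _ = _ := by rw [hV']; ring
  generalize b * n = a at a0 a3 H3 T3 H4
  have hR : ((V ^ n * 2 ^ a : ℕ) : ℝ) = (V : ℝ) ^ n * 2 ^ a := by push_cast; rfl
  obtain ⟨D, D1, D2⟩ := exists_nat_pow_near (x := (V : ℝ) ^ n * 2 ^ a) (y := Y)
    (one_le_mul_of_one_le_of_one_le (one_le_pow₀ V1) (one_le_pow₀ one_le_two)) (by linarith)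
  refine ⟨a, m, T, H, V ^ n * 2 ^ a, D, a0, m0, T3, by omega, ?_, hR ▸ D2, ?_⟩
  · rw [hR, mul_assoc ((V : ℝ) ^ n), ← mul_pow]
    exact H4
  intro S j k _ hj hk hS
  have a' : (0 : ℝ) < a := by exact_mod_cast a0
  have g1 : exp (-(log Y / (4 * a))) ^ (2 * m * a) = exp (-(m * log Y / 2)) := by
    rw [← exp_nat_mul]
    congr 1
    push_cast
    field_simp
    ring
  have g2 : (V : ℝ) ^ (n * (n + 2)) ≤ exp (-(m * log Y / 2)) * (2 * Y) ^ m := by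
    have c1 : Y ^ m = exp (m * log Y) := by rw [exp_nat_mul, exp_log (by linarith)]
    have c2 : (V : ℝ) ^ (n * (n + 2)) ≤ exp (m * log Y / 2) := by
      refine le_of_pow_le_pow_left₀ two_ne_zero (exp_pos _).le (m2.le.trans ?_)
      rw [c1, ← exp_nat_mul]
      exact le_of_eq (congrArg exp (by push_cast; ring))
    have c3 : exp (m * log Y / 2) = exp (-(m * log Y / 2)) * Y ^ m := by
      rw [c1, ← exp_add]
      exact congrArg exp (by ring)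
    refine c2.trans (c3.le.trans (mul_le_mul_of_nonneg_left ?_ (exp_pos _).le))
    exact pow_le_pow_left₀ (by linarith) (by linarith) m
  have g3 := Par.momb n a m H (V ^ n * 2 ^ a) D j k Y (2 * y) V _ hn a0 m0 (by linarith)
    (by linarith) V1 hj hk hR H3 H2 g2
  rw [← g1] at g3
  have g4 := Par.root a m j k S (2 * Y) (2 * y) _ _ _ a0 m0 (by linarith) (by linarith)
    (by positivity) (exp_pos _).le hj hk g3 hS
  have k1 : (a : ℝ) ≤ 2 * C₁ * L := by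
    have := mul_le_mul_of_nonneg_left (l2.trans ly) a'.le
    linarith
  have k2 : (m : ℝ) ≤ 2 * κ * L := by
    have := mul_le_mul_of_nonneg_left (l2.trans lY) (Nat.cast_nonneg (α := ℝ) m)
    linarith
  have k3 : (D : ℝ) + 1 ≤ (2 * (n * A') + 4 * C₁ + 1) * L := by
    have c1 := Par.lg (by linarith) D1
    rw [log_mul (by positivity) (by positivity), log_pow, log_pow] at c1
    have c2 := mul_le_mul_of_nonneg_left (l2.trans lY) (Nat.cast_nonneg (α := ℝ) D)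
    have c3 := mul_le_mul_of_nonneg_left lV (by linarith : (0 : ℝ) ≤ n)
    have c4 := mul_le_mul_of_nonneg_left l3 a'.le
    linarith
  have k4 : exp (-(log Y / (4 * a))) ≤ exp (-(1 / (4 * C₁) * log y * log Y / L)) := by
    refine exp_le_exp.2 (neg_le_neg ?_)
    have c1 : 1 / (4 * C₁) * log y * log Y / L = log Y * (a * log y) / (4 * a * (C₁ * L)) := by
      field_simp
    have c2 : log Y / (4 * a) = log Y * (C₁ * L) / (4 * a * (C₁ * L)) := by field_simp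
    rw [c1, c2]
    have : 0 ≤ log Y := by linarith
    gcongr
  have y0 : 0 ≤ y := by linarith
  have Y0 : 0 ≤ Y := by linarith
  calc S ≤ _ := g4
    _ ≤ 2 * Y * (2 * y) * (8 * (n + 1) * 2 ^ (n + 1) * (2 * C₁ * L * (2 * κ * L) *
        ((2 * (n * A') + 4 * C₁ + 1) * L))) * exp (-(1 / (4 * C₁) * log y * log Y / L)) := by
        gcongr
    _ = _ := by ring

end Pool.Agent.Lib.MP_d6ddbd_nt.GG
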